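import Mathlib

/-!
# [H71 AS PWB] Power sums: `L r = ∏ (1 - α^r X)`

Mathlib only.  Work in `ℂ⟦X⟧`, `A' = PowerSeries.derivative` (`d⁄dX`).  For `A G : ℂ⟦X⟧` let `LD A G`
be the statement `X * A' = G * A`.
(a) `LD A G`, `LD B H` give `LD (A * B) (G + H)`.  (b) If `LD A G`, `LD A G'` and `A ≠ 0`, then
`G = G'` (domain).  (c) If `LD (A * B) (G + H)`, `LD A G`, `A ≠ 0`, then `LD B H`.
(d) If `LD A G`, `LD B G`, constant coefficients of `G` is `0` and those of `A`, `B` are equal, then
`A = B` (coefficient `n ≥ 1`: `n A_n = ∑_(m=1)^n G_m A_(n-m)`, strong induction).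
(e) `LD (1 - a X) (- ∑_(m ≥ 1) a^m X^m)` for `a : ℂ` (the series is `-a X / (1 - a X)`; multiply out,
coefficientwise).  (f) For a multiset `M`: `LD (∏_(α ∈ M) (1 - α X)) (- ∑_(m≥1) (∑_(α∈M) α^m) X^m)`,
by induction from (a), (e).
(g) `Z_r = mk (E r)`, mapped to `ℂ`: `LD Z_r (∑_(m ≥ 1) F (r m) X^m)` by `hrec`.
(h) So with `hL`, (a), (e): `LD (L r) (∑_(m≥1) (F (r m) - 1 - q^(r m)) X^m)`.
(i) `L 1` mapped to `ℂ` is `∏_(α ∈ M) (1 - α X)`, `M` the roots of the reverse polynomial: the
reverse of `L 1` is monic (its leading coefficient is the constant coefficient `1` of `L 1`,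
`Polynomial.reverse_leadingCoeff`, `trailingCoeff`), it splits over `ℂ`:
`= ∏ (X - C α)` (`IsAlgClosed.splits`, `Polynomial.prod_multiset_X_sub_C_of_monic_of_roots_card_eq`
or `eq_prod_roots_of_monic_of_splits_id`), and reversing
again gives `L 1` (`reverse_reverse`? if `coeff 0 ≠ 0`; the reverse of a product is the product of the
reverses, `Polynomial.reverse_mul_of_domain`, the reverse of `X - C α` is `1 - C α * X`; also for
`α = 0`: the reverse of `X` is `1`).  (`α = 0` does not occur: `L 1` has nonzero reverse constant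
coefficient = leading coefficient of `L 1`.)
(j) (f), (h) for `r = 1` and (b): `F m - 1 - q^m = - ∑_(α∈M) α^m` for all `m ≥ 1`.
(k) Hence for `r`: `LD (L r) G` and `LD (∏ (1 - α^r X)) G` with the same
`G = - ∑_m (∑_α α^(r m)) X^m` ((f) for the multiset of the `α^r`), so by (d)
`L r = ∏_(α∈M) (1 - α^r X)` (as power series, hence as polynomials), and evaluate at `1`.
-/

namespace Pool.Agent.H71.AS

open Polynomial

private def LD (A G : PowerSeries ℂ) : Prop :=
  PowerSeries.X * PowerSeries.derivative ℂ A = G * A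

private theorem ld_mul {A B G H : PowerSeries ℂ} (h1 : LD A G) (h2 : LD B H) :
    LD (A * B) (G + H) := by
  unfold LD at *
  rw [Derivation.leibniz, smul_eq_mul, smul_eq_mul]
  linear_combination B * h1 + A * h2

private theorem ld_uniq {A G G' : PowerSeries ℂ} (hA : A ≠ 0) (h1 : LD A G) (h2 : LD A G') :
    G = G' := by
  unfold LD at *
  exact mul_right_cancel₀ hA (h1.symm.trans h2)

private theorem ld_eq {A B G : PowerSeries ℂ} (h1 : LD A G) (h2 : LD B G)
    (hG : PowerSeries.coeff 0 G = 0)
    (h0 : PowerSeries.coeff 0 A = PowerSeries.coeff 0 B) : A = B := by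
  ext n
  induction n using Nat.strong_induction_on with
  | _ n ih =>
    rcases n with _ | n
    · exact h0
    · have e : ∀ A : PowerSeries ℂ, LD A G → PowerSeries.coeff (n + 1) A * ((n : ℂ) + 1) =
          ∑ p ∈ Finset.HasAntidiagonal.antidiagonal (n + 1), PowerSeries.coeff p.1 G * PowerSeries.coeff p.2 A := by
        intro A hA
        unfold LD at hA
        have h3 := congrArg (PowerSeries.coeff (n + 1)) hA
        rw [PowerSeries.coeff_succ_X_mul, PowerSeries.coeff_derivative, PowerSeries.coeff_mul] at h3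
        exact h3
      have e1 := e A h1
      have e2 := e B h2
      have e3 : ∑ p ∈ Finset.HasAntidiagonal.antidiagonal (n + 1),
            PowerSeries.coeff p.1 G * PowerSeries.coeff p.2 A =
          ∑ p ∈ Finset.HasAntidiagonal.antidiagonal (n + 1),
            PowerSeries.coeff p.1 G * PowerSeries.coeff p.2 B := by
        apply Finset.sum_congr rfl
        rintro ⟨i, j⟩ hij
        rw [Finset.HasAntidiagonal.mem_antidiagonal] at hij
        change i + j = n + 1 at hij
        rcases Nat.eq_zero_or_pos i with hi | hi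
        · change PowerSeries.coeff i G * _ = PowerSeries.coeff i G * _
          rw [hi, hG, zero_mul, zero_mul]
        · change _ * PowerSeries.coeff j A = _ * PowerSeries.coeff j B
          rw [ih j (by omega)]
      rw [e3, ← e2] at e1
      exact mul_right_cancel₀ (by exact_mod_cast Nat.succ_ne_zero n) e1

/-- `∑_(m ≥ 1) a^m X^m` -/
private noncomputable def PP (a : ℂ) : PowerSeries ℂ :=
  PowerSeries.mk fun m => if m = 0 then 0 else a ^ m

private theorem pp_mul (a : ℂ) :
    PP a * (1 - PowerSeries.C a * PowerSeries.X) = PowerSeries.C a * PowerSeries.X := by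
  have h : PP a * (1 - PowerSeries.C a * PowerSeries.X) =
      PP a - PowerSeries.X * (PowerSeries.C a * PP a) := by ring
  rw [h]
  ext n
  rcases n with _ | n
  · simp [PP]
  · rw [map_sub, PowerSeries.coeff_succ_X_mul, PowerSeries.coeff_C_mul,
      mul_comm (PowerSeries.C a) PowerSeries.X, PowerSeries.coeff_succ_X_mul]
    unfold PP
    rw [PowerSeries.coeff_mk, PowerSeries.coeff_mk, if_neg (Nat.succ_ne_zero n),
      PowerSeries.coeff_C]
    rcases n with _ | n
    · simp
    · rw [if_neg (Nat.succ_ne_zero n), if_neg (Nat.succ_ne_zero n)]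
      ring

private theorem ld_lin (a : ℂ) : LD (1 - PowerSeries.C a * PowerSeries.X) (-(PP a)) := by
  unfold LD
  rw [neg_mul, pp_mul, map_sub, PowerSeries.derivative_one, Derivation.leibniz,
    PowerSeries.derivative_C, PowerSeries.derivative_X]
  simp only [smul_eq_mul]
  ring

private theorem ld_prod (M : Multiset ℂ) :
    LD ((M.map fun a => 1 - PowerSeries.C a * PowerSeries.X).prod) (-((M.map PP).sum)) := by
  induction M using Multiset.induction_on with
  | empty =>
    unfold LD
    simp [PowerSeries.derivative_one]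
  | cons a M ih =>
    rw [Multiset.map_cons, Multiset.prod_cons, Multiset.map_cons, Multiset.sum_cons, neg_add]
    exact ld_mul (ld_lin a) ih

private theorem lin_ne (a : ℂ) : (1 - PowerSeries.C a * PowerSeries.X : PowerSeries ℂ) ≠ 0 := by
  intro h
  have := congrArg (PowerSeries.coeff 0) h
  simp at this

private theorem prod_ne (M : Multiset ℂ) :
    ((M.map fun a => 1 - PowerSeries.C a * PowerSeries.X).prod : PowerSeries ℂ) ≠ 0 := by
  rw [Ne, Multiset.prod_eq_zero_iff, Multiset.mem_map]
  rintro ⟨a, _, ha⟩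
  exact lin_ne a ha

private theorem prod_coeff (M : Multiset ℂ) :
    PowerSeries.coeff 0 ((M.map fun a => 1 - PowerSeries.C a * PowerSeries.X).prod :
      PowerSeries ℂ) = 1 := by
  rw [PowerSeries.coeff_zero_eq_constantCoeff_apply, map_multiset_prod, Multiset.map_map]
  apply Multiset.prod_eq_one
  intro x hx
  rw [Multiset.mem_map] at hx
  obtain ⟨a, _, rfl⟩ := hx
  simp

private theorem rev_prod (M : Multiset ℂ) :
    ((M.map fun a => (X - C a : ℂ[X])).prod).reverse = (M.map fun a => (1 - C a * X : ℂ[X])).prod := by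
  induction M using Multiset.induction_on with
  | empty =>
    rw [Multiset.map_zero, Multiset.prod_zero, Multiset.map_zero, Multiset.prod_zero, ← C_1,
      reverse_C]
  | cons a M ih =>
    rw [Multiset.map_cons, Multiset.prod_cons, Multiset.map_cons, Multiset.prod_cons,
      reverse_mul_of_domain, ih]
    congr 1
    have h1 : (X - C a : ℂ[X]) = X + C (-a) := by rw [map_neg]; ring
    have h2 : (X : ℂ[X]).reverse = 1 := by
      have := reverse_mul_X (1 : ℂ[X])
      rw [one_mul] at this
      rw [this, ← C_1, reverse_C]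
    rw [h1, reverse_add_C, h2, natDegree_X, pow_one, map_neg]
    ring

private theorem coe_prod' (M : Multiset ℂ) :
    (((M.map fun a => (1 - C a * X : ℂ[X])).prod : ℂ[X]) : PowerSeries ℂ) =
      (M.map fun a => 1 - PowerSeries.C a * PowerSeries.X).prod := by
  induction M using Multiset.induction_on with
  | empty => simp
  | cons a M ih =>
    rw [Multiset.map_cons, Multiset.prod_cons, Multiset.map_cons, Multiset.prod_cons,
      Polynomial.coe_mul, ih]
    congr 1
    rw [Polynomial.coe_sub, Polynomial.coe_one, Polynomial.coe_mul, Polynomial.coe_C,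
      Polynomial.coe_X]

theorem pwb (q : ℕ) (F : ℕ → ℕ) (E : ℕ → ℕ → ℕ) (hE0 : ∀ r, 0 < r → E r 0 = 1)
    (hrec : ∀ r, 0 < r → ∀ N, N * E r N =
      ∑ m ∈ Finset.Icc 1 N, F (r * m) * E r (N - m))
    (L : ℕ → ℤ[X]) (hL0 : ∀ r, 0 < r → (L r).coeff 0 = 1)
    (hL : ∀ r, 0 < r → (L r : PowerSeries ℤ) =
      (1 - PowerSeries.X) * (1 - PowerSeries.C ((q : ℤ) ^ r) * PowerSeries.X) *
        PowerSeries.mk (fun N => (E r N : ℤ))) (r : ℕ) (hr : 0 < r) :
    (((L r).eval 1 : ℤ) : ℂ) =
      ((((L 1).reverse.map (Int.castRingHom ℂ)).roots).map (fun α => 1 - α ^ r)).prod := by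
  set f := Int.castRingHom ℂ with hf
  have hfi : Function.Injective f := Int.cast_injective
  set M := ((L 1).reverse.map f).roots with hM
  -- (g)
  set G : ℕ → PowerSeries ℂ := fun r => PowerSeries.mk fun m => if m = 0 then 0 else (F (r * m) : ℂ)
    with hG
  have hg : ∀ r, 0 < r → LD (PowerSeries.mk fun N => (E r N : ℂ)) (G r) := by
    intro r hr
    unfold LD
    ext n
    rcases n with _ | n
    · simp [hG]
    · rw [PowerSeries.coeff_succ_X_mul, PowerSeries.coeff_derivative, PowerSeries.coeff_mk,
        PowerSeries.coeff_mul]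
      have h1 := hrec r hr (n + 1)
      have h2 : ((n : ℂ) + 1) * (E r (n + 1) : ℂ) =
          ∑ m ∈ Finset.Icc 1 (n + 1), (F (r * m) : ℂ) * (E r (n + 1 - m) : ℂ) := by
        exact_mod_cast h1
      rw [mul_comm, h2]
      have h3 : ∑ p ∈ Finset.HasAntidiagonal.antidiagonal (n + 1), PowerSeries.coeff p.1 (G r) *
          PowerSeries.coeff p.2 (PowerSeries.mk fun N => (E r N : ℂ)) =
          ∑ k ∈ Finset.range (n + 1).succ, (if k = 0 then 0 else (F (r * k) : ℂ)) *
            (E r (n + 1 - k) : ℂ) := by
        rw [← Finset.Nat.sum_antidiagonal_eq_sum_range_succ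
          (fun i j => (if i = 0 then 0 else (F (r * i) : ℂ)) * (E r j : ℂ))]
        apply Finset.sum_congr rfl
        intro p _
        rw [hG, PowerSeries.coeff_mk, PowerSeries.coeff_mk]
      rw [h3, Finset.sum_range_succ', if_pos rfl, zero_mul, add_zero, ← Finset.Ico_succ_right_eq_Icc,
        Finset.sum_Ico_eq_sum_range]
      apply Finset.sum_congr rfl
      intro k _
      rw [if_neg (Nat.succ_ne_zero k), add_comm 1 k]
  -- (h)
  set H : ℕ → PowerSeries ℂ := fun r => -(PP 1) + -(PP ((q : ℂ) ^ r)) + G r with hH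
  have hLC : ∀ r, 0 < r → (((L r).map f : ℂ[X]) : PowerSeries ℂ) =
      (1 - PowerSeries.C (1 : ℂ) * PowerSeries.X) *
        (1 - PowerSeries.C ((q : ℂ) ^ r) * PowerSeries.X) *
          PowerSeries.mk fun N => (E r N : ℂ) := by
    intro r hr
    rw [Polynomial.polynomial_map_coe, hL r hr, map_mul, map_mul, map_sub, map_sub, map_one,
      map_mul, PowerSeries.map_X, PowerSeries.map_C, map_one, one_mul]
    rw [map_pow, map_natCast]
    congr 1
  have hh : ∀ r, 0 < r → LD (((L r).map f : ℂ[X]) : PowerSeries ℂ) (H r) := by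
    intro r hr
    rw [hLC r hr]
    exact ld_mul (ld_mul (ld_lin _) (ld_lin _)) (hg r hr)
  have hc0 : ∀ r, 0 < r → PowerSeries.coeff 0 (((L r).map f : ℂ[X]) : PowerSeries ℂ) = 1 := by
    intro r hr
    rw [Polynomial.coeff_coe, coeff_map, hL0 r hr, map_one]
  -- (i)
  have hpr : ((L 1).map f : ℂ[X]) = (M.map fun a => (1 - C a * X : ℂ[X])).prod := by
    have h0 : (L 1).coeff 0 = 1 := hL0 1 one_pos
    have htr : (L 1).natTrailingDegree = 0 := by
      rw [natTrailingDegree_eq_zero]
      right
      rw [h0]
      exact one_ne_zero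
    have hmon : ((L 1).reverse.map f).Monic := by
      apply Monic.map
      unfold Monic
      rw [reverse_leadingCoeff]
      unfold trailingCoeff
      rw [htr, h0]
    have hsp : ((L 1).reverse.map f).Splits := IsAlgClosed.splits _
    have h1 := hsp.eq_prod_roots_of_monic hmon
    rw [← hM] at h1
    have h2 : ((L 1).map f : ℂ[X]) = ((L 1).reverse.map f).reverse := by
      have e1 : (L 1).reverse.reverse = L 1 := by
        have e2 : (L 1).reverse.natDegree = (L 1).natDegree := by
          rw [reverse_natDegree, htr, Nat.sub_zero]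
        unfold reverse at e2 ⊢
        rw [e2, reflect_reflect]
      have e3 : ((L 1).reverse.map f).reverse = ((L 1).reverse.reverse).map f := by
        unfold reverse
        rw [natDegree_map_eq_of_injective hfi, reflect_map]
      rw [e3, e1]
    rw [h2, h1, rev_prod]
  -- (j)
  have hj : -((M.map PP).sum) = H 1 := by
    have h1 := hh 1 one_pos
    rw [hpr, coe_prod'] at h1
    exact ld_uniq (prod_ne M) (ld_prod M) h1
  have hcsum : ∀ (N : Multiset ℂ) (m : ℕ), PowerSeries.coeff m ((N.map PP).sum) =
      if m = 0 then 0 else (N.map fun a => a ^ m).sum := by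
    intro N m
    induction N using Multiset.induction_on with
    | empty => simp
    | cons a N ih =>
      rw [Multiset.map_cons, Multiset.sum_cons, map_add, ih, Multiset.map_cons, Multiset.sum_cons]
      unfold PP
      rw [PowerSeries.coeff_mk]
      split_ifs <;> simp
  have hHc : ∀ r m, PowerSeries.coeff m (H r) =
      if m = 0 then 0 else -1 + -(((q : ℂ) ^ r) ^ m) + (F (r * m) : ℂ) := by
    intro r m
    rw [hH]
    simp only [map_add, map_neg]
    unfold PP
    rw [PowerSeries.coeff_mk, PowerSeries.coeff_mk, hG, PowerSeries.coeff_mk]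
    split_ifs <;> simp
  -- (k)
  have hk : -(((M.map fun a => a ^ r).map PP).sum) = H r := by
    ext m
    rw [map_neg, hcsum, hHc]
    split_ifs with hm
    · simp
    · have h1 := congrArg (PowerSeries.coeff (r * m)) hj
      have hrm : r * m ≠ 0 := Nat.mul_ne_zero hr.ne' hm
      rw [map_neg, hcsum, hHc, if_neg hrm, if_neg hrm, one_mul, pow_one] at h1
      rw [Multiset.map_map, ← pow_mul]
      rw [← h1]
      congr 2
      apply Multiset.map_congr rfl
      intro a _
      simp only [Function.comp_apply]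
      rw [← pow_mul]
  have hfin : (((L r).map f : ℂ[X]) : PowerSeries ℂ) =
      (((M.map fun a => a ^ r).map fun a => (1 - C a * X : ℂ[X])).prod : ℂ[X]) := by
    rw [coe_prod']
    refine ld_eq (G := H r) (hh r hr) ?_ ?_ ?_
    · rw [← hk]
      exact ld_prod _
    · rw [hHc, if_pos rfl]
    · rw [hc0 r hr, prod_coeff]
  have hfin2 := Polynomial.coe_injective ℂ hfin
  have hfin3 := congrArg (eval 1) hfin2
  rw [Polynomial.eval_map, eval₂_at_one, eval_multiset_prod, Multiset.map_map, Multiset.map_map]
    at hfin3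
  rw [show (((L r).eval 1 : ℤ) : ℂ) = f ((L r).eval 1) from rfl, hfin3]
  congr 1
  apply Multiset.map_congr rfl
  intro a _
  simp

end Pool.Agent.H71.AS
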