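import Pool.Agent.H71.AS.Defs

/-!
# [H71 AS REC] The recursion for the numbers of invariant multisets

Mathlib only in substance (`ED` is defined in `Defs`).  `τ` a permutation of `Y` such that every
power `τ^m`, `m > 0`, has finitely many fixed points.

`ED_finite`: for `D ∈ ED τ N` and `y` with `D y > 0` the orbit of `y` has at most `N` elements
(`D` is constant on it, total degree `N`), so `(τ^m) y = y` for some `1 ≤ m ≤ N`; hence the support of
`D` lies in the finite set `Y_N` of the fixed points of the `τ^m`, `1 ≤ m ≤ N`, and the values are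
`≤ N`: finitely many `D` (`Finset.finsupp`, or an injection into functions `Y_N → Fin (N+1)`).

`ED_rec`: double counting.  For `y` with a finite orbit let `c(y) = Function.minimalPeriod τ y > 0`
and `o(y) : Y →₀ ℕ` the indicator of the orbit `{τ^i y | i < c(y)}`, of total degree `c(y)`.
Consider triples `(D, y, i)`, `D ∈ ED τ N`, `y` in the support of `D`, `i < D y`: their number is
`∑_D ∑_y D y = N * #ED τ N`.  Consider triples `(m, y, D')`, `1 ≤ m ≤ N`, `(τ^m) y = y`,
`D' ∈ ED τ (N - m)`: their number is the right side.  Bijection: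
`(D, y, i) ↦ (m, y, D')` with `m = (i+1) c(y)`, `D' = D - (i+1) o(y)`
(legitimate, since `D ≥ (i+1)` on the orbit of `y`; `D'` is invariant, of total degree `N - m`, and
`(τ^m) y = y`), and backwards `(m, y, D') ↦ (D' + j o(y), y, j - 1)`, `j = m / c(y)`
(`c(y) ∣ m` by `Function.IsPeriodicPt.minimalPeriod_dvd`, `j ≥ 1`, and `(D' + j o(y))(y) ≥ j`).
`ED_zero`: only `D = 0`.
-/

namespace Pool.Agent.H71.AS

open Pool.H93.OP

open Function in
private theorem pow_iff {Y : Type} (τ : Equiv.Perm Y) (m : ℕ) (y : Y) :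
    (τ ^ m) y = y ↔ minimalPeriod τ y ∣ m := by
  rw [← isPeriodicPt_iff_minimalPeriod_dvd, IsPeriodicPt, IsFixedPt, Equiv.Perm.iterate_eq_pow]

private theorem inv_pow {Y : Type} (τ : Equiv.Perm Y) (D : Y → ℕ) (hD : ∀ y, D (τ y) = D y)
    (i : ℕ) (y : Y) : D ((τ ^ i) y) = D y := by
  induction i with
  | zero => rfl
  | succ n ih => rw [pow_succ', Equiv.Perm.mul_apply, hD, ih]

private theorem sum_ge {Y : Type} (D : Y →₀ ℕ) (s : Finset Y) :
    ∑ y ∈ s, D y ≤ D.sum fun _ n => n := by
  classical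
  rw [Finsupp.sum]
  calc ∑ y ∈ s, D y ≤ ∑ y ∈ s ∪ D.support, D y :=
        Finset.sum_le_sum_of_subset Finset.subset_union_left
    _ = ∑ y ∈ D.support, D y := by
        symm
        refine Finset.sum_subset Finset.subset_union_right ?_
        intro y _ hy
        exact Finsupp.notMem_support_iff.1 hy

private theorem val_le {Y : Type} {τ : Equiv.Perm Y} {N : ℕ} {D : Y →₀ ℕ} (hD : D ∈ ED τ N)
    (y : Y) : D y ≤ N := by
  have h := sum_ge D {y}
  rw [Finset.sum_singleton, hD.2] at h
  exact h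

private theorem supp_fix {Y : Type} {τ : Equiv.Perm Y} {N : ℕ} {D : Y →₀ ℕ} (hD : D ∈ ED τ N)
    (y : Y) (hy : D y ≠ 0) : ∃ m ∈ Finset.Icc 1 N, (τ ^ m) y = y := by
  classical
  by_contra hcon
  push Not at hcon
  have hinj : Set.InjOn (fun i : ℕ => (τ ^ i) y) (Finset.range (N + 1) : Set ℕ) := by
    have key : ∀ i j : ℕ, i < j → j ≤ N → (τ ^ i) y = (τ ^ j) y → False := by
      intro i j hij hj h
      refine hcon (j - i) (Finset.mem_Icc.2 ⟨by omega, by omega⟩) ?_
      have h1 : τ ^ j = τ ^ i * τ ^ (j - i) := by rw [← pow_add]; congr 1; omega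
      rw [h1, Equiv.Perm.mul_apply] at h
      exact ((τ ^ i).injective h).symm
    intro i hi j hj h
    simp only [Finset.coe_range, Set.mem_Iio] at hi hj
    rcases lt_trichotomy i j with h1 | h1 | h1
    · exact (key i j h1 (by omega) h).elim
    · exact h1
    · exact (key j i h1 (by omega) h.symm).elim
  have h1 := sum_ge D ((Finset.range (N + 1)).image fun i : ℕ => (τ ^ i) y)
  rw [hD.2, Finset.sum_image hinj] at h1
  have h2 : ∑ i ∈ Finset.range (N + 1), D ((τ ^ i) y) ≥ ∑ _i ∈ Finset.range (N + 1), 1 := by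
    refine Finset.sum_le_sum fun i _ => ?_
    rw [inv_pow τ D hD.1]
    omega
  rw [Finset.sum_const, Finset.card_range, smul_eq_mul, mul_one] at h2
  omega

/-- the finite set of the points of period at most `N` -/
private noncomputable def YN {Y : Type} (τ : Equiv.Perm Y)
    (hfix : ∀ m : ℕ, 0 < m → {y | (τ ^ m) y = y}.Finite) (N : ℕ) : Finset Y :=
  (Set.Finite.toFinset (s := ⋃ m ∈ Finset.Icc 1 N, {y | (τ ^ m) y = y}) (by
    refine Set.Finite.biUnion (Finset.finite_toSet _) ?_
    intro m hm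
    rw [Finset.mem_coe, Finset.mem_Icc] at hm
    exact hfix m (by omega)))

private theorem mem_YN {Y : Type} (τ : Equiv.Perm Y)
    (hfix : ∀ m : ℕ, 0 < m → {y | (τ ^ m) y = y}.Finite) (N : ℕ) (y : Y) :
    y ∈ YN τ hfix N ↔ ∃ m ∈ Finset.Icc 1 N, (τ ^ m) y = y := by
  simp only [YN, Set.Finite.mem_toFinset, Set.mem_iUnion, exists_prop]
  rfl

theorem ED_finite {Y : Type} (τ : Equiv.Perm Y)
    (hfix : ∀ m : ℕ, 0 < m → {y | (τ ^ m) y = y}.Finite) (N : ℕ) : (ED τ N).Finite := by
  classical
  refine Set.Finite.subset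
    (Finset.finite_toSet ((YN τ hfix N).finsupp fun _ => Finset.range (N + 1))) ?_
  intro D hD
  rw [Finset.mem_coe, Finset.mem_finsupp_iff]
  refine ⟨?_, ?_⟩
  · intro y hy
    rw [mem_YN]
    exact supp_fix hD y (Finsupp.mem_support_iff.1 hy)
  · intro y _
    rw [Finset.mem_range]
    have := val_le hD y
    omega

/-- the indicator function of the orbit of `y` -/
private noncomputable def orb {Y : Type} (τ : Equiv.Perm Y) (y : Y) : Y →₀ ℕ :=
  ∑ i ∈ Finset.range (Function.minimalPeriod τ y), Finsupp.single ((τ ^ i) y) 1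

private theorem orb_sum {Y : Type} (τ : Equiv.Perm Y) (y : Y) :
    ((orb τ y).sum fun _ n => n) = Function.minimalPeriod τ y := by
  classical
  rw [orb, ← Finsupp.sum_finsetSum_index (fun _ => rfl) (fun _ _ _ => rfl)]
  simp

private theorem orb_inv {Y : Type} (τ : Equiv.Perm Y) (y : Y)
    (hc : 0 < Function.minimalPeriod τ y) (z : Y) : orb τ y (τ z) = orb τ y z := by
  classical
  have hper : (τ ^ (Function.minimalPeriod τ y)) y = y := (pow_iff τ _ y).2 dvd_rfl
  obtain ⟨c, hc'⟩ : ∃ c, Function.minimalPeriod τ y = c + 1 := ⟨_, (Nat.succ_pred_eq_of_pos hc).symm⟩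
  rw [hc'] at hper
  rw [orb, hc', Finsupp.finsetSum_apply, Finsupp.finsetSum_apply, Finset.sum_range_succ',
    Finset.sum_range_succ]
  congr 1
  · refine Finset.sum_congr rfl fun i _ => ?_
    rw [Finsupp.single_apply, Finsupp.single_apply, pow_succ', Equiv.Perm.mul_apply]
    simp only [EmbeddingLike.apply_eq_iff_eq]
  · rw [Finsupp.single_apply, Finsupp.single_apply, pow_zero, Equiv.Perm.one_apply]
    have h1 : y = τ z ↔ (τ ^ c) y = z := by
      rw [pow_succ', Equiv.Perm.mul_apply] at hper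
      constructor
      · intro h
        apply τ.injective
        rw [hper, h]
      · intro h
        rw [← h, hper]
    simp only [h1]

private theorem orb_self {Y : Type} (τ : Equiv.Perm Y) (y : Y)
    (hc : 0 < Function.minimalPeriod τ y) : orb τ y y = 1 := by
  classical
  rw [orb, Finsupp.finsetSum_apply, Finset.sum_eq_single 0]
  · simp
  · intro i hi hi0
    rw [Finset.mem_range] at hi
    rw [Finsupp.single_apply, if_neg]
    intro h
    have h1 := (pow_iff τ i y).1 h
    have h2 := Nat.le_of_dvd (by omega) h1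
    omega
  · intro h
    rw [Finset.mem_range] at h
    omega

private theorem orb_le {Y : Type} (τ : Equiv.Perm Y) (y : Y)
    (hc : 0 < Function.minimalPeriod τ y) (D : Y →₀ ℕ) (hD : ∀ z, D (τ z) = D z) (j : ℕ)
    (hj : j ≤ D y) : j • orb τ y ≤ D := by
  classical
  intro z
  rw [Finsupp.smul_apply, smul_eq_mul]
  by_cases hz : ∃ i ∈ Finset.range (Function.minimalPeriod τ y), (τ ^ i) y = z
  · obtain ⟨i, _, rfl⟩ := hz
    rw [inv_pow τ D hD, inv_pow τ (orb τ y) (orb_inv τ y hc), orb_self τ y hc, mul_one]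
    exact hj
  · have h0 : orb τ y z = 0 := by
      rw [orb, Finsupp.finsetSum_apply]
      refine Finset.sum_eq_zero fun i hi => ?_
      rw [Finsupp.single_apply, if_neg]
      intro h
      exact hz ⟨i, hi, h⟩
    rw [h0, mul_zero]
    exact Nat.zero_le _

private theorem sum_add' {Y : Type} (D E : Y →₀ ℕ) :
    ((D + E).sum fun _ n => n) = (D.sum fun _ n => n) + E.sum fun _ n => n := by
  classical
  exact Finsupp.sum_add_index' (fun _ => rfl) (fun _ _ _ => rfl)

private theorem smul_sum' {Y : Type} (D : Y →₀ ℕ) (j : ℕ) :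
    ((j • D).sum fun _ n => n) = j * D.sum fun _ n => n := by
  induction j with
  | zero => simp
  | succ n ih => rw [succ_nsmul, sum_add', ih, Nat.succ_mul]

private theorem card_ge {Y : Type} (τ : Equiv.Perm Y) (y : Y)
    (hc : 0 < Function.minimalPeriod τ y) (N j : ℕ) :
    {D | D ∈ ED τ N ∧ j ≤ D y}.ncard =
      if j * Function.minimalPeriod τ y ≤ N then (ED τ (N - j * Function.minimalPeriod τ y)).ncard
      else 0 := by
  have hle : ∀ D ∈ ED τ N, j ≤ D y → j * Function.minimalPeriod τ y ≤ N := by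
    intro D hD hj
    have h1 := orb_le τ y hc D hD.1 j hj
    obtain ⟨E, hE⟩ := le_iff_exists_add.1 h1
    have h2 := hD.2
    rw [hE, sum_add', smul_sum', orb_sum] at h2
    omega
  split_ifs with h
  · have himg : {D | D ∈ ED τ N ∧ j ≤ D y} =
        (fun D => D + j • orb τ y) '' ED τ (N - j * Function.minimalPeriod τ y) := by
      ext D
      constructor
      · rintro ⟨hD, hj⟩
        have h1 := orb_le τ y hc D hD.1 j hj
        refine ⟨D - j • orb τ y, ⟨?_, ?_⟩, tsub_add_cancel_of_le h1⟩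
        · intro z
          rw [Finsupp.tsub_apply, Finsupp.tsub_apply, hD.1, Finsupp.smul_apply, Finsupp.smul_apply,
            orb_inv τ y hc]
        · have h2 := hD.2
          have h3 : (D - j • orb τ y) + j • orb τ y = D := tsub_add_cancel_of_le h1
          rw [← h3, sum_add', smul_sum', orb_sum] at h2
          omega
      · rintro ⟨E, hE, rfl⟩
        refine ⟨⟨?_, ?_⟩, ?_⟩
        · intro z
          simp only [Finsupp.add_apply, Finsupp.smul_apply, hE.1, orb_inv τ y hc]
        · simp only [sum_add', smul_sum', orb_sum, hE.2]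
          omega
        · simp only [Finsupp.add_apply, Finsupp.smul_apply, orb_self τ y hc, smul_eq_mul, mul_one]
          omega
    rw [himg, Set.ncard_image_of_injective _ (add_left_injective _)]
  · have hempty : {D | D ∈ ED τ N ∧ j ≤ D y} = ∅ := by
      rw [Set.eq_empty_iff_forall_notMem]
      rintro D ⟨hD, hj⟩
      exact h (hle D hD hj)
    rw [hempty, Set.ncard_empty]

private theorem resum (c N : ℕ) (hc : 0 < c) (E : ℕ → ℕ) :
    (∑ j ∈ Finset.Icc 1 N, if j * c ≤ N then E (N - j * c) else 0) =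
      ∑ m ∈ Finset.Icc 1 N, if c ∣ m then E (N - m) else 0 := by
  rw [← Finset.sum_filter, ← Finset.sum_filter]
  refine Finset.sum_bij (fun j _ => j * c) ?_ ?_ ?_ ?_
  · intro j hj
    rw [Finset.mem_filter, Finset.mem_Icc] at hj ⊢
    refine ⟨⟨?_, hj.2⟩, Dvd.intro_left j rfl⟩
    have := Nat.mul_le_mul hj.1.1 (Nat.succ_le_of_lt hc)
    omega
  · intro i _ j _ h
    exact Nat.eq_of_mul_eq_mul_right hc h
  · intro m hm
    rw [Finset.mem_filter, Finset.mem_Icc] at hm
    obtain ⟨j, hj⟩ := hm.2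
    refine ⟨j, ?_, by rw [hj, mul_comm]⟩
    rw [Finset.mem_filter, Finset.mem_Icc]
    have h1 : 1 ≤ j := by
      rcases Nat.eq_zero_or_pos j with h0 | h0
      · rw [h0, mul_zero] at hj
        omega
      · exact h0
    have h2 : j * 1 ≤ j * c := Nat.mul_le_mul_left j (Nat.succ_le_of_lt hc)
    rw [mul_comm] at hj
    omega
  · intro j _
    rfl

theorem ED_rec {Y : Type} (τ : Equiv.Perm Y)
    (hfix : ∀ m : ℕ, 0 < m → {y | (τ ^ m) y = y}.Finite) (N : ℕ) :
    N * (ED τ N).ncard =
      ∑ m ∈ Finset.Icc 1 N, {y | (τ ^ m) y = y}.ncard * (ED τ (N - m)).ncard := by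
  classical
  have hfin := ED_finite τ hfix N
  set S := hfin.toFinset with hS
  set T := YN τ hfix N with hT
  have hSc : (ED τ N).ncard = S.card := Set.ncard_eq_toFinset_card _ hfin
  have hmS : ∀ D, D ∈ S ↔ D ∈ ED τ N := fun D => hfin.mem_toFinset
  have hpos : ∀ y ∈ T, 0 < Function.minimalPeriod τ y := by
    intro y hy
    rw [hT, mem_YN] at hy
    obtain ⟨m, hm, h⟩ := hy
    rw [Finset.mem_Icc] at hm
    exact Nat.pos_of_dvd_of_pos ((pow_iff τ m y).1 h) (by omega)
  -- the left side
  have h1 : N * S.card = ∑ D ∈ S, ∑ y ∈ T, D y := by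
    rw [mul_comm, ← smul_eq_mul, ← Finset.sum_const]
    refine Finset.sum_congr rfl fun D hD => ?_
    rw [hmS] at hD
    rw [← hD.2, Finsupp.sum]
    refine Finset.sum_subset ?_ ?_
    · intro y hy
      rw [hT, mem_YN]
      have h2 := supp_fix hD y (Finsupp.mem_support_iff.1 hy)
      exact h2
    · intro y _ hy
      exact Finsupp.notMem_support_iff.1 hy
  have h2 : ∀ D ∈ S, ∀ y, D y = ∑ j ∈ Finset.Icc 1 N, if j ≤ D y then 1 else 0 := by
    intro D hD y
    rw [hmS] at hD
    have h3 := val_le hD y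
    rw [← Finset.sum_filter, Finset.sum_const, smul_eq_mul, mul_one]
    have h4 : (Finset.Icc 1 N).filter (fun j => j ≤ D y) = Finset.Icc 1 (D y) := by
      ext j
      rw [Finset.mem_filter, Finset.mem_Icc, Finset.mem_Icc]
      omega
    rw [h4, Nat.card_Icc]
    omega
  have h5 : ∑ D ∈ S, ∑ y ∈ T, D y =
      ∑ y ∈ T, ∑ j ∈ Finset.Icc 1 N, {D | D ∈ ED τ N ∧ j ≤ D y}.ncard := by
    rw [Finset.sum_comm]
    refine Finset.sum_congr rfl fun y _ => ?_
    rw [Finset.sum_congr rfl (fun D hD => h2 D hD y), Finset.sum_comm]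
    refine Finset.sum_congr rfl fun j _ => ?_
    rw [← Finset.sum_filter, Finset.sum_const, smul_eq_mul, mul_one]
    have h6 : {D | D ∈ ED τ N ∧ j ≤ D y} = ((S.filter fun D => j ≤ D y : Finset (Y →₀ ℕ)) : Set _) := by
      ext D
      simp only [Finset.coe_filter, hmS]
    rw [h6, Set.ncard_coe_finset]
  -- the right side
  have h7 : ∀ m ∈ Finset.Icc 1 N, {y | (τ ^ m) y = y}.ncard =
      ∑ y ∈ T, if Function.minimalPeriod τ y ∣ m then 1 else 0 := by
    intro m hm
    rw [← Finset.sum_filter, Finset.sum_const, smul_eq_mul, mul_one]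
    have h8 : {y | (τ ^ m) y = y} =
        ((T.filter fun y => Function.minimalPeriod τ y ∣ m : Finset Y) : Set Y) := by
      ext y
      simp only [Finset.coe_filter, hT, mem_YN]
      constructor
      · intro h
        exact ⟨⟨m, hm, h⟩, (pow_iff τ m y).1 h⟩
      · intro h
        exact (pow_iff τ m y).2 h.2
    rw [h8, Set.ncard_coe_finset]
  have h9 : ∑ m ∈ Finset.Icc 1 N, {y | (τ ^ m) y = y}.ncard * (ED τ (N - m)).ncard =
      ∑ y ∈ T, ∑ m ∈ Finset.Icc 1 N,
        if Function.minimalPeriod τ y ∣ m then (ED τ (N - m)).ncard else 0 := by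
    rw [Finset.sum_comm]
    refine Finset.sum_congr rfl fun m hm => ?_
    rw [h7 m hm, Finset.sum_mul]
    refine Finset.sum_congr rfl fun y _ => ?_
    split_ifs
    · rw [one_mul]
    · rw [zero_mul]
  rw [h9, hSc, h1, h5]
  refine Finset.sum_congr rfl fun y hy => ?_
  rw [← resum _ N (hpos y hy) fun n => (ED τ n).ncard]
  exact Finset.sum_congr rfl (fun j _ => card_ge τ y (hpos y hy) N j)

theorem ED_zero {Y : Type} (τ : Equiv.Perm Y) : (ED τ 0).ncard = 1 := by
  rw [Set.ncard_eq_one]
  refine ⟨0, ?_⟩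
  ext D
  rw [Set.mem_singleton_iff]
  constructor
  · intro hD
    ext y
    have := val_le hD y
    rw [Finsupp.zero_apply]
    omega
  · rintro rfl
    exact ⟨fun _ => rfl, Finsupp.sum_zero_index⟩

end Pool.Agent.H71.AS
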