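import Mathlib

/-!
# [H71 AS ZTA] A reciprocal root which is a unit at a place over `l`

Mathlib only.  Proof.  Let `P = L.reverse`, monic in `ℤ[X]` (its leading coefficient is
`L.coeff 0 = 1`), `M` the multiset of its complex roots; all elements of `M` are in
`O = integralClosure ℤ ℂ`.  `L.map = ∏_(α∈M) (1 - α X)` (as in PWB (i)), so `L.coeff n` is, up to sign,
the `n`-th elementary symmetric function of `M` (`Multiset.esymm`;
`Polynomial.coeff_eq_esymm_roots_of_card` for `P`: `P.coeff (d - n) = (-1)^n esymm n`, and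
`L.coeff n = P.coeff (d - n)`).
`l` is not a unit of `O` (`1 / l` is not integral over `ℤ`: `IsIntegrallyClosed ℤ`), so there is a
maximal ideal `λ` of `O` with `l ∈ λ` (`Ideal.exists_le_maximal`); `λ ∩ ℤ = (l)` (it contains the
maximal ideal `(l)` and not `1`).  If all `α ∈ M` were in `λ`, then all esymm of positive degree would
be in `λ`, so `L.coeff n ∈ λ ∩ ℤ = (l)` for all `n ≥ 1`: contradiction to `hln` (for `n` larger than
the degree the coefficient is `0`, divisible by `l`).  So some `α ∈ M` is not in `λ`.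
The residue `β` of `α` in the field `O ⧸ λ` is not zero and is a root of a monic polynomial with
coefficients in the image of `ℤ`, a field with `l` elements; so the subring generated by `β` is
finite, and `β^a = β^b` for some `a < b`, hence `β^r = 1` for `r = b - a > 0`.
For this `r`: `1 - α^r ∈ λ`; if `H = ∏ (1 - α^r)` (over `M`; all factors in `O`), then `H ∈ λ`, so
`l ∣ H`.
(To work in `O`: lift `M` to a multiset `M'` of `O` with `M'.map (algebraMap O ℂ) = M`
(`Multiset.pmap`/`attach`, or `Multiset.map_subtype`), so all products are products in `O`.)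
-/

namespace Pool.Agent.H71.AS

open Polynomial

private theorem rev_facts (L : ℤ[X]) (hL0 : L.coeff 0 = 1) :
    L.reverse.Monic ∧ ∀ n, n ≤ L.natDegree → L.coeff n = L.reverse.coeff (L.natDegree - n) := by
  have htr : L.natTrailingDegree = 0 := by
    apply Polynomial.natTrailingDegree_eq_zero.mpr
    right
    rw [hL0]
    exact one_ne_zero
  refine ⟨?_, ?_⟩
  · rw [Polynomial.Monic, Polynomial.reverse_leadingCoeff, Polynomial.trailingCoeff, htr, hL0]
  · intro n hn
    rw [Polynomial.coeff_reverse, Polynomial.revAt_le (Nat.sub_le _ _)]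
    congr 1
    omega

private theorem exists_residue (l : ℕ) (hl : l.Prime) :
    ∃ (κ : Type) (_ : Field κ) (_ : CharP κ l) (_ : integralClosure ℤ ℂ →+* κ), True := by
  have hnu : ¬ IsUnit ((l : ℕ) : integralClosure ℤ ℂ) := by
    intro hu
    obtain ⟨u, hu⟩ := hu.exists_right_inv
    have h1 : ((l : ℕ) : ℂ) * (u : ℂ) = 1 := by
      have := congrArg (fun z : integralClosure ℤ ℂ => (z : ℂ)) hu
      simpa using this
    have hint : IsIntegral ℤ (u : ℂ) := u.2
    have hl0 : ((l : ℕ) : ℂ) ≠ 0 := by
      exact_mod_cast hl.ne_zero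
    have hu2 : (u : ℂ) = algebraMap ℚ ℂ ((l : ℚ)⁻¹) := by
      rw [map_inv₀, map_natCast]
      exact eq_inv_of_mul_eq_one_right h1
    rw [hu2] at hint
    have hint2 : IsIntegral ℤ ((l : ℚ)⁻¹) :=
      (isIntegral_algebraMap_iff (algebraMap ℚ ℂ).injective).mp hint
    obtain ⟨y, hy⟩ := IsIntegrallyClosed.isIntegral_iff.mp hint2
    have hlq : (l : ℚ) ≠ 0 := by exact_mod_cast hl.ne_zero
    have h2 : (y : ℚ) * (l : ℚ) = 1 := by
      have : (algebraMap ℤ ℚ y) = (y : ℚ) := by simp
      rw [this] at hy
      rw [hy, inv_mul_cancel₀ hlq]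
    have h3 : y * (l : ℤ) = 1 := by exact_mod_cast h2
    have h4 : IsUnit ((l : ℕ) : ℤ) := IsUnit.of_mul_eq_one_right y h3
    rw [Int.isUnit_iff] at h4
    have := hl.two_le
    omega
  obtain ⟨lam, hmax, hmem⟩ := exists_max_ideal_of_mem_nonunits (a := ((l : ℕ) : integralClosure ℤ ℂ)) hnu
  have hz : ((l : ℕ) : (integralClosure ℤ ℂ) ⧸ lam) = 0 := by
    have := Ideal.Quotient.eq_zero_iff_mem.mpr hmem
    rwa [map_natCast] at this
  refine ⟨(integralClosure ℤ ℂ) ⧸ lam, Ideal.Quotient.field lam, ?_, Ideal.Quotient.mk lam, trivial⟩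
  have hnt : Nontrivial ((integralClosure ℤ ℂ) ⧸ lam) := Ideal.Quotient.nontrivial_iff.mpr hmax.ne_top
  obtain ⟨q, hq⟩ := CharP.exists ((integralClosure ℤ ℂ) ⧸ lam)
  have hql : q ∣ l := (CharP.cast_eq_zero_iff _ q l).mp hz
  rcases (Nat.dvd_prime hl).mp hql with h | h
  · exact absurd h (CharP.char_ne_one ((integralClosure ℤ ℂ) ⧸ lam) q)
  · rwa [h] at hq

private theorem finite_adj {κ : Type} [Field κ] (l : ℕ) [Fact l.Prime] [Algebra (ZMod l) κ]
    (b : κ) (hint : IsIntegral (ZMod l) b) : (Set.range (fun n : ℕ => b ^ n)).Finite := by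
  have hfg := hint.fg_adjoin_singleton
  have : Module.Finite (ZMod l) (Algebra.adjoin (ZMod l) {b}) :=
    Module.Finite.of_fg hfg
  have hfin : Finite (Algebra.adjoin (ZMod l) {b}) := Module.finite_of_finite (ZMod l)
  have hfin2 : ((Algebra.adjoin (ZMod l) {b} : Subalgebra (ZMod l) κ) : Set κ).Finite :=
    Set.toFinite _
  refine hfin2.subset ?_
  rintro _ ⟨n, rfl⟩
  exact Subalgebra.pow_mem _ (Algebra.subset_adjoin (Set.mem_singleton b)) n

private theorem pow_key {κ : Type} [Field κ] (b : κ) (hb : b ≠ 0) (i j : ℕ) (hij : i < j)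
    (h : b ^ i = b ^ j) : ∃ r : ℕ, 0 < r ∧ b ^ r = 1 := by
  refine ⟨j - i, by omega, ?_⟩
  have h1 : b ^ i * b ^ (j - i) = b ^ i * 1 := by
    rw [← pow_add, mul_one, h]
    congr 1
    omega
  exact mul_left_cancel₀ (pow_ne_zero i hb) h1

private theorem exists_pow_eq_one {κ : Type} [Field κ] (l : ℕ) (hl : l.Prime) [CharP κ l]
    (P : ℤ[X]) (hP : P.Monic) (b : κ) (hb : b ≠ 0) (hroot : P.eval₂ (Int.castRingHom κ) b = 0) :
    ∃ r : ℕ, 0 < r ∧ b ^ r = 1 := by
  have hfl : Fact l.Prime := ⟨hl⟩
  have hfin : (Set.range (fun n : ℕ => b ^ n)).Finite := by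
    letI : Algebra (ZMod l) κ := ZMod.algebra κ l
    apply finite_adj l b
    refine ⟨P.map (Int.castRingHom (ZMod l)), hP.map _, ?_⟩
    rw [Polynomial.eval₂_map]
    have : (algebraMap (ZMod l) κ).comp (Int.castRingHom (ZMod l)) = Int.castRingHom κ :=
      RingHom.ext_int _ _
    rw [this, hroot]
  have hninj : ¬ Function.Injective (fun n : ℕ => b ^ n) := by
    intro hinj
    exact Set.infinite_range_of_injective hinj hfin
  rw [Function.Injective] at hninj
  push Not at hninj
  obtain ⟨i, j, hpow, hij⟩ := hninj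
  rcases lt_or_gt_of_ne hij with h | h
  · exact pow_key b hb i j h hpow
  · exact pow_key b hb j i h hpow.symm

theorem zta (L : ℤ[X]) (hL0 : L.coeff 0 = 1) (l : ℕ) (hl : l.Prime) (n : ℕ) (hn : 0 < n)
    (hln : ¬ (l : ℤ) ∣ L.coeff n) : ∃ r : ℕ, 0 < r ∧ ∀ H : ℤ,
      (H : ℂ) = (((L.reverse.map (Int.castRingHom ℂ)).roots).map (fun α => 1 - α ^ r)).prod →
        (l : ℤ) ∣ H := by
  obtain ⟨hmon, hcoef⟩ := rev_facts L hL0
  obtain ⟨κ, hκf, hκc, π, -⟩ := exists_residue l hl
  set P := L.reverse with hP
  set M := (P.map (Int.castRingHom ℂ)).roots with hM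
  have hmonC : (P.map (Int.castRingHom ℂ)).Monic := hmon.map _
  have hsplit : (P.map (Int.castRingHom ℂ)).Splits := IsAlgClosed.splits _
  have hprodC : P.map (Int.castRingHom ℂ) = (M.map (fun a => X - C a)).prod := by
    rw [hM]
    exact (hsplit.eq_prod_roots_of_monic hmonC)
  -- integrality of the roots
  have hint : ∀ a ∈ M, IsIntegral ℤ a := by
    intro a ha
    refine ⟨P, hmon, ?_⟩
    have h1 := (Polynomial.mem_roots hmonC.ne_zero).mp ha
    rw [Polynomial.IsRoot, Polynomial.eval_map] at h1
    exact h1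
  -- the multiset in O
  set M' : Multiset (integralClosure ℤ ℂ) := M.attach.map (fun x => ⟨x.1, hint x.1 x.2⟩) with hM'
  have hMM : M'.map (fun z : integralClosure ℤ ℂ => (z : ℂ)) = M := by
    rw [hM', Multiset.map_map]
    exact Multiset.attach_map_val M
  have hinj : Function.Injective (algebraMap (integralClosure ℤ ℂ) ℂ) :=
    Subtype.val_injective
  have hprodO : P.map (Int.castRingHom (integralClosure ℤ ℂ)) =
      (M'.map (fun a => X - C a)).prod := by
    apply Polynomial.map_injective (algebraMap (integralClosure ℤ ℂ) ℂ) hinj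
    rw [Polynomial.map_map]
    have hcomp : (algebraMap (integralClosure ℤ ℂ) ℂ).comp
        (Int.castRingHom (integralClosure ℤ ℂ)) = Int.castRingHom ℂ := RingHom.ext_int _ _
    rw [hcomp, hprodC, Polynomial.map_multiset_prod, Multiset.map_map, ← hMM, Multiset.map_map]
    congr 1
    apply Multiset.map_congr rfl
    intro a _
    simp
  -- the residue field
  have hprodκ : P.map (Int.castRingHom κ) = (M'.map (fun a => X - C (π a))).prod := by
    have hcomp : π.comp (Int.castRingHom (integralClosure ℤ ℂ)) = Int.castRingHom κ :=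
      RingHom.ext_int _ _
    rw [← hcomp, ← Polynomial.map_map, hprodO, Polynomial.map_multiset_prod, Multiset.map_map]
    congr 1
    apply Multiset.map_congr rfl
    intro a _
    simp
  have hdvd : ∀ z : ℤ, (z : κ) = 0 → (l : ℤ) ∣ z := fun z hz => (CharP.intCast_eq_zero_iff κ l z).mp hz
  -- some residue is not zero
  have hex : ∃ a ∈ M', π a ≠ 0 := by
    by_contra hcon
    push Not at hcon
    apply hln
    have hn' : n ≤ L.natDegree := by
      by_contra hlt
      push Not at hlt
      apply hln
      rw [Polynomial.coeff_eq_zero_of_natDegree_lt hlt]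
      exact dvd_zero _
    apply hdvd
    have h1 : P.map (Int.castRingHom κ) = X ^ (Multiset.card M') := by
      rw [hprodκ]
      have : M'.map (fun a => (X : κ[X]) - C (π a)) = M'.map (fun _ => (X : κ[X])) := by
        apply Multiset.map_congr rfl
        intro a ha
        rw [hcon a ha, C_0, sub_zero]
      rw [this, Multiset.map_const', Multiset.prod_replicate]
    have hcard : Multiset.card M' = L.natDegree := by
      have h2 : Multiset.card M' = Multiset.card M := by
        rw [hM', Multiset.card_map, Multiset.card_attach]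
      rw [h2, hM]
      have h3 : Multiset.card (P.map (Int.castRingHom ℂ)).roots =
          (P.map (Int.castRingHom ℂ)).natDegree := hsplit.natDegree_eq_card_roots.symm
      rw [h3, hmon.natDegree_map, hP, Polynomial.reverse_natDegree]
      have htr : L.natTrailingDegree = 0 := by
        apply Polynomial.natTrailingDegree_eq_zero.mpr
        right
        rw [hL0]
        exact one_ne_zero
      rw [htr, Nat.sub_zero]
    rw [hcoef n hn']
    have h4 : ((P.coeff (L.natDegree - n) : ℤ) : κ) =
        (P.map (Int.castRingHom κ)).coeff (L.natDegree - n) := by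
      rw [Polynomial.coeff_map]
      simp
    rw [h4, h1, hcard, Polynomial.coeff_X_pow]
    rw [if_neg]
    omega
  obtain ⟨a, haM, ha0⟩ := hex
  have hroot : P.eval₂ (Int.castRingHom κ) (π a) = 0 := by
    rw [← Polynomial.eval_map, hprodκ, Polynomial.eval_multiset_prod, Multiset.map_map]
    apply Multiset.prod_eq_zero
    rw [Multiset.mem_map]
    exact ⟨a, haM, by simp⟩
  obtain ⟨r, hr, har⟩ := exists_pow_eq_one l hl P hmon (π a) ha0 hroot
  refine ⟨r, hr, fun H hH => ?_⟩
  apply hdvd
  have hHO : ((H : ℤ) : integralClosure ℤ ℂ) = (M'.map (fun a => 1 - a ^ r)).prod := by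
    apply hinj
    rw [map_intCast, hH, map_multiset_prod, Multiset.map_map, ← hMM, Multiset.map_map]
    congr 1
  have hHκ : ((H : ℤ) : κ) = (M'.map (fun a => 1 - (π a) ^ r)).prod := by
    have := congrArg π hHO
    rw [map_intCast, map_multiset_prod, Multiset.map_map] at this
    rw [this]
    congr 1
    apply Multiset.map_congr rfl
    intro a _
    simp
  rw [hHκ]
  apply Multiset.prod_eq_zero
  rw [Multiset.mem_map]
  exact ⟨a, haM, by rw [har, sub_self]⟩

end Pool.Agent.H71.AS
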