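import Pool.Agent.H71.AS.Pwa
import Pool.Agent.H71.AS.Pwb
import Pool.Agent.H71.AS.Zta
import Pool.Agent.H71.AS.Rec

/-!
# [H71 AS ZTB] Some number `h r` is divisible by `l`

Proof.  `E r N = (ED (τ^r) N).ncard`, `F m = {y | (τ^m) y = y}.ncard`; `hrec` of PWB for `r` is
`ED_rec` for `τ^r` (`(τ^r)^m = τ^(r m)`), `E r 0 = 1` is `ED_zero`.  PWA with `Q = q^r` gives `L r`
(choose), with `(L r).eval 1 = h r`.
Case 1: some `n ≥ 1` has `l ∤ (L 1).coeff n`: ZTA gives `r`, PWB gives the product formula for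
`H = (L r).eval 1 = h r`.
Case 2: `l ∣ (L 1).coeff n` for all `n ≥ 1`.  Then `h 1 = (L 1).eval 1 ≡ 1` modulo `l`
(`Polynomial.eval_eq_sum_range`).  Comparing coefficients in `hL` for `r = 1`, with `q ≡ 1`:
`E 0 = 1`, `E 1 ≡ (1+q) ≡ 2`, `E N ≡ (1+q) E (N-1) - q E (N-2) ≡ 2 E (N-1) - E (N-2)`, so
`E 1 N ≡ N + 1` modulo `l` for all `N` (work in `ZMod l`).  For large `N`:
`(q-1) E 1 N = h 1 (q^(N+1-g) - 1) = h 1 (q-1) (1 + q + .. + q^(N-g))`, so
`E 1 N = h 1 (1 + .. + q^(N-g)) ≡ N + 1 - g` (`Nat.geomSum_eq` or `Commute.geom_sum`).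
So `g ≡ 0` modulo `l`: contradiction to `hlg`.
-/

namespace Pool.Agent.H71.AS

theorem zt {Y : Type} (τ : Equiv.Perm Y)
    (hfix : ∀ m : ℕ, 0 < m → {y | (τ ^ m) y = y}.Finite) (q g l : ℕ) (hq : 1 < q)
    (hl : l.Prime) (hql : q ≡ 1 [MOD l]) (hlg : ¬ l ∣ g) (h : ℕ → ℕ)
    (hRR : ∀ r : ℕ, 0 < r → ∃ N0, g ≤ N0 ∧ ∀ N, N0 ≤ N →
      (q ^ r - 1) * (ED (τ ^ r) N).ncard = h r * ((q ^ r) ^ (N + 1 - g) - 1)) :
    ∃ r : ℕ, 0 < r ∧ l ∣ h r := by
  classical
  let E : ℕ → ℕ → ℕ := fun r N => (ED (τ ^ r) N).ncard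
  let F : ℕ → ℕ := fun m => {y | (τ ^ m) y = y}.ncard
  have hrec : ∀ r, 0 < r → ∀ N, N * E r N =
      ∑ m ∈ Finset.Icc 1 N, F (r * m) * E r (N - m) := by
    intro r hr N
    have h1 := ED_rec (τ ^ r) (fun m hm => by
      rw [← pow_mul]
      exact hfix (r * m) (Nat.mul_pos hr hm)) N
    simp only [← pow_mul] at h1
    exact h1
  have hE0 : ∀ r, 0 < r → E r 0 = 1 := fun r _ => ED_zero (τ ^ r)
  have hex : ∀ r, 0 < r → ∃ L : Polynomial ℤ, L.coeff 0 = 1 ∧ L.eval 1 = (h r : ℤ) ∧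
      (L : PowerSeries ℤ) = (1 - PowerSeries.X) *
        (1 - PowerSeries.C (((q ^ r : ℕ) : ℤ)) * PowerSeries.X) *
        PowerSeries.mk (fun N => (E r N : ℤ)) := by
    intro r hr
    obtain ⟨N0, hg, hN⟩ := hRR r hr
    exact pwa (q ^ r) (Nat.one_lt_pow hr.ne' hq) g (h r) (E r) (hE0 r hr) N0 hg hN
  choose! L hL0 hL1 hL using hex
  by_cases hc : ∃ n, 0 < n ∧ ¬ (l : ℤ) ∣ (L 1).coeff n
  · obtain ⟨n, hn, hln⟩ := hc
    obtain ⟨r, hr, hH⟩ := zta (L 1) (hL0 1 one_pos) l hl n hn hln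
    refine ⟨r, hr, ?_⟩
    have h1 := hH ((L r).eval 1) (pwb q F E hE0 hrec L hL0 (fun r hr => by
      rw [hL r hr]
      push_cast
      rfl) r hr)
    rw [hL1 r hr] at h1
    exact Int.natCast_dvd_natCast.1 h1
  · exfalso
    push Not at hc
    have hlf : Fact l.Prime := ⟨hl⟩
    have hq1 : (q : ZMod l) = 1 := by
      have := (ZMod.natCast_eq_natCast_iff q 1 l).2 hql
      rw [this, Nat.cast_one]
    have hP : (L 1).map (Int.castRingHom (ZMod l)) = 1 := by
      ext n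
      rw [Polynomial.coeff_map, Polynomial.coeff_one]
      by_cases hn : n = 0
      · rw [if_pos hn, hn, hL0 1 one_pos, map_one]
      · rw [if_neg hn, eq_intCast]
        exact (ZMod.intCast_zmod_eq_zero_iff_dvd _ _).2 (hc n (Nat.pos_of_ne_zero hn))
    have hh : (h 1 : ZMod l) = 1 := by
      have h1 := Polynomial.eval_one_map (Int.castRingHom (ZMod l)) (L 1)
      rw [hP, Polynomial.eval_one, hL1 1 one_pos, eq_intCast, Int.cast_natCast] at h1
      exact h1.symm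
    have hZ : (PowerSeries.mk (fun N => (E 1 N : ZMod l)) : PowerSeries (ZMod l)) =
        PowerSeries.mk (fun N => ((N + 1 : ℕ) : ZMod l)) := by
      have h1 := congrArg (PowerSeries.map (Int.castRingHom (ZMod l))) (hL 1 one_pos)
      have h2 : PowerSeries.map (Int.castRingHom (ZMod l)) ((L 1 : Polynomial ℤ) : PowerSeries ℤ) = 1 := by
        rw [← Polynomial.polynomial_map_coe, hP, Polynomial.coe_one]
      have h3 : PowerSeries.map (Int.castRingHom (ZMod l)) (PowerSeries.mk (fun N => (E 1 N : ℤ))) =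
          PowerSeries.mk (fun N => (E 1 N : ZMod l)) := by
        ext N
        rw [PowerSeries.coeff_map, PowerSeries.coeff_mk, PowerSeries.coeff_mk, eq_intCast,
          Int.cast_natCast]
      rw [h2, map_mul, map_mul, h3, map_sub, map_sub, map_mul, map_one, PowerSeries.map_X,
        PowerSeries.map_C, eq_intCast, Int.cast_natCast, pow_one, hq1, map_one, one_mul,
        ← pow_two] at h1
      have h4 := (PowerSeries.invOneSubPow (ZMod l) 2).val_inv
      rw [PowerSeries.invOneSubPow_inv_eq_one_sub_pow] at h4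
      have h5 : (PowerSeries.mk (fun N => (E 1 N : ZMod l)) : PowerSeries (ZMod l)) =
          (PowerSeries.invOneSubPow (ZMod l) 2).val := by
        calc (PowerSeries.mk (fun N => (E 1 N : ZMod l)) : PowerSeries (ZMod l))
            = (PowerSeries.invOneSubPow (ZMod l) 2).val * (1 - PowerSeries.X) ^ 2 *
              PowerSeries.mk (fun N => (E 1 N : ZMod l)) := by rw [h4, one_mul]
          _ = (PowerSeries.invOneSubPow (ZMod l) 2).val := by rw [mul_assoc, ← h1, mul_one]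
      rw [h5, PowerSeries.invOneSubPow_val_succ_eq_mk_add_choose]
      ext N
      rw [PowerSeries.coeff_mk, PowerSeries.coeff_mk, Nat.choose_one_right, add_comm]
    obtain ⟨N0, hg, hN⟩ := hRR 1 one_pos
    have h1 := hN N0 le_rfl
    rw [pow_one, pow_one] at h1
    have h2 : ((E 1 N0 : ℕ) : ZMod l) = ((N0 + 1 : ℕ) : ZMod l) := by
      have := congrArg (PowerSeries.coeff N0) hZ
      rw [PowerSeries.coeff_mk, PowerSeries.coeff_mk] at this
      exact this
    have h3 : (E 1 N0 : ℤ) = (h 1 : ℤ) * ∑ i ∈ Finset.range (N0 + 1 - g), (q : ℤ) ^ i := by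
      have h4 : ((q : ℤ) - 1) * (E 1 N0 : ℤ) = (h 1 : ℤ) * ((q : ℤ) ^ (N0 + 1 - g) - 1) := by
        have h5 : (((q - 1) * (ED τ N0).ncard : ℕ) : ℤ) = ((h 1 * (q ^ (N0 + 1 - g) - 1) : ℕ) : ℤ) := by
          rw [h1]
        have h6 : 1 ≤ q ^ (N0 + 1 - g) := Nat.one_le_pow _ _ (by omega)
        push_cast [Nat.cast_sub hq.le, Nat.cast_sub h6] at h5
        have h7 : E 1 N0 = (ED τ N0).ncard := by
          simp only [E]
          rw [pow_one]
        rw [h7]
        exact h5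
      have h5 : ((q : ℤ) - 1) ≠ 0 := by
        have : (1 : ℤ) < q := by exact_mod_cast hq
        omega
      apply mul_left_cancel₀ h5
      rw [h4, ← mul_geom_sum]
      ring
    have h4 : ((E 1 N0 : ℕ) : ZMod l) = ((N0 + 1 - g : ℕ) : ZMod l) := by
      have h5 := congrArg (Int.cast : ℤ → ZMod l) h3
      push_cast at h5
      rw [hh, hq1] at h5
      simp only [one_pow, Finset.sum_const, Finset.card_range, nsmul_eq_mul, mul_one, one_mul] at h5
      exact h5
    rw [h2, Nat.cast_sub (by omega)] at h4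
    have h5 : (g : ZMod l) = 0 := by
      have h6 : (((N0 + 1 : ℕ) : ZMod l)) - g = ((N0 + 1 : ℕ) : ZMod l) := h4.symm
      exact sub_eq_self.1 h6
    exact hlg ((ZMod.natCast_eq_zero_iff g l).1 h5)

end Pool.Agent.H71.AS
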