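import Pool.Agent.H71.AS.Cnt
import Pool.Agent.H71.AS.Ztb

/-!
# [H71 AS FIN] Existence of an ideal class of order `l` over the algebraic closure of `F_p`

The assembly of chapters A and B.
-/

namespace Pool.Agent.H71.AS

open Pool.H93.OP

variable {k R : Type} [Field k] [CommRing R] [IsDomain R] [Algebra k R] {dg : R → ℕ}

theorem exists_class [IsAlgClosed k] [IsDedekindDomain R] (h : OnePt k dg) (p : ℕ)
    [Fact p.Prime] [CharP k p] (e : ℕ) (he : 0 < e) (F : Fr k dg (p ^ e)) (l : ℕ)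
    (hl : l.Prime) (hlp : l ≠ p) (hg : ¬ l ∣ (Gaps dg).ncard) :
    ∃ I : Ideal R, I ≠ ⊥ ∧ ¬ I.IsPrincipal ∧ (I ^ l).IsPrincipal := by
  have hp : p.Prime := Fact.out
  -- statements for Frobenius automorphisms with `Q = p ^ e` up to equality
  have hcount : ∀ (Q : ℕ) (F : Fr k dg Q) (e : ℕ), 0 < e → Q = p ^ e → ∀ N,
      3 * gen dg ≤ N + 1 →
      (Q - 1) * (invId F N).ncard = Nat.card (invCls F) * (Q ^ (N + 1 - gen dg) - 1) := by
    rintro Q F e he rfl N hN
    exact count h p e he F hN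
  have hfin : ∀ (Q : ℕ) (F : Fr k dg Q) (e : ℕ), 0 < e → Q = p ^ e → Finite (invCls F) := by
    rintro Q F e he rfl
    exact invCls_finite h p e he F
  have hmem : ∀ (Q : ℕ) (F : Fr k dg Q) (e : ℕ), 0 < e → Q = p ^ e → ∀ c : ClassGroup R,
      c ∈ invCls F → ∃ (I : Ideal R) (hI : I ≠ ⊥), Inv F I ∧
        ClassGroup.mk0 ⟨I, mem_nonZeroDivisors_of_ne_zero hI⟩ = c := by
    rintro Q F e he rfl c hc
    exact (mem_invCls h p e he F c).mp hc
  have hfp : ∀ (Q : ℕ) (F : Fr k dg Q) (e : ℕ), 0 < e → Q = p ^ e → ∀ m : ℕ, 0 < m →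
      {v | (hperm F.s ^ m) v = v}.Finite := by
    rintro Q F e he rfl m hm
    exact fixed_pow_finite h p e he F m hm
  -- the power of Frobenius with `q ≡ 1` modulo `l`
  set F1 : Fr k dg ((p ^ e) ^ (l - 1)) := F.pow (l - 1) with hF1
  set q : ℕ := (p ^ e) ^ (l - 1) with hq
  have hl1 : 0 < l - 1 := by have := hl.two_le; omega
  have hqp : q = p ^ (e * (l - 1)) := by rw [hq, pow_mul]
  have he1 : 0 < e * (l - 1) := Nat.mul_pos he hl1
  have hq1 : 1 < q := by
    rw [hqp]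
    exact Nat.one_lt_pow he1.ne' hp.one_lt
  have hql : q ≡ 1 [MOD l] := by
    have hcop : Nat.Coprime (p ^ e) l :=
      Nat.Coprime.pow_left _ ((Nat.coprime_primes hp hl).mpr (Ne.symm hlp))
    have := Nat.ModEq.pow_totient hcop
    rwa [Nat.totient_prime hl] at this
  have hqr : ∀ r : ℕ, q ^ r = p ^ (e * (l - 1) * r) := by
    intro r
    rw [hqp, ← pow_mul]
  set τ : Equiv.Perm (Option (IsDedekindDomain.HeightOneSpectrum R)) :=
    Equiv.optionCongr (hperm F1.s) with hτ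
  have hfix : ∀ m : ℕ, 0 < m → {y | (τ ^ m) y = y}.Finite := fun m hm =>
    opt_fix (hperm F1.s) (fun m hm => hfp q F1 _ he1 hqp m hm) m hm
  obtain ⟨r, hr, hlr⟩ := zt τ hfix q (gen dg) l hq1 hl hql hg
    (fun r => Nat.card (invCls (F1.pow r))) (by
      intro r hr
      refine ⟨3 * gen dg, by omega, fun N hN => ?_⟩
      have hc := hcount (q ^ r) (F1.pow r) (e * (l - 1) * r) (Nat.mul_pos he1 hr) (hqr r) N
        (by omega)
      rw [← hc]
      congr 1
      have hτr : τ ^ r = Equiv.optionCongr (hperm (F1.pow r).s) := by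
        rw [hτ, opt_pow, Fr.pow_s, hperm_pow]
      rw [hτr]
      obtain ⟨f, hf⟩ := ide h (F1.pow r) N
      rw [← hf.image_eq, Set.ncard_image_of_injOn hf.injOn])
  have hfinr := hfin (q ^ r) (F1.pow r) (e * (l - 1) * r) (Nat.mul_pos he1 hr) (hqr r)
  haveI : Fact l.Prime := ⟨hl⟩
  obtain ⟨⟨c, hc⟩, hord⟩ := exists_prime_orderOf_dvd_card' (G := invCls (F1.pow r)) l hlr
  obtain ⟨I, hI, -, hIc⟩ := hmem (q ^ r) (F1.pow r) (e * (l - 1) * r) (Nat.mul_pos he1 hr)
    (hqr r) c hc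
  have hordc : orderOf c = l := by
    rw [← hord, ← Subgroup.orderOf_coe]
  refine ⟨I, hI, ?_, ?_⟩
  · intro hprin
    have h1 : ClassGroup.mk0 ⟨I, mem_nonZeroDivisors_of_ne_zero hI⟩ = 1 :=
      (ClassGroup.mk0_eq_one_iff _).mpr hprin
    rw [hIc] at h1
    rw [h1, orderOf_one] at hordc
    exact hl.one_lt.ne hordc
  · have h1 : ClassGroup.mk0 (⟨I, mem_nonZeroDivisors_of_ne_zero hI⟩ ^ l :
        nonZeroDivisors (Ideal R)) = 1 := by
      rw [map_pow, hIc, ← hordc, pow_orderOf_eq_one]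
    exact (ClassGroup.mk0_eq_one_iff _).mp h1

end Pool.Agent.H71.AS
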