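import Pool.Agent.H71.AS.Rie

/-!
# [H71 AS NOE] `R` is noetherian of dimension at most one

Proof.  `noeth`: let `I` be an ideal.  If `I = ⊥` it is finitely generated.  Otherwise let
`0 ≠ a ∈ I`.  `R ⧸ (a)` is a finite dimensional vector space (`quo_finite`), hence a noetherian
`k`-module, so the image of `I` in it is spanned over `k` by finitely many classes of elements
`b_1, .., b_n ∈ I`; then `I = (a, b_1, .., b_n)`.  (Or: `R ⧸ (a)` is a noetherian ring,
`isNoetherian_of_tower`, and use `Submodule.fg_of_fg_map_of_fg_inf_ker`.)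
`dimLE`: let `P ≠ ⊥` be prime.  `R ⧸ P` is a domain and a finite dimensional `k`-algebra
(`quot_finite`), so it is a field (`IsArtinianRing.isField_of_isDomain`, or
`Algebra.IsIntegral` + `isField_of_isIntegral_of_isField'`).
-/

namespace Pool.Agent.H71.AS

open Pool.H93.OP

variable {k R : Type} [Field k] [CommRing R] [IsDomain R] [Algebra k R] {dg : R → ℕ}


theorem noeth (h : OnePt k dg) : IsNoetherianRing R := by
  refine ⟨fun I => ?_⟩
  by_cases hI : I = ⊥
  · rw [hI]
    exact Submodule.fg_bot
  · obtain ⟨a, ha, ha0⟩ := Submodule.exists_mem_ne_zero_of_ne_bot hI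
    have hfin : Module.Finite k (R ⧸ Ideal.span {a}) :=
      quot_finite h _ (by
        intro hb
        apply ha0
        have h1 : a ∈ Ideal.span {a} := Ideal.mem_span_singleton_self a
        rw [hb] at h1
        exact h1)
    have hN : IsNoetherian R (R ⧸ Ideal.span {a}) := by
      have h1 : IsNoetherian k (R ⧸ Ideal.span {a}) := inferInstance
      exact isNoetherian_of_tower k h1
    refine Submodule.fg_of_fg_map_of_fg_inf_ker (Submodule.mkQ (Ideal.span {a})) ?_ ?_
    · exact IsNoetherian.noetherian _
    · rw [Submodule.ker_mkQ, inf_eq_right.mpr ((Ideal.span_singleton_le_iff_mem I).mpr ha)]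
      exact ⟨{a}, by simp [Ideal.span]⟩

theorem dimLE (h : OnePt k dg) : Ring.DimensionLEOne R := by
  refine ⟨fun {P} hP hp => ?_⟩
  have hfin : Module.Finite k (R ⧸ P) := quot_finite h P hP
  have hdom : IsDomain (R ⧸ P) := Ideal.Quotient.isDomain P
  exact Ideal.Quotient.maximal_of_isField P
    (isField_of_isIntegral_of_isField' (Field.toIsField k))

end Pool.Agent.H71.AS
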