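import Mathlib
import Pool.Agent.H93.OP.Defs

/-!
# One point rings: definitions (helper71, module DEF of H71/AS)

`OnePt k dg` (helper93) is a degree on the `k`-algebra `R`.  All statements of the folder `H71/AS`
are about such a pair `(R, dg)`.
-/

namespace Pool.Agent.H71.AS

open Pool.H93.OP

section

variable {k R : Type} [Field k] [CommRing R] [IsDomain R] [Algebra k R] {dg : R → ℕ}

theorem dg_one (h : OnePt k dg) : dg 1 = 0 := by
  have h := h.mul 1 1 one_ne_zero one_ne_zero
  rw [mul_one] at h
  omega

theorem dg_algebraMap (h : OnePt k dg) (c : k) : dg (algebraMap k R c) = 0 := by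
  by_cases hc : c = 0
  · rw [hc, map_zero]
    exact h.zero
  · rw [Algebra.algebraMap_eq_smul_one, h.smul c 1 hc, dg_one h]

theorem dg_smul_le (h : OnePt k dg) (c : k) (a : R) : dg (c • a) ≤ dg a := by
  by_cases hc : c = 0
  · rw [hc, zero_smul, h.zero]
    exact Nat.zero_le _
  · rw [h.smul c a hc]

theorem dg_neg (h : OnePt k dg) (a : R) : dg (-a) = dg a := by
  have h := h.smul (-1) a (neg_ne_zero.mpr one_ne_zero)
  rwa [neg_smul, one_smul] at h

theorem dg_sub (h : OnePt k dg) (a b : R) : dg (a - b) ≤ max (dg a) (dg b) := by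
  rw [sub_eq_add_neg]
  have h1 := h.add a (-b)
  rwa [dg_neg h] at h1

/-- Elements of degree zero are constants. -/
theorem exists_const (h : OnePt k dg) (a : R) (ha : dg a = 0) :
    ∃ c : k, a = algebraMap k R c := by
  by_cases h0 : a = 0
  · exact ⟨0, by rw [h0, map_zero]⟩
  · obtain ⟨c, hc⟩ := h.lead a 1 h0 one_ne_zero (by rw [ha, dg_one h])
    rcases hc with hc | hc
    · exact ⟨c, by rw [hc, Algebra.smul_def, mul_one]⟩
    · rw [dg_one h] at hc
      exact absurd hc (Nat.not_lt_zero _)

/-- The space of the elements of degree at most `D`. -/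
def le (h : OnePt k dg) (D : ℕ) : Submodule k R where
  carrier := {a | dg a ≤ D}
  zero_mem' := by
    show dg 0 ≤ D
    rw [h.zero]
    exact Nat.zero_le _
  add_mem' := by
    intro a b ha hb
    exact le_trans (h.add a b) (max_le ha hb)
  smul_mem' := by
    intro c a ha
    exact le_trans (dg_smul_le h c a) ha

theorem mem_le (h : OnePt k dg) (D : ℕ) (a : R) : a ∈ le h D ↔ dg a ≤ D := Iff.rfl

end

/-- The genus: the number of gaps. -/
noncomputable def gen {R : Type} [CommRing R] (dg : R → ℕ) : ℕ := (Gaps dg).ncard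

/-- The degree of an ideal: the dimension of the quotient. -/
noncomputable def ideg (k : Type) {R : Type} [Field k] [CommRing R] [Algebra k R]
    (I : Ideal R) : ℕ := Module.finrank k (R ⧸ I)

/-- An ideal as a subspace. -/
def Id (k : Type) {R : Type} [Field k] [CommRing R] [Algebra k R] (I : Ideal R) :
    Submodule k R := Submodule.restrictScalars k I

theorem mem_Id (k : Type) {R : Type} [Field k] [CommRing R] [Algebra k R] (I : Ideal R) (a : R) :
    a ∈ Id k I ↔ a ∈ I := Iff.rfl

/-- A semilinear Frobenius automorphism of `(R, dg)`. -/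
structure Fr (k : Type) {R : Type} [Field k] [CommRing R] [Algebra k R] (dg : R → ℕ)
    (Q : ℕ) where
  /-- the automorphism -/
  s : R ≃+* R
  semi : ∀ (c : k) (a : R), s (c • a) = c ^ Q • s a
  pres : ∀ a : R, dg (s a) = dg a

section

variable {k R : Type} [Field k] [CommRing R] [Algebra k R] {dg : R → ℕ} {Q : ℕ}

/-- Powers of the Frobenius automorphism. -/
def Fr.pow (F : Fr k dg Q) (r : ℕ) : Fr k dg (Q ^ r) where
  s := F.s ^ r
  semi := by
    induction r with
    | zero => intro c a; simp
    | succ n ih =>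
      intro c a
      rw [pow_succ', RingAut.mul_apply, ih, RingAut.mul_apply, F.semi, ← pow_mul, ← pow_succ]
  pres := by
    induction r with
    | zero => intro a; simp
    | succ n ih =>
      intro a
      rw [pow_succ', RingAut.mul_apply, F.pres, ih]

theorem Fr.pow_s (F : Fr k dg Q) (r : ℕ) : (F.pow r).s = F.s ^ r := rfl

/-- Ideals which are stable under the Frobenius automorphism. -/
def Inv (F : Fr k dg Q) (I : Ideal R) : Prop := ∀ a : R, F.s a ∈ I ↔ a ∈ I

/-- The stable nonzero ideals of degree at most `N`. -/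
def invId (F : Fr k dg Q) (N : ℕ) : Set (Ideal R) := {I | I ≠ ⊥ ∧ Inv F I ∧ ideg k I ≤ N}

/-- The group of ideal classes generated by the stable ideals. -/
noncomputable def invCls [IsDedekindDomain R] (F : Fr k dg Q) :
    Subgroup (ClassGroup R) :=
  Subgroup.closure {c | ∃ (I : Ideal R) (hI : I ≠ ⊥), Inv F I ∧
    ClassGroup.mk0 ⟨I, mem_nonZeroDivisors_of_ne_zero hI⟩ = c}

end

/-- The permutation of the nonzero primes defined by an automorphism. -/
noncomputable def hperm {R : Type} [CommRing R] (s : R ≃+* R) :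
    Equiv.Perm (IsDedekindDomain.HeightOneSpectrum R) where
  toFun v := ⟨v.asIdeal.comap (s.symm : R →+* R), v.asIdeal.comap_isPrime (s.symm : R →+* R), by
    intro hb
    apply v.ne_bot
    rw [eq_bot_iff]
    intro a ha
    have h : s a ∈ v.asIdeal.comap (s.symm : R →+* R) := by
      rw [Ideal.mem_comap]
      simpa using ha
    rw [hb, Ideal.mem_bot, map_eq_zero_iff s s.injective] at h
    exact h⟩
  invFun v := ⟨v.asIdeal.comap (s : R →+* R), v.asIdeal.comap_isPrime (s : R →+* R), by
    intro hb
    apply v.ne_bot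
    rw [eq_bot_iff]
    intro a ha
    have h : s.symm a ∈ v.asIdeal.comap (s : R →+* R) := by
      rw [Ideal.mem_comap]
      simpa using ha
    rw [hb, Ideal.mem_bot, map_eq_zero_iff s.symm s.symm.injective] at h
    exact h⟩
  left_inv v := by
    ext a
    show s.symm (s a) ∈ v.asIdeal ↔ a ∈ v.asIdeal
    rw [RingEquiv.symm_apply_apply]
  right_inv v := by
    ext a
    show s (s.symm a) ∈ v.asIdeal ↔ a ∈ v.asIdeal
    rw [RingEquiv.apply_symm_apply]

theorem mem_hperm {R : Type} [CommRing R] (s : R ≃+* R)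
    (v : IsDedekindDomain.HeightOneSpectrum R) (a : R) :
    a ∈ (hperm s v).asIdeal ↔ s.symm a ∈ v.asIdeal := Iff.rfl

/-- Invariant finitely supported functions of total degree `N`. -/
def ED {Y : Type} (τ : Equiv.Perm Y) (N : ℕ) : Set (Y →₀ ℕ) :=
  {D | (∀ y, D (τ y) = D y) ∧ D.sum (fun _ n => n) = N}

end Pool.Agent.H71.AS
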