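import Pool.Agent.H71.AS.Defs

/-!
# [H71 AS BAS] Dimensions of the spaces `R_{≤ D}` and the bound for gaps

Proof.  (1) `le h 0` consists of the constants (`exists_const`), so it has dimension `1`
(the map `k → R` is injective), and `0` is not a gap (`dg 1 = 0`).
(2) Step `D → D + 1`.  If `D + 1` is a gap then `le h (D+1) = le h D` (an element `a ≠ 0` has
`dg a ≠ D + 1`).  If `D + 1` is not a gap, choose `b ≠ 0` with `dg b = D + 1`.  By `lead` every `a`
with `dg a = D + 1` is `c • b` plus an element of degree `< D + 1`; so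
`le h (D+1) = le h D ⊔ span k {b}` and `b ∉ le h D`, hence `finrank` grows by exactly one
(`finrank_sup_add_finrank_inf_eq` with `inf = ⊥`, or `Submodule.finrank_add_eq...`).
Finite dimensionality goes along.  The number of gaps `≤ D + 1` grows by one in the first case and
does not change in the second one (`Set.ncard` of `Gaps dg ∩ Iic D`, finite).  So
`finrank (le h D) + #(gaps ≤ D) = D + 1` by induction.
(3) `gap_lt`: the set `S` of the nongaps is closed under addition (`mul`).  If `m` is a gap and
`0 ≤ i ≤ m`, then `i` or `m - i` is a gap.  So `Icc 0 m ⊆ G ∪ (fun i => m - i) '' G`,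
`G = Gaps dg ∩ Iic m`, hence `m + 1 ≤ 2 * G.ncard ≤ 2 * gen dg`.
(4) `finrank_le_ge`: `(Gaps dg ∩ Iic D).ncard ≤ gen dg`.  `finrank_le_eq`: for `2 * gen dg ≤ D + 1`
all gaps are `≤ D` by (3).
-/

namespace Pool.Agent.H71.AS

open Pool.H93.OP

variable {k R : Type} [Field k] [CommRing R] [IsDomain R] [Algebra k R] {dg : R → ℕ}

private theorem bas_zero (h : OnePt k dg) : le h 0 = Submodule.span k {(1 : R)} := by
  apply le_antisymm
  · intro a ha
    rw [mem_le, Nat.le_zero] at ha
    obtain ⟨c, hc⟩ := exists_const h a ha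
    rw [Submodule.mem_span_singleton]
    exact ⟨c, by rw [hc, Algebra.smul_def, mul_one]⟩
  · rw [Submodule.span_singleton_le_iff_mem, mem_le, dg_one h]

private theorem bas_gap (h : OnePt k dg) (D : ℕ) (hD : D + 1 ∈ Gaps dg) : le h (D + 1) = le h D := by
  apply le_antisymm
  · intro a ha
    rw [mem_le] at ha ⊢
    by_cases h0 : a = 0
    · rw [h0, h.zero]
      exact Nat.zero_le _
    · have := hD a h0
      omega
  · intro a ha
    rw [mem_le] at ha ⊢
    omega

private theorem bas_ngap (h : OnePt k dg) (D : ℕ) (b : R) (hb : b ≠ 0) (hbD : dg b = D + 1) :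
    le h (D + 1) = le h D ⊔ Submodule.span k {b} := by
  apply le_antisymm
  · intro a ha
    rw [mem_le] at ha
    rcases Nat.lt_or_ge (dg a) (D + 1) with hlt | hge
    · exact Submodule.mem_sup_left ((mem_le h D a).2 (by omega))
    · have hDa : dg a = D + 1 := le_antisymm ha hge
      have ha0 : a ≠ 0 := by
        rintro rfl
        rw [h.zero] at hDa
        omega
      obtain ⟨c, hc⟩ := h.lead a b ha0 hb (by rw [hDa, hbD])
      have hcb : c • b ∈ Submodule.span k {b} := Submodule.smul_mem _ _ (Submodule.mem_span_singleton_self b)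
      rcases hc with hc | hc
      · rw [hc]
        exact Submodule.mem_sup_right hcb
      · have e : a = (a - c • b) + c • b := by ring
        rw [e]
        refine Submodule.add_mem_sup ?_ hcb
        rw [mem_le]
        omega
  · refine sup_le ?_ ?_
    · intro a ha
      rw [mem_le] at ha ⊢
      omega
    · rw [Submodule.span_singleton_le_iff_mem, mem_le, hbD]

private theorem bas_inf (h : OnePt k dg) (D : ℕ) (b : R) (hbD : dg b = D + 1) :
    le h D ⊓ Submodule.span k {b} = ⊥ := by
  rw [eq_bot_iff]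
  rintro a ⟨ha1, ha2⟩
  obtain ⟨c, rfl⟩ := Submodule.mem_span_singleton.1 ha2
  rw [Submodule.mem_bot]
  by_contra hne
  have hc : c ≠ 0 := by
    rintro rfl
    exact hne (zero_smul _ _)
  have h1 : dg (c • b) ≤ D := ha1
  rw [h.smul c b hc, hbD] at h1
  omega

private theorem bas_all (h : OnePt k dg) (D : ℕ) : Module.Finite k (le h D) ∧
    Module.finrank k (le h D) + (Gaps dg ∩ Set.Iic D).ncard = D + 1 := by
  induction D with
  | zero =>
    rw [bas_zero h]
    refine ⟨inferInstance, ?_⟩
    rw [finrank_span_singleton one_ne_zero]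
    have : Gaps dg ∩ Set.Iic 0 = ∅ := by
      rw [Set.eq_empty_iff_forall_notMem]
      rintro m ⟨hm1, hm2⟩
      have hm0 : m = 0 := Nat.le_zero.1 hm2
      exact hm1 1 one_ne_zero (by rw [hm0, dg_one h])
    rw [this, Set.ncard_empty]
  | succ D ih =>
    obtain ⟨hf, ih⟩ := ih
    have hfin : (Gaps dg ∩ Set.Iic D).Finite := (Set.finite_Iic D).subset Set.inter_subset_right
    by_cases hg : D + 1 ∈ Gaps dg
    · rw [bas_gap h D hg]
      refine ⟨hf, ?_⟩
      have e : Gaps dg ∩ Set.Iic (D + 1) = insert (D + 1) (Gaps dg ∩ Set.Iic D) := by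
        ext m
        simp only [Set.mem_inter_iff, Set.mem_Iic, Set.mem_insert_iff]
        constructor
        · rintro ⟨h1, h2⟩
          rcases Nat.lt_or_ge m (D + 1) with h3 | h3
          · exact Or.inr ⟨h1, by omega⟩
          · exact Or.inl (by omega)
        · rintro (rfl | ⟨h1, h2⟩)
          · exact ⟨hg, le_rfl⟩
          · exact ⟨h1, by omega⟩
      have hnot : D + 1 ∉ Gaps dg ∩ Set.Iic D := by
        rintro ⟨_, h2⟩
        have : D + 1 ≤ D := h2
        omega
      rw [e, Set.ncard_insert_of_notMem hnot hfin]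
      omega
    · have hex : ∃ b : R, b ≠ 0 ∧ dg b = D + 1 := by
        by_contra hcon
        push Not at hcon
        exact hg hcon
      obtain ⟨b, hb, hbD⟩ := hex
      rw [bas_ngap h D b hb hbD]
      have e : Gaps dg ∩ Set.Iic (D + 1) = Gaps dg ∩ Set.Iic D := by
        ext m
        simp only [Set.mem_inter_iff, Set.mem_Iic]
        constructor
        · rintro ⟨h1, h2⟩
          refine ⟨h1, ?_⟩
          have h3 := h1 b hb
          omega
        · rintro ⟨h1, h2⟩
          exact ⟨h1, by omega⟩
      rw [e]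
      refine ⟨inferInstance, ?_⟩
      have h1 := Submodule.finrank_sup_add_finrank_inf_eq (le h D) (Submodule.span k {b})
      rw [bas_inf h D b hbD, finrank_bot, finrank_span_singleton hb] at h1
      omega

theorem le_finite (h : OnePt k dg) (D : ℕ) : Module.Finite k (le h D) := (bas_all h D).1

theorem finrank_le_add (h : OnePt k dg) (D : ℕ) :
    Module.finrank k (le h D) + (Gaps dg ∩ Set.Iic D).ncard = D + 1 := (bas_all h D).2

theorem gap_lt (h : OnePt k dg) {m : ℕ} (hm : m ∈ Gaps dg) : m < 2 * gen dg := by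
  have hfin : (Gaps dg ∩ Set.Iic m).Finite := (Set.finite_Iic m).subset Set.inter_subset_right
  have hsub : Set.Iic m ⊆ (Gaps dg ∩ Set.Iic m) ∪ (fun i => m - i) '' (Gaps dg ∩ Set.Iic m) := by
    intro i hi
    have hi' : i ≤ m := hi
    by_cases h1 : i ∈ Gaps dg
    · exact Or.inl ⟨h1, hi⟩
    · by_cases h2 : m - i ∈ Gaps dg
      · refine Or.inr ⟨m - i, ⟨h2, Nat.sub_le _ _⟩, ?_⟩
        show m - (m - i) = i
        omega
      · exfalso
        have hex : ∀ j, j ∉ Gaps dg → ∃ b : R, b ≠ 0 ∧ dg b = j := by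
          intro j hj
          by_contra hcon
          push Not at hcon
          exact hj hcon
        obtain ⟨a, ha, hai⟩ := hex i h1
        obtain ⟨b, hb, hbi⟩ := hex (m - i) h2
        refine hm (a * b) (mul_ne_zero ha hb) ?_
        rw [h.mul a b ha hb, hai, hbi]
        omega
  have h1 : (Set.Iic m).ncard ≤ (Gaps dg ∩ Set.Iic m).ncard + ((fun i => m - i) '' (Gaps dg ∩ Set.Iic m)).ncard :=
    (Set.ncard_le_ncard hsub (hfin.union (hfin.image _))).trans (Set.ncard_union_le _ _)
  have h2 : ((fun i => m - i) '' (Gaps dg ∩ Set.Iic m)).ncard ≤ (Gaps dg ∩ Set.Iic m).ncard := Set.ncard_image_le hfin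
  have h3 : (Gaps dg ∩ Set.Iic m).ncard ≤ gen dg := Set.ncard_le_ncard Set.inter_subset_left h.gaps
  have h4 : (Set.Iic m).ncard = m + 1 := by
    rw [← Finset.coe_Iic, Set.ncard_coe_finset, Nat.card_Iic]
  omega

theorem finrank_le_ge (h : OnePt k dg) (D : ℕ) :
    D + 1 ≤ Module.finrank k (le h D) + gen dg := by
  have h1 := finrank_le_add h D
  have h3 : (Gaps dg ∩ Set.Iic D).ncard ≤ gen dg := Set.ncard_le_ncard Set.inter_subset_left h.gaps
  omega

theorem finrank_le_eq (h : OnePt k dg) {D : ℕ} (hD : 2 * gen dg ≤ D + 1) :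
    Module.finrank k (le h D) + gen dg = D + 1 := by
  have h1 := finrank_le_add h D
  have h2 : Gaps dg ∩ Set.Iic D = Gaps dg := by
    apply Set.inter_eq_left.2
    intro m hm
    have := gap_lt h hm
    show m ≤ D
    omega
  rw [h2] at h1
  exact h1

end Pool.Agent.H71.AS
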