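import Pool.Agent.H71.AS.Lin
import Pool.Agent.H71.AS.Noe

/-!
# [H71 AS CLS] The classes of stable ideals form a group

Proof.  `inv_mul`: products of stable ideals are stable (`Submodule.mul_induction_on`; use `F.s` and
`F.s.symm`).  `inv_colon`/`inv_of_mul`: if `I * J = (a)`, `F.s a = a`, `a ≠ 0` and `I` is stable then
`J = {r | r I ⊆ (a)}` is stable.  `mem_invCls`: `←` is `Subgroup.subset_closure`.  `→`: the set of
classes of stable ideals contains `1` (`I = ⊤`), is closed under products (`inv_mul`) and under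
inverses: given `I` stable, choose `0 ≠ a ∈ I` with `F.s a = a` (`exists_fixed_mem`); `(a) = I * J`
with an ideal `J` (`Ideal.dvd_span_singleton`, `Ideal.dvd_iff_le`), `J` is stable and
`mk0 I * mk0 J = mk0 (a) = 1`.  Use `Subgroup.closure_induction`.
-/

namespace Pool.Agent.H71.AS

open Pool.H93.OP

variable {k R : Type} [Field k] [CommRing R] [IsDomain R] [Algebra k R] {dg : R → ℕ}


variable {Q : ℕ}

private theorem inv_iff_map (F : Fr k dg Q) (I : Ideal R) :
    Inv F I ↔ Ideal.map (F.s : R →+* R) I = I := by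
  rw [Ideal.map_comap_of_equiv]
  constructor
  · intro hI
    ext a
    rw [Ideal.mem_comap]
    have h1 := hI (F.s.symm a)
    rw [RingEquiv.apply_symm_apply] at h1
    exact h1.symm
  · intro hI a
    have h1 : F.s a ∈ Ideal.comap F.s.symm I ↔ F.s a ∈ I := by
      rw [hI]
    rw [Ideal.mem_comap, RingEquiv.symm_apply_apply] at h1
    exact h1.symm

theorem inv_mul (F : Fr k dg Q) (I J : Ideal R) (hI : Inv F I) (hJ : Inv F J) :
    Inv F (I * J) := by
  rw [inv_iff_map] at hI hJ ⊢
  rw [Ideal.map_mul, hI, hJ]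

theorem inv_top (F : Fr k dg Q) : Inv F (⊤ : Ideal R) := fun _ => ⟨fun _ => trivial, fun _ => trivial⟩

theorem inv_span (F : Fr k dg Q) (a : R) (ha : F.s a = a) : Inv F (Ideal.span {a}) := by
  rw [inv_iff_map, Ideal.map_span, Set.image_singleton]
  congr 2

theorem inv_of_mul [IsDedekindDomain R] (F : Fr k dg Q) (I J : Ideal R) (hI0 : I ≠ ⊥)
    (hI : Inv F I) (hIJ : Inv F (I * J)) : Inv F J := by
  rw [inv_iff_map] at hI hIJ ⊢
  rw [Ideal.map_mul, hI] at hIJ
  exact mul_left_cancel₀ (a := I) hI0 hIJ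

theorem mem_invCls [IsAlgClosed k] [IsDedekindDomain R] (h : OnePt k dg) (p e : ℕ)
    [Fact p.Prime] [CharP k p] (he : 0 < e) (F : Fr k dg (p ^ e)) (c : ClassGroup R) :
    c ∈ invCls F ↔ ∃ (I : Ideal R) (hI : I ≠ ⊥), Inv F I ∧
      ClassGroup.mk0 ⟨I, mem_nonZeroDivisors_of_ne_zero hI⟩ = c := by
  constructor
  · intro hc
    unfold invCls at hc
    induction hc using Subgroup.closure_induction with
    | mem x hx => exact hx
    | one =>
      refine ⟨⊤, ?_, inv_top F, ?_⟩
      · intro h0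
        exact one_ne_zero (α := R) ((Ideal.mem_bot).1 (h0 ▸ Submodule.mem_top))
      · rw [← map_one ClassGroup.mk0]
        exact congrArg ClassGroup.mk0 (Subtype.ext Ideal.one_eq_top.symm)
    | mul x y _ _ hx hy =>
      obtain ⟨I, hI0, hI, hIx⟩ := hx
      obtain ⟨J, hJ0, hJ, hJy⟩ := hy
      refine ⟨I * J, mul_ne_zero (M₀ := Ideal R) hI0 hJ0, inv_mul F I J hI hJ, ?_⟩
      rw [← hIx, ← hJy, ← map_mul]
      congr 1
    | inv x _ hx =>
      obtain ⟨I, hI0, hI, hIx⟩ := hx
      obtain ⟨a, haI, ha0, ha⟩ := exists_fixed_mem h p e he F I hI hI0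
      have hdvd : I ∣ Ideal.span {a} := by
        rw [Ideal.dvd_iff_le, Ideal.span_singleton_le_iff_mem]
        exact haI
      obtain ⟨J, hJ⟩ := hdvd
      have hs0 : Ideal.span {a} ≠ ⊥ := by
        rw [ne_eq, Ideal.span_singleton_eq_bot]
        exact ha0
      have hJ0 : J ≠ ⊥ := by
        intro h0
        apply hs0
        rw [hJ, h0, Ideal.mul_bot]
      have hJi : Inv F J := inv_of_mul F I J hI0 hI (by rw [← hJ]; exact inv_span F a ha)
      refine ⟨J, hJ0, hJi, ?_⟩
      rw [← hIx]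
      apply eq_inv_of_mul_eq_one_right
      rw [← map_mul]
      have h1 : (⟨I, mem_nonZeroDivisors_of_ne_zero hI0⟩ : nonZeroDivisors (Ideal R)) *
          ⟨J, mem_nonZeroDivisors_of_ne_zero hJ0⟩ =
          ⟨Ideal.span {a}, mem_nonZeroDivisors_of_ne_zero hs0⟩ := Subtype.ext hJ.symm
      rw [h1, ClassGroup.mk0_eq_one_iff]
      exact ⟨⟨a, rfl⟩⟩
  · intro hc
    exact Subgroup.subset_closure hc

end Pool.Agent.H71.AS
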