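import Pool.Agent.H71.AS.Ide
import Pool.Agent.H71.AS.Cls

/-!
# [H71 AS CNT] The number of stable ideals of degree at most `N`

Notation `Q = p ^ e`, `g = gen dg`, `C = invCls F`.
Proof.  (1) For `c ∈ C` let `X_c` be the set of `I ∈ invId F N` with class `c`.  CLAIM: for
`N + 1 ≥ 3 g`: `(Q - 1) * #X_c + 1 = Q ^ (N + 1 - g)`.  Choose (`mem_invCls`) a stable ideal `J ≠ ⊥`
with class `c⁻¹`, let `D = N + ideg k J`.  For `I ∈ X_c`: `I * J` is principal, `= (a)`
(`ClassGroup.mk0_eq_one_iff`), stable (`inv_mul`), `a ∈ J`, and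
`dg a = ideg (a) = ideg I + ideg J ≤ D` (`ideg_span`, `ideg_mul`).  Conversely a stable `(a) ≤ J`
with `a ≠ 0`, `dg a ≤ D` is `(a) = I * J` with `I` stable (`inv_of_mul`), of class `c`,
`ideg I ≤ N`.  `I ↦ I * J` is injective (cancel `J`).  So `X_c` is in bijection with the set of `lines`
for `J`, `D`, and `finrank (Id k J ⊓ le h D) = D + 1 - ideg J - g = N + 1 - g` by `riemann_eq`
(`ideg J + 3 g ≤ D + 1`).
(2) `C` is finite: `X_c ≠ ∅` for every `c ∈ C` when `N` is large (by (1), as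
`Q ^ (N + 1 - g) > 1`), the `X_c` are disjoint subsets of the finite set `invId F N`
(`invId_finite`).
(3) `invId F N` is the disjoint union of the `X_c`, `c ∈ C` (the class of a stable ideal is in `C`), so
`(Q - 1) * #(invId F N) = ∑_(c ∈ C) (Q ^ (N+1-g) - 1) = #C * (Q ^ (N+1-g) - 1)`.
If `N + 1 - g = 0` then `N + 1 ≥ 3 g` gives `g = 0`, `N + 1 = 0`, impossible, so the exponent is
positive.
-/

namespace Pool.Agent.H71.AS

open Pool.H93.OP

variable {k R : Type} [Field k] [CommRing R] [IsDomain R] [Algebra k R] {dg : R → ℕ}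


/-- the class of a stable ideal -/
private noncomputable def cI [IsDedekindDomain R] {Q : ℕ} (F : Fr k dg Q) (N : ℕ)
    (I : ↥(invId F N)) : ↥(invCls F) :=
  ⟨ClassGroup.mk0 ⟨I.1, mem_nonZeroDivisors_of_ne_zero I.2.1⟩,
    Subgroup.subset_closure ⟨I.1, I.2.1, I.2.2.1, rfl⟩⟩

private theorem key [IsAlgClosed k] [IsDedekindDomain R] (h : OnePt k dg) (p e : ℕ)
    [Fact p.Prime] [CharP k p] (he : 0 < e) (F : Fr k dg (p ^ e)) {N : ℕ}
    (hN : 3 * gen dg ≤ N + 1) (c : ↥(invCls F)) :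
    (p ^ e - 1) * Nat.card {I : ↥(invId F N) // cI F N I = c} + 1 =
      (p ^ e) ^ (N + 1 - gen dg) := by
  obtain ⟨J, hJ0, hJ, hJc⟩ := (mem_invCls h p e he F (c : ClassGroup R)⁻¹).1
    (Subgroup.inv_mem _ c.2)
  have hrie := riemann_eq h J hJ0 (D := N + ideg k J) (by omega)
  have hrank : Module.finrank k ↥(Id k J ⊓ le h (N + ideg k J)) = N + 1 - gen dg := by omega
  have hlin := (lines h p e he F J hJ (N + ideg k J)).2
  rw [hrank] at hlin
  rw [← hlin]
  congr 2
  rw [← Nat.card_coe_set_eq]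
  refine Nat.card_congr (Equiv.ofBijective
    (fun I => (⟨I.1.1 * J, ?_⟩ : ↥{I : Ideal R | Inv F I ∧
      ∃ a, a ≠ 0 ∧ a ∈ J ∧ dg a ≤ N + ideg k J ∧ I = Ideal.span {a}})) ⟨?_, ?_⟩)
  · have h1 : ClassGroup.mk0 ⟨I.1.1, mem_nonZeroDivisors_of_ne_zero I.1.2.1⟩ = (c : ClassGroup R) :=
      congrArg Subtype.val I.2
    have h2 : ClassGroup.mk0 ((⟨I.1.1, mem_nonZeroDivisors_of_ne_zero I.1.2.1⟩ :
        nonZeroDivisors (Ideal R)) * ⟨J, mem_nonZeroDivisors_of_ne_zero hJ0⟩) = 1 := by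
      rw [map_mul, h1, hJc, mul_inv_cancel]
    rw [ClassGroup.mk0_eq_one_iff] at h2
    obtain ⟨a, ha⟩ := h2
    have ha' : I.1.1 * J = Ideal.span {a} := ha
    have hne : I.1.1 * J ≠ ⊥ := mul_ne_zero I.1.2.1 hJ0
    have ha0 : a ≠ 0 := by
      rintro rfl
      rw [Ideal.span_singleton_zero] at ha'
      exact hne ha'
    refine ⟨inv_mul F _ _ I.1.2.2.1 hJ, a, ha0, ?_, ?_, ha'⟩
    · have h3 : Ideal.span {a} ≤ J := by
        rw [← ha']
        exact Ideal.mul_le_right (I := I.1.1) (J := J)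
      exact h3 (Ideal.mem_span_singleton_self _)
    · rw [← ideg_span h a ha0, ← ha', ideg_mul h _ _ I.1.2.1 hJ0]
      exact Nat.add_le_add_right I.1.2.2.2 _
  · intro I I' hII
    have h1 : I.1.1 * J = I'.1.1 * J := congrArg Subtype.val hII
    exact Subtype.ext (Subtype.ext (mul_right_cancel₀ hJ0 h1))
  · rintro ⟨K, hK, a, ha0, haJ, hda, rfl⟩
    have hdvd : J ∣ Ideal.span {a} := by
      rw [Ideal.dvd_span_singleton]
      exact haJ
    obtain ⟨I, hI⟩ := hdvd
    have hI0 : I ≠ ⊥ := by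
      rintro rfl
      rw [Ideal.mul_bot] at hI
      exact ha0 (Ideal.span_singleton_eq_bot.1 hI)
    have hInv : Inv F I := by
      refine inv_of_mul F J I hJ0 hJ ?_
      rw [← hI]
      exact hK
    have hdeg : ideg k I + ideg k J ≤ N + ideg k J := by
      rw [← ideg_mul h _ _ hI0 hJ0, mul_comm, ← hI, ideg_span h a ha0]
      exact hda
    have hcl : ClassGroup.mk0 ⟨I, mem_nonZeroDivisors_of_ne_zero hI0⟩ = (c : ClassGroup R) := by
      have h2 : ClassGroup.mk0 ((⟨I, mem_nonZeroDivisors_of_ne_zero hI0⟩ :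
          nonZeroDivisors (Ideal R)) * ⟨J, mem_nonZeroDivisors_of_ne_zero hJ0⟩) = 1 := by
        rw [ClassGroup.mk0_eq_one_iff]
        exact ⟨a, (mul_comm I J).trans hI.symm⟩
      rw [map_mul, hJc] at h2
      exact mul_inv_eq_one.1 h2
    refine ⟨⟨⟨I, hI0, hInv, by omega⟩, Subtype.ext hcl⟩, Subtype.ext ?_⟩
    show I * J = Ideal.span {a}
    rw [hI, mul_comm]

private theorem two_le_pow' (p e : ℕ) [hp : Fact p.Prime] (he : 0 < e) : 2 ≤ p ^ e :=
  le_trans hp.out.two_le (Nat.le_self_pow (by omega) p)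

theorem invCls_finite [IsAlgClosed k] [IsDedekindDomain R] (h : OnePt k dg) (p e : ℕ)
    [Fact p.Prime] [CharP k p] (he : 0 < e) (F : Fr k dg (p ^ e)) : Finite (invCls F) := by
  have hq := two_le_pow' p e he
  have hfin : Finite ↥(invId F (3 * gen dg)) := (invId_finite h p e he F (3 * gen dg)).to_subtype
  have hsurj : Function.Surjective (cI F (3 * gen dg)) := by
    intro c
    have h1 := key h p e he F (N := 3 * gen dg) (by omega) c
    by_contra hcon
    push Not at hcon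
    have h2 : Nat.card {I : ↥(invId F (3 * gen dg)) // cI F (3 * gen dg) I = c} = 0 := by
      have : IsEmpty {I : ↥(invId F (3 * gen dg)) // cI F (3 * gen dg) I = c} :=
        ⟨fun I => hcon I.1 I.2⟩
      exact Nat.card_of_isEmpty
    rw [h2, mul_zero, zero_add] at h1
    have h3 : 1 < (p ^ e) ^ (3 * gen dg + 1 - gen dg) := Nat.one_lt_pow (by omega) (by omega)
    omega
  exact Finite.of_surjective _ hsurj

theorem count [IsAlgClosed k] [IsDedekindDomain R] (h : OnePt k dg) (p e : ℕ)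
    [Fact p.Prime] [CharP k p] (he : 0 < e) (F : Fr k dg (p ^ e)) {N : ℕ}
    (hN : 3 * gen dg ≤ N + 1) :
    (p ^ e - 1) * (invId F N).ncard =
      Nat.card (invCls F) * ((p ^ e) ^ (N + 1 - gen dg) - 1) := by
  classical
  have hfin : Finite ↥(invId F N) := (invId_finite h p e he F N).to_subtype
  have hfc : Finite ↥(invCls F) := invCls_finite h p e he F
  have hft : Fintype ↥(invCls F) := Fintype.ofFinite _
  have h1 : (invId F N).ncard = ∑ c : ↥(invCls F), Nat.card {I : ↥(invId F N) // cI F N I = c} := by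
    rw [← Nat.card_coe_set_eq, ← Nat.card_congr (Equiv.sigmaFiberEquiv (cI F N)), Nat.card_sigma]
  rw [h1, Finset.mul_sum, Finset.sum_congr rfl (g := fun _ => (p ^ e) ^ (N + 1 - gen dg) - 1)]
  · rw [Finset.sum_const, smul_eq_mul, Finset.card_univ, Nat.card_eq_fintype_card]
  · intro c _
    have h2 := key h p e he F hN c
    omega

end Pool.Agent.H71.AS
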