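import Pool.Agent.H71.AS.Lin
import Pool.Agent.H71.AS.Noe

/-!
# [H71 AS FIX] Finitely many primes are fixed by a power of Frobenius

Proof.  `hperm_pow`: induction on `m`; `hperm 1 = 1`, `hperm (s * t) = hperm s * hperm t`, by
`mem_hperm`.
`fixed_finite`: by `exists_fixed_large` choose `x` with `F.s x = x`, `dg x > 0`.  For a prime `v` (with
`v.asIdeal = P`) let `χ(v) ∈ k` be the residue of `x`: `R ⧸ P` is a finite dimensional domain over the
algebraically closed field `k` (`quot_finite`), so there is exactly one `c ∈ k` with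
`x - algebraMap c ∈ P`.  If `hperm F.s v = v`, then `F.s P = P`, so
`F.s (x - c) = x - c^Q ∈ P` (`F.semi` with `a = 1`: `F.s (algebraMap c) = algebraMap (c^Q)`), hence
`c^Q = c`: at most `Q` values `c` (roots of `X^Q - X`).  For each `c` the element `x - c` is not zero
(`dg x > 0`), and only finitely many primes contain a given nonzero element of a Dedekind domain
(Mathlib: `Ideal.finite_factors`, or `IsDedekindDomain.HeightOneSpectrum` and `Associates` finiteness;
or: `R ⧸ (x - c)` is finite dimensional, so an artinian ring, with finitely many primes).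
`fixed_pow_finite`: apply this to `F.pow m`, with `Q ^ m = p ^ (e * m)`; the statement is about
`hperm (F.s ^ m) = (hperm F.s) ^ m`.
-/

namespace Pool.Agent.H71.AS

open Pool.H93.OP

variable {k R : Type} [Field k] [CommRing R] [IsDomain R] [Algebra k R] {dg : R → ℕ}


theorem hperm_pow (s : R ≃+* R) (m : ℕ) : hperm (s ^ m) = hperm s ^ m := by
  induction m with
  | zero =>
    ext v a
    rw [mem_hperm, pow_zero, pow_zero]
    exact Iff.rfl
  | succ n ih =>
    rw [pow_succ (hperm s), ← ih]
    ext v a
    rw [mem_hperm, Equiv.Perm.mul_apply, mem_hperm, mem_hperm, pow_succ]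
    exact Iff.rfl

theorem fixed_finite [IsAlgClosed k] [IsDedekindDomain R] (h : OnePt k dg) (p e : ℕ)
    [Fact p.Prime] [CharP k p] (he : 0 < e) (F : Fr k dg (p ^ e)) :
    {v | hperm F.s v = v}.Finite := by
  classical
  obtain ⟨x, hx0, hx⟩ := exists_fixed_large h p e he F
  have hQ : 1 < p ^ e := Nat.one_lt_pow he.ne' (Fact.out : p.Prime).one_lt
  have hpol : (Polynomial.X ^ (p ^ e) - Polynomial.X : Polynomial k) ≠ 0 :=
    FiniteField.X_pow_card_sub_X_ne_zero k hQ
  let rts : Finset k := (Polynomial.X ^ (p ^ e) - Polynomial.X : Polynomial k).roots.toFinset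
  have hsub : {v | hperm F.s v = v} ⊆
      ⋃ c ∈ rts, {v : IsDedekindDomain.HeightOneSpectrum R | v.asIdeal ∣ Ideal.span {x - algebraMap k R c}} := by
    intro v hv
    have hv' : hperm F.s v = v := hv
    have hfin := quot_finite h v.asIdeal v.ne_bot
    have hvp := v.isPrime
    have hbij : Function.Bijective (algebraMap k (R ⧸ v.asIdeal)) :=
      IsAlgClosed.algebraMap_bijective_of_isIntegral
    obtain ⟨c, hc⟩ := hbij.2 (Ideal.Quotient.mk v.asIdeal x)
    have hmem : x - algebraMap k R c ∈ v.asIdeal := by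
      rw [← Ideal.Quotient.eq, ← hc]
      rfl
    have hmem2 : F.s (x - algebraMap k R c) ∈ v.asIdeal := by
      have h1 : F.s (x - algebraMap k R c) ∈ (hperm F.s v).asIdeal := by
        rw [mem_hperm, RingEquiv.symm_apply_apply]
        exact hmem
      rwa [hv'] at h1
    have hFs : F.s (algebraMap k R c) = algebraMap k R (c ^ (p ^ e)) := by
      rw [Algebra.algebraMap_eq_smul_one, F.semi, map_one, ← Algebra.algebraMap_eq_smul_one]
    rw [map_sub, hx, hFs] at hmem2
    have hmem3 : algebraMap k R (c ^ (p ^ e) - c) ∈ v.asIdeal := by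
      have h1 := v.asIdeal.sub_mem hmem hmem2
      have h2 : x - algebraMap k R c - (x - algebraMap k R (c ^ p ^ e)) =
          algebraMap k R (c ^ (p ^ e) - c) := by
        rw [map_sub]; ring
      rwa [h2] at h1
    have hc0 : c ^ (p ^ e) - c = 0 := by
      by_contra hne
      apply hvp.ne_top
      exact Ideal.eq_top_of_isUnit_mem _ hmem3 ((IsUnit.mk0 _ hne).map (algebraMap k R))
    have hcr : c ∈ rts := by
      rw [Multiset.mem_toFinset, Polynomial.mem_roots hpol, Polynomial.IsRoot.def]
      simp [hc0]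
    refine Set.mem_iUnion₂.2 ⟨c, hcr, ?_⟩
    show v.asIdeal ∣ _
    rw [Ideal.dvd_iff_le, Ideal.span_singleton_le_iff_mem]
    exact hmem
  refine Set.Finite.subset (Set.Finite.biUnion rts.finite_toSet ?_) hsub
  intro c _
  apply Ideal.finite_factors
  rw [ne_eq, Ideal.zero_eq_bot, Ideal.span_singleton_eq_bot]
  intro h0
  rw [sub_eq_zero] at h0
  rw [h0, dg_algebraMap h] at hx0
  exact lt_irrefl _ hx0

theorem fixed_pow_finite [IsAlgClosed k] [IsDedekindDomain R] (h : OnePt k dg) (p e : ℕ)
    [Fact p.Prime] [CharP k p] (he : 0 < e) (F : Fr k dg (p ^ e)) (m : ℕ) (hm : 0 < m) :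
    {v | (hperm F.s ^ m) v = v}.Finite := by
  let F' : Fr k dg (p ^ (e * m)) :=
    { s := F.s ^ m
      semi := by
        rw [pow_mul]
        exact (F.pow m).semi
      pres := (F.pow m).pres }
  have h1 := fixed_finite h p (e * m) (Nat.mul_pos he hm) F'
  have h2 : hperm F'.s = hperm F.s ^ m := hperm_pow F.s m
  rw [h2] at h1
  exact h1

end Pool.Agent.H71.AS
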