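import Pool.Agent.H71.AS.Mul
import Pool.Agent.H71.AS.Fix
import Pool.Agent.H71.AS.Rec

/-!
# [H71 AS IDE] Stable ideals of degree at most `N` and invariant functions

Let `Y = Option (HeightOneSpectrum R)`, `τ = Equiv.optionCongr (hperm F.s)` (the new point `none` is
fixed; it absorbs the difference `N - ideg I`).

Proof.  For `D : HeightOneSpectrum R →₀ ℕ` put `π(D) = D.prod (fun v n => v.asIdeal ^ n)`.
(1) `π` is a bijection from the finitely supported functions onto the nonzero ideals (unique
factorization of ideals in a Dedekind domain: `UniqueFactorizationMonoid`,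
`IsDedekindDomain.HeightOneSpectrum`, `Ideal.finprod_heightOneSpectrum_factorization`; or with
multisets of primes and `normalizedFactors`).
(2) `ideg k (π D) = ∑ D v` by `ideg_mul`, `ideg_prime` and `ideg k ⊤ = 0`.
(3) `π D` is stable iff `D (hperm F.s v) = D v` for all `v`: the automorphism `F.s` maps `π D` to
`π (D ∘ hperm⁻¹)` (the image of the ideal `v.asIdeal` under `F.s` is `(hperm F.s v).asIdeal`, by
`mem_hperm`; `Ideal.map_mul`), and `π` is injective.
(4) So `I = π D ↦ D'`, `D' (some v) = D v`, `D' none = N - ideg k I`, is a bijection from `invId F N`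
onto `ED τ N` (`Finsupp.sum` over `Option`: `Finsupp.sum_option_index` or
`Finsupp.optionEquiv`...; the sum is `(N - ideg I) + ideg I = N`; conversely
`D' ∈ ED τ N` gives `∑ D v = N - D' none ≤ N`).
`opt_fix`: the fixed points of `τ^m` are `none` and `some v` with `(hperm F.s ^ m) v = v`.
`invId_finite`: by `ide`'s bijection and `ED_finite`, with `fixed_pow_finite`; prove the bijection
first as a statement `∃ f, Set.BijOn f (invId F N) (ED τ N)`.
-/

namespace Pool.Agent.H71.AS

open Pool.H93.OP

variable {k R : Type} [Field k] [CommRing R] [IsDomain R] [Algebra k R] {dg : R → ℕ}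


variable {Q : ℕ}

/-- the product of a multiset of nonzero primes -/
private noncomputable def mpr {R : Type} [CommRing R]
    (m : Multiset (IsDedekindDomain.HeightOneSpectrum R)) : Ideal R :=
  (m.map fun v => v.asIdeal).prod

private theorem mpr_cons {R : Type} [CommRing R] (a : IsDedekindDomain.HeightOneSpectrum R)
    (s : Multiset (IsDedekindDomain.HeightOneSpectrum R)) :
    mpr (a ::ₘ s) = a.asIdeal * mpr s := by
  simp only [mpr, Multiset.map_cons, Multiset.prod_cons]

private theorem mpr_zero {R : Type} [CommRing R] :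
    mpr (0 : Multiset (IsDedekindDomain.HeightOneSpectrum R)) = ⊤ := by
  simp only [mpr, Multiset.map_zero, Multiset.prod_zero, Ideal.one_eq_top]

private theorem mpr_ne {R : Type} [CommRing R] [IsDomain R]
    (m : Multiset (IsDedekindDomain.HeightOneSpectrum R)) : mpr m ≠ ⊥ := by
  induction m using Multiset.induction_on with
  | empty =>
    rw [mpr_zero]
    exact top_ne_bot
  | cons a s ih =>
    rw [mpr_cons]
    exact mul_ne_zero a.ne_bot ih

private theorem ideg_mpr [IsAlgClosed k] [IsDedekindDomain R] (h : OnePt k dg)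
    (m : Multiset (IsDedekindDomain.HeightOneSpectrum R)) :
    ideg k (mpr m) = Multiset.card m := by
  induction m using Multiset.induction_on with
  | empty =>
    rw [mpr_zero, Multiset.card_zero, (ideg_eq_zero h ⊤ top_ne_bot)]
  | cons a s ih =>
    rw [mpr_cons, ideg_mul h _ _ a.ne_bot (mpr_ne s), ih, ideg_prime h _ a.isPrime a.ne_bot,
      Multiset.card_cons, add_comm]

private theorem mpr_inj {R : Type} [CommRing R] [IsDedekindDomain R] :
    Function.Injective (mpr (R := R)) := by
  classical
  have h1 : ∀ m : Multiset (IsDedekindDomain.HeightOneSpectrum R),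
      UniqueFactorizationMonoid.normalizedFactors (mpr m) = m.map fun v => v.asIdeal := by
    intro m
    refine UniqueFactorizationMonoid.normalizedFactors_prod_of_prime ?_
    intro p hp
    obtain ⟨P, _, rfl⟩ := Multiset.mem_map.1 hp
    exact Ideal.prime_of_isPrime P.ne_bot P.isPrime
  intro m m' h
  have h2 := h1 m
  rw [h, h1 m'] at h2
  exact (Multiset.map_injective (fun v w hvw => IsDedekindDomain.HeightOneSpectrum.ext hvw) h2).symm

private theorem mpr_surj {R : Type} [CommRing R] [IsDedekindDomain R] (I : Ideal R)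
    (hI : I ≠ ⊥) : ∃ m, mpr m = I := by
  classical
  have hp : ∀ p ∈ UniqueFactorizationMonoid.normalizedFactors I, p.IsPrime ∧ p ≠ ⊥ := by
    intro p hp
    have h1 := UniqueFactorizationMonoid.prime_of_normalized_factor p hp
    exact ⟨Ideal.isPrime_of_prime h1, h1.ne_zero⟩
  refine ⟨(UniqueFactorizationMonoid.normalizedFactors I).pmap (fun p h => ⟨p, h.1, h.2⟩) hp, ?_⟩
  rw [mpr, Multiset.map_pmap]
  simp only [Multiset.pmap_eq_map, Multiset.map_id']
  exact Ideal.prod_normalizedFactors_eq_self hI

private theorem mpr_map {R : Type} [CommRing R] (s : R ≃+* R)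
    (m : Multiset (IsDedekindDomain.HeightOneSpectrum R)) :
    (mpr m).map (s : R →+* R) = mpr (m.map (hperm s)) := by
  induction m using Multiset.induction_on with
  | empty => rw [Multiset.map_zero, mpr_zero, Ideal.map_top]
  | cons a t ih =>
    rw [Multiset.map_cons, mpr_cons, mpr_cons, Ideal.map_mul, ih]
    congr 1
    exact (Ideal.comap_symm s).symm

private theorem inv_iff_map {R : Type} [CommRing R] [Algebra k R] {dg : R → ℕ}
    (F : Fr k dg Q) (I : Ideal R) : Inv F I ↔ I.map (F.s : R →+* R) = I := by
  have h1 : ∀ a, a ∈ I.map (F.s : R →+* R) ↔ F.s.symm a ∈ I := by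
    intro a
    have h2 : I.map (F.s : R →+* R) = I.comap (F.s.symm : R →+* R) := (Ideal.comap_symm F.s).symm
    rw [h2]
    exact Iff.rfl
  constructor
  · intro h
    ext a
    rw [h1]
    have := h (F.s.symm a)
    rw [RingEquiv.apply_symm_apply] at this
    exact this.symm
  · intro h a
    have h3 := h1 (F.s a)
    rw [h, RingEquiv.symm_apply_apply] at h3
    exact h3

/-- the ideal of a finitely supported function -/
private noncomputable def fpr {R : Type} [CommRing R]
    (D : IsDedekindDomain.HeightOneSpectrum R →₀ ℕ) : Ideal R := mpr (Finsupp.toMultiset D)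

private theorem fpr_inj {R : Type} [CommRing R] [IsDedekindDomain R] :
    Function.Injective (fpr (R := R)) := by
  classical
  intro D E h
  have h2 := congrArg Multiset.toFinsupp (mpr_inj h)
  rwa [Finsupp.toMultiset_toFinsupp, Finsupp.toMultiset_toFinsupp] at h2

private theorem fpr_surj {R : Type} [CommRing R] [IsDedekindDomain R] (I : Ideal R)
    (hI : I ≠ ⊥) : ∃ D, fpr D = I := by
  classical
  obtain ⟨m, hm⟩ := mpr_surj I hI
  refine ⟨Multiset.toFinsupp m, ?_⟩
  rw [fpr, Multiset.toFinsupp_toMultiset, hm]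

private theorem ideg_fpr [IsAlgClosed k] [IsDedekindDomain R] (h : OnePt k dg)
    (D : IsDedekindDomain.HeightOneSpectrum R →₀ ℕ) :
    ideg k (fpr D) = D.sum fun _ n => n := by
  rw [fpr, ideg_mpr h, Finsupp.card_toMultiset]
  rfl

private theorem inv_fpr [IsDedekindDomain R] (F : Fr k dg Q)
    (D : IsDedekindDomain.HeightOneSpectrum R →₀ ℕ) :
    Inv F (fpr D) ↔ ∀ v, D (hperm F.s v) = D v := by
  have h1 : (fpr D).map (F.s : R →+* R) = fpr (D.mapDomain (hperm F.s)) := by
    rw [fpr, mpr_map, Finsupp.toMultiset_map, fpr]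
  rw [inv_iff_map, h1, fpr_inj.eq_iff]
  constructor
  · intro h v
    have h2 := Finsupp.mapDomain_apply (hperm F.s).injective D v
    rw [h] at h2
    exact h2
  · intro h
    ext w
    obtain ⟨v, rfl⟩ := (hperm F.s).surjective w
    rw [Finsupp.mapDomain_apply (hperm F.s).injective, h]

private theorem ide' [IsAlgClosed k] [IsDedekindDomain R] (h : OnePt k dg) (F : Fr k dg Q)
    (N : ℕ) : Set.BijOn (fun D : Option (IsDedekindDomain.HeightOneSpectrum R) →₀ ℕ => fpr D.some)
      (ED (Equiv.optionCongr (hperm F.s)) N) (invId F N) := by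
  have hsum : ∀ D : Option (IsDedekindDomain.HeightOneSpectrum R) →₀ ℕ,
      (D.sum fun _ n => n) = D none + D.some.sum fun _ n => n := by
    intro D
    exact Finsupp.sum_option_index D (fun _ n => n) (fun _ => rfl) (fun _ _ _ => rfl)
  refine ⟨?_, ?_, ?_⟩
  · intro D hD
    refine ⟨mpr_ne _, ?_, ?_⟩
    · rw [inv_fpr]
      intro v
      exact hD.1 (some v)
    · rw [ideg_fpr h]
      have h1 := hD.2
      rw [hsum] at h1
      omega
  · intro D hD E hE hDE
    have h1 : D.some = E.some := fpr_inj hDE
    have h2 := hD.2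
    have h3 := hE.2
    rw [hsum] at h2 h3
    rw [h1] at h2
    have h4 : D none = E none := by omega
    ext o
    cases o with
    | none => exact h4
    | some v =>
      have := DFunLike.congr_fun h1 v
      exact this
  · rintro I ⟨hI, hInv, hdeg⟩
    obtain ⟨D, rfl⟩ := fpr_surj I hI
    refine ⟨D.optionElim (N - ideg k (fpr D)), ⟨?_, ?_⟩, ?_⟩
    · rintro (_ | v)
      · rfl
      · have h1 := (inv_fpr F D).1 hInv v
        show D.optionElim (N - ideg k (fpr D)) (some (hperm F.s v)) = _
        rw [Finsupp.optionElim_apply_some, Finsupp.optionElim_apply_some, h1]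
    · rw [hsum, Finsupp.some_optionElim, Finsupp.optionElim_apply_none, ← ideg_fpr h]
      omega
    · show fpr (D.optionElim _).some = fpr D
      rw [Finsupp.some_optionElim]

theorem ide [IsAlgClosed k] [IsDedekindDomain R] (h : OnePt k dg) (F : Fr k dg Q) (N : ℕ) :
    ∃ f : Ideal R → (Option (IsDedekindDomain.HeightOneSpectrum R) →₀ ℕ),
      Set.BijOn f (invId F N) (ED (Equiv.optionCongr (hperm F.s)) N) := by
  have h1 := ide' h F N
  exact ⟨_, h1.invOn_invFunOn.symm.bijOn h1.surjOn.mapsTo_invFunOn h1.mapsTo⟩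

theorem opt_pow {Y : Type} (τ : Equiv.Perm Y) (m : ℕ) :
    (Equiv.optionCongr τ : Equiv.Perm (Option Y)) ^ m = Equiv.optionCongr (τ ^ m) := by
  induction m with
  | zero =>
    rw [pow_zero, pow_zero]
    exact Equiv.optionCongr_refl.symm
  | succ n ih =>
    rw [pow_succ, pow_succ, ih]
    ext o
    cases o <;> simp [Equiv.Perm.mul_apply]

theorem opt_fix {Y : Type} (τ : Equiv.Perm Y)
    (hfix : ∀ m : ℕ, 0 < m → {y | (τ ^ m) y = y}.Finite) (m : ℕ) (hm : 0 < m) :
    {y | ((Equiv.optionCongr τ : Equiv.Perm (Option Y)) ^ m) y = y}.Finite := by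
  refine (((hfix m hm).image some).insert none).subset ?_
  intro o ho
  rw [opt_pow] at ho
  cases o with
  | none => exact Or.inl rfl
  | some y =>
    refine Or.inr ⟨y, ?_, rfl⟩
    have h1 : some ((τ ^ m) y) = some y := ho
    exact Option.some_injective _ h1

theorem invId_finite [IsAlgClosed k] [IsDedekindDomain R] (h : OnePt k dg) (p e : ℕ)
    [Fact p.Prime] [CharP k p] (he : 0 < e) (F : Fr k dg (p ^ e)) (N : ℕ) :
    (invId F N).Finite := by
  have h1 := ide' h F N
  rw [← h1.image_eq]
  refine Set.Finite.image _ (ED_finite _ ?_ N)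
  exact opt_fix (hperm F.s) (fun m hm => fixed_pow_finite h p e he F m hm)

end Pool.Agent.H71.AS
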