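import Mathlib

/-!
# [H71 AS LGA] Lang's theorem, part a: a nonzero fixed vector

Mathlib only.  `k` algebraically closed of characteristic `p`, `Q = p ^ e`, `e > 0`, `V ≠ 0` finite
dimensional, `s : V ≃+ V` with `s (c v) = c ^ Q s v`.  Then `s` has a nonzero fixed vector.

Proof.  Choose `v ≠ 0` and put `v_i = s^i v`.  Let `d ≥ 1` be the least number such that
`v_0, .., v_d` are linearly dependent (exists since `V` is finite dimensional; `d ≥ 1` as
`v_0 ≠ 0`).  `v_0, .., v_(d-1)` are independent and `v_d = ∑_(i<d) a_i v_i`.  Not all `a_i` are zero,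
since `v_d = s^d v ≠ 0`.
Look for `w = ∑_(i<d) x_i v_i` with `s w = w`:
`s w = ∑_(i<d) x_i^Q v_(i+1) = ∑_(1≤i<d) x_(i-1)^Q v_i + x_(d-1)^Q ∑ a_i v_i`.  So it is enough that
`x_0 = a_0 y^Q`, `x_i = x_(i-1)^Q + a_i y^Q` for `1 ≤ i < d`, and `x_(d-1) = y`.  Define `x_i` as
polynomials in the unknown `y` by the first two formulas:
`x_i(y) = ∑_(j≤i) a_j^(Q^(i-j)) y^(Q^(i-j+1))`.
The last condition is `f(y) = 0` with
`f = ∑_(j<d) a_j^(Q^(d-1-j)) Y^(Q^(d-j)) - Y`.  `f` has derivative `-1` (all other exponents are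
divisible by `p`), so it is separable, and its degree is `≥ Q > 1`, since some `a_j ≠ 0`.  So `f` has
at least two different roots, hence a root `y ≠ 0`
(`IsAlgClosed.card_roots...`/`Polynomial.nodup_roots`, `f.Separable`, number of roots = degree; or:
`f = Y * f1` with `f1(0) = -1`, `deg f1 ≥ 1`, and any root of `f1` is nonzero: no separability is
needed!).  For this `y`: `x_(d-1) = y ≠ 0`, so `w ≠ 0` (independence of the `v_i`), and `s w = w`.
(With `f1 = ∑ a_j^(..) Y^(Q^(d-j) - 1) - 1`: not constant as some `a_j ≠ 0` and the exponents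
`Q^(d-j) - 1` are positive and pairwise different; `IsAlgClosed.exists_root`.)
-/

namespace Pool.Agent.H71.AS

theorem exists_fixed {k V : Type} [Field k] [IsAlgClosed k] [AddCommGroup V] [Module k V]
    [FiniteDimensional k V] [Nontrivial V] (Q : ℕ) (hQ : 1 < Q) (s : V ≃+ V)
    (hs : ∀ (c : k) (v : V), s (c • v) = c ^ Q • s v) : ∃ v : V, v ≠ 0 ∧ s v = v := by
  classical
  obtain ⟨v, hv⟩ := exists_ne (0 : V)
  let u : ℕ → V := fun i => (s^[i]) v
  have hus : ∀ i, s (u i) = u (i + 1) := fun i => (Function.iterate_succ_apply' s i v).symm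
  have hu0 : ∀ i, u i ≠ 0 := by
    intro i
    induction i with
    | zero => exact hv
    | succ i ih =>
      rw [← hus]
      intro h0
      exact ih (s.map_eq_zero_iff.mp h0)
  -- the first dependent one
  have hex : ∃ n, ¬ LinearIndependent k (fun i : Fin n => u i) := by
    refine ⟨Module.finrank k V + 1, fun hli => ?_⟩
    have h1 := hli.fintype_card_le_finrank
    rw [Fintype.card_fin] at h1
    omega
  obtain ⟨n, hn, hmin⟩ : ∃ n, ¬ LinearIndependent k (fun i : Fin n => u i) ∧
      ∀ m < n, LinearIndependent k (fun i : Fin m => u i) :=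
    ⟨Nat.find hex, Nat.find_spec hex, fun m hm => not_not.mp (Nat.find_min hex hm)⟩
  have hn0 : n ≠ 0 := by
    rintro rfl
    exact hn linearIndependent_empty_type
  have hn1 : n ≠ 1 := by
    rintro rfl
    apply hn
    rw [linearIndependent_unique_iff]
    exact hu0 _
  obtain ⟨m, rfl⟩ : ∃ m, n = m + 2 := ⟨n - 2, by omega⟩
  have hli : LinearIndependent k (fun i : Fin (m + 1) => u i) := hmin (m + 1) (by omega)
  have hspan : u (m + 1) ∈ Submodule.span k (Set.range (fun i : Fin (m + 1) => u i)) := by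
    by_contra hno
    apply hn
    rw [linearIndependent_finSucc']
    exact ⟨hli, hno⟩
  rw [Submodule.mem_span_range_iff_exists_fun] at hspan
  obtain ⟨a₀, ha₀⟩ := hspan
  obtain ⟨a, ha⟩ : ∃ a : ℕ → k, ∀ i : Fin (m + 1), a i = a₀ i :=
    ⟨fun i => if h : i < m + 1 then a₀ ⟨i, h⟩ else 0, fun i => dif_pos i.2⟩
  have hum : ∑ i ∈ Finset.range (m + 1), a i • u i = u (m + 1) := by
    rw [← ha₀, Finset.sum_range]
    exact Finset.sum_congr rfl fun i _ => by rw [ha]
  have hane : ∃ i, i < m + 1 ∧ a i ≠ 0 := by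
    by_contra hcon
    apply hu0 (m + 1)
    rw [← hum]
    refine Finset.sum_eq_zero fun i hi => ?_
    have h1 : a i = 0 := by
      by_contra h2
      exact hcon ⟨i, Finset.mem_range.mp hi, h2⟩
    rw [h1, zero_smul]
  -- the polynomials
  let Z : ℕ → Polynomial k := fun i => Nat.rec (Polynomial.C (a 0))
    (fun i z => Polynomial.X ^ (Q * (Q - 1)) * z ^ Q + Polynomial.C (a (i + 1))) i
  have hZ0 : Z 0 = Polynomial.C (a 0) := rfl
  have hZs : ∀ i, Z (i + 1) = Polynomial.X ^ (Q * (Q - 1)) * (Z i) ^ Q +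
      Polynomial.C (a (i + 1)) := fun i => rfl
  have hZne : ∀ i, (∃ j, j ≤ i ∧ a j ≠ 0) → Z i ≠ 0 := by
    intro i
    induction i with
    | zero =>
      rintro ⟨j, hj, haj⟩
      have h1 : j = 0 := by omega
      rw [h1] at haj
      rw [hZ0]
      exact fun h2 => haj (Polynomial.C_eq_zero.mp h2)
    | succ i ih =>
      rintro ⟨j, hj, haj⟩ h0
      rw [hZs] at h0
      rcases eq_or_ne (Z i) 0 with hzi | hzi
      · have h1 : ¬ j ≤ i := fun h2 => ih ⟨j, h2, haj⟩ hzi
        have h2 : j = i + 1 := by omega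
        rw [hzi, zero_pow (by omega), mul_zero, zero_add, ← h2] at h0
        exact haj (Polynomial.C_eq_zero.mp h0)
      · have h1 : Polynomial.X ^ (Q * (Q - 1)) * (Z i) ^ Q = - Polynomial.C (a (i + 1)) :=
          eq_neg_of_add_eq_zero_left h0
        have h2 := congrArg Polynomial.natDegree h1
        rw [Polynomial.natDegree_mul (pow_ne_zero _ Polynomial.X_ne_zero) (pow_ne_zero _ hzi),
          Polynomial.natDegree_X_pow, Polynomial.natDegree_neg, Polynomial.natDegree_C] at h2
        have h3 : 0 < Q * (Q - 1) := Nat.mul_pos (by omega) (by omega)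
        omega
  have hZm : Z m ≠ 0 := by
    obtain ⟨i, hi, hai⟩ := hane
    exact hZne m ⟨i, by omega, hai⟩
  obtain ⟨y, hy⟩ := IsAlgClosed.exists_root
    (Polynomial.X ^ (Q - 1) * Z m - Polynomial.C 1 : Polynomial k) (by
      have h1 : (Polynomial.X ^ (Q - 1) * Z m : Polynomial k).natDegree = (Q - 1) +
          (Z m).natDegree := by
        rw [Polynomial.natDegree_mul (pow_ne_zero _ Polynomial.X_ne_zero) hZm,
          Polynomial.natDegree_X_pow]
      intro h2
      have h3 := Polynomial.natDegree_eq_zero_iff_degree_le_zero.mpr h2.le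
      rw [Polynomial.natDegree_sub_C, h1] at h3
      omega)
  have hyz : y ^ (Q - 1) * (Z m).eval y = 1 := by
    have h1 : (Polynomial.X ^ (Q - 1) * Z m - Polynomial.C 1 : Polynomial k).eval y = 0 := hy
    rw [Polynomial.eval_sub, Polynomial.eval_mul, Polynomial.eval_pow, Polynomial.eval_X,
      Polynomial.eval_C] at h1
    exact sub_eq_zero.mp h1
  have hy0 : y ≠ 0 := by
    rintro rfl
    rw [zero_pow (by omega), zero_mul] at hyz
    exact zero_ne_one hyz
  let c : ℕ → k := fun i => y ^ Q * (Z i).eval y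
  have hc0 : c 0 = a 0 * y ^ Q := by
    show y ^ Q * (Z 0).eval y = _
    rw [hZ0, Polynomial.eval_C, mul_comm]
  have hQQ : Q + Q * (Q - 1) = Q * Q := by
    obtain ⟨q, rfl⟩ : ∃ q, Q = q + 1 := ⟨Q - 1, by omega⟩
    simp only [Nat.add_sub_cancel]
    ring
  have hcs : ∀ i, c (i + 1) = (c i) ^ Q + a (i + 1) * y ^ Q := by
    intro i
    show y ^ Q * (Z (i + 1)).eval y = (y ^ Q * (Z i).eval y) ^ Q + _
    rw [hZs, Polynomial.eval_add, Polynomial.eval_mul, Polynomial.eval_pow, Polynomial.eval_pow,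
      Polynomial.eval_X, Polynomial.eval_C, mul_pow, ← pow_mul, ← hQQ, pow_add]
    ring
  have hcm : c m = y := by
    show y ^ Q * (Z m).eval y = y
    have h1 : y ^ Q = y * y ^ (Q - 1) := by
      rw [← pow_succ']
      congr 1
      omega
    rw [h1, mul_assoc, hyz, mul_one]
  refine ⟨∑ i ∈ Finset.range (m + 1), c i • u i, ?_, ?_⟩
  · intro h0
    rw [Finset.sum_range] at h0
    have h1 := Fintype.linearIndependent_iff.mp hli (fun i => c i) h0 (Fin.last m)
    apply hy0
    rw [← hcm]
    exact h1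
  · rw [map_sum]
    have h1 : ∀ i ∈ Finset.range (m + 1), s (c i • u i) = (c i) ^ Q • u (i + 1) := by
      intro i _
      rw [hs, hus]
    rw [Finset.sum_congr rfl h1, Finset.sum_range_succ, hcm, ← hum, Finset.smul_sum,
      Finset.sum_range_succ' (fun i => y ^ Q • a i • u i), ← add_assoc,
      Finset.sum_range_succ' (fun i => c i • u i), ← Finset.sum_add_distrib]
    congr 1
    · refine Finset.sum_congr rfl fun i _ => ?_
      rw [hcs, smul_smul, ← add_smul, mul_comm (y ^ Q)]
    · rw [hc0, smul_smul, mul_comm]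

end Pool.Agent.H71.AS
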