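import Pool.Agent.H71.AS.Lga

/-!
# [H71 AS LGB] Lang's theorem, part b: the number of fixed vectors

Proof by induction on `finrank k V` (generalizing `V`, `s`).  Dimension `0`: one vector.
Let `w ≠ 0` be a fixed vector (`exists_fixed`), `W = k w`, `V' = V ⧸ W`.  `s` induces
`s' : V' ≃+ V'` with the same property (`s` and `s⁻¹` map `W` into `W`: `s (c w) = c^Q w`, and
`s⁻¹ (c w) = c^(1/Q) w`, where `k` is perfect, or: every `c` is a `Q`-th power as `k` is
algebraically closed).  Consider the additive map `V^s → V'^(s')`.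
Its kernel is `{c w | c^Q = c}`, which has `Q` elements (`X^Q - X` is separable, its derivative is
`-1` since `p ∣ Q`; it splits, so it has exactly `Q` roots; in Mathlib: the roots of `X^Q - X` in an
algebraically closed field of characteristic `p`: `FiniteField.X_pow_card_sub_X_natDegree_eq`,
`galois_poly_separable`, `Polynomial.card_rootSet_eq_natDegree` etc.).
It is surjective: if `s v - v = b w`, look for `c` with `s (v - c w) = v - c w`, i.e.
`b - c^Q + c = 0`; `X^Q - X - b` has a root.
So `#V^s = Q * #V'^(s') = Q * Q^(d-1)`.  (Counting: all fibres of the additive map are cosets of the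
kernel: `Nat.card` of a group = `Nat.card` of the kernel times `Nat.card` of the range, e.g.
`AddSubgroup.card_eq_card_quotient_mul_card_addSubgroup` with `QuotientAddGroup.quotientKerEquivRange`;
or count with `Nat.card_sigma`.)
-/

namespace Pool.Agent.H71.AS

/-- the roots of `X ^ Q - X` -/
private theorem card_roots {k : Type} [Field k] [IsAlgClosed k] (p e : ℕ) [Fact p.Prime]
    [CharP k p] (he : 0 < e) : Nat.card {c : k // c ^ (p ^ e) = c} = p ^ e := by
  classical
  have hp : p.Prime := Fact.out
  have hsep : (Polynomial.X ^ (p ^ e) - Polynomial.X : Polynomial k).Separable :=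
    galois_poly_separable p _ (dvd_pow_self p he.ne')
  have hdeg : (Polynomial.X ^ (p ^ e) - Polynomial.X : Polynomial k).natDegree = p ^ e :=
    FiniteField.X_pow_card_pow_sub_X_natDegree_eq k he.ne' hp.one_lt
  have hne : (Polynomial.X ^ (p ^ e) - Polynomial.X : Polynomial k) ≠ 0 := by
    intro h0
    rw [h0, Polynomial.natDegree_zero] at hdeg
    exact (pow_pos hp.pos e).ne hdeg
  have hcard := Polynomial.splits_iff_card_roots.mp (IsAlgClosed.splits
    (Polynomial.X ^ (p ^ e) - Polynomial.X : Polynomial k))
  rw [hdeg] at hcard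
  have h1 : {c : k | c ^ (p ^ e) = c} =
      ((Polynomial.X ^ (p ^ e) - Polynomial.X : Polynomial k).roots.toFinset : Set k) := by
    ext c
    rw [Finset.mem_coe, Multiset.mem_toFinset, Polynomial.mem_roots hne, Polynomial.IsRoot.def,
      Polynomial.eval_sub, Polynomial.eval_pow, Polynomial.eval_X, sub_eq_zero]
    rfl
  have h2 : Nat.card {c : k // c ^ (p ^ e) = c} = {c : k | c ^ (p ^ e) = c}.ncard := rfl
  rw [h2, h1, Set.ncard_coe_finset, Multiset.toFinset_card_of_nodup (Polynomial.nodup_roots hsep),
    hcard]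

/-- the fixed vectors span the space -/
private theorem span_fixed {k V : Type} [Field k] [IsAlgClosed k] [AddCommGroup V] [Module k V]
    [FiniteDimensional k V] (Q : ℕ) (hQ : 1 < Q) (s : V ≃+ V)
    (hs : ∀ (c : k) (v : V), s (c • v) = c ^ Q • s v) :
    Submodule.span k {v : V | s v = v} = ⊤ := by
  classical
  obtain ⟨U, hU⟩ : ∃ U, U = Submodule.span k {v : V | s v = v} := ⟨_, rfl⟩
  rw [← hU]
  by_contra hne
  have hsU : ∀ v ∈ U, s v ∈ U := by
    intro v hv
    rw [hU] at hv ⊢
    induction hv using Submodule.span_induction with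
    | mem x hx =>
      have h1 : s x = x := hx
      rw [h1]
      exact Submodule.subset_span hx
    | zero => rw [map_zero]; exact Submodule.zero_mem _
    | add x y _ _ hx hy => rw [map_add]; exact Submodule.add_mem _ hx hy
    | smul c x _ hx => rw [hs]; exact Submodule.smul_mem _ _ hx
  have hsU' : ∀ v ∈ U, s.symm v ∈ U := by
    intro v hv
    rw [hU] at hv ⊢
    induction hv using Submodule.span_induction with
    | mem x hx =>
      have h1 : s x = x := hx
      have h2 : s.symm x = x := by
        rw [← h1, AddEquiv.symm_apply_apply, h1]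
      rw [h2]
      exact Submodule.subset_span hx
    | zero => rw [map_zero]; exact Submodule.zero_mem _
    | add x y _ _ hx hy => rw [map_add]; exact Submodule.add_mem _ hx hy
    | smul c x _ hx =>
      obtain ⟨d, hd⟩ := IsAlgClosed.exists_pow_nat_eq c (by omega : 0 < Q)
      have h1 : s.symm (c • x) = d • s.symm x := by
        apply s.injective
        rw [AddEquiv.apply_symm_apply, hs, AddEquiv.apply_symm_apply, hd]
      rw [h1]
      exact Submodule.smul_mem _ _ hx
  -- solving `s u - u = z` in `U`
  have hsolve : ∀ z ∈ U, ∀ c : k, ∃ u ∈ U, s u - u = c • z := by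
    intro z hz
    rw [hU] at hz
    induction hz using Submodule.span_induction with
    | mem x hx =>
      intro c
      obtain ⟨d, hd⟩ := IsAlgClosed.exists_root
        (Polynomial.X ^ Q - Polynomial.X - Polynomial.C c : Polynomial k) (by
          intro h2
          have h3 := Polynomial.natDegree_eq_zero_iff_degree_le_zero.mpr h2.le
          have h4 : (Polynomial.X ^ Q - Polynomial.X : Polynomial k).natDegree = Q :=
            FiniteField.X_pow_card_sub_X_natDegree_eq k hQ
          rw [Polynomial.natDegree_sub_C, h4] at h3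
          omega)
      have hd' : d ^ Q - d = c := by
        have h1 : (Polynomial.X ^ Q - Polynomial.X - Polynomial.C c : Polynomial k).eval d = 0 :=
          hd
        rw [Polynomial.eval_sub, Polynomial.eval_sub, Polynomial.eval_pow, Polynomial.eval_X,
          Polynomial.eval_C] at h1
        exact sub_eq_zero.mp h1
      refine ⟨d • x, ?_, ?_⟩
      · rw [hU]
        exact Submodule.smul_mem _ _ (Submodule.subset_span hx)
      · have h1 : s x = x := hx
        rw [hs, h1, ← sub_smul, hd']
    | zero =>
      intro c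
      exact ⟨0, Submodule.zero_mem _, by rw [map_zero, smul_zero, sub_zero]⟩
    | add x y _ _ hx hy =>
      intro c
      obtain ⟨u, hu, hu'⟩ := hx c
      obtain ⟨w, hw, hw'⟩ := hy c
      exact ⟨u + w, Submodule.add_mem _ hu hw, by rw [map_add, smul_add, ← hu', ← hw']; abel⟩
    | smul a x _ hx =>
      intro c
      obtain ⟨u, hu, hu'⟩ := hx (c * a)
      exact ⟨u, hu, by rw [hu', smul_smul]⟩
  -- the quotient
  haveI : Nontrivial (V ⧸ U) := Submodule.Quotient.nontrivial_iff.mpr hne
  let sq : V ⧸ U →+ V ⧸ U := QuotientAddGroup.map U.toAddSubgroup U.toAddSubgroup s.toAddMonoidHom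
    (fun v hv => hsU v hv)
  have hsq : ∀ v, sq (Submodule.Quotient.mk v) = Submodule.Quotient.mk (s v) := fun v => rfl
  have hbij : Function.Bijective sq := by
    constructor
    · rw [injective_iff_map_eq_zero]
      intro y hy
      obtain ⟨v, rfl⟩ := Submodule.Quotient.mk_surjective U y
      rw [hsq, Submodule.Quotient.mk_eq_zero] at hy
      rw [Submodule.Quotient.mk_eq_zero]
      have h1 := hsU' _ hy
      rwa [AddEquiv.symm_apply_apply] at h1
    · intro y
      obtain ⟨v, rfl⟩ := Submodule.Quotient.mk_surjective U y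
      exact ⟨Submodule.Quotient.mk (s.symm v), by rw [hsq, AddEquiv.apply_symm_apply]⟩
  obtain ⟨y, hy0, hy⟩ := exists_fixed (k := k) (V := V ⧸ U) Q hQ (AddEquiv.ofBijective sq hbij) (by
    intro c y
    obtain ⟨v, rfl⟩ := Submodule.Quotient.mk_surjective U y
    show sq (c • Submodule.Quotient.mk v) = c ^ Q • sq (Submodule.Quotient.mk v)
    rw [← Submodule.Quotient.mk_smul, hsq, hsq, hs, Submodule.Quotient.mk_smul])
  obtain ⟨v, rfl⟩ := Submodule.Quotient.mk_surjective U y
  have hy' : sq (Submodule.Quotient.mk v) = Submodule.Quotient.mk v := hy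
  rw [hsq, Submodule.Quotient.eq] at hy'
  obtain ⟨u, hu, hu'⟩ := hsolve _ hy' 1
  rw [one_smul] at hu'
  apply hy0
  rw [Submodule.Quotient.mk_eq_zero]
  have h1 : v - u ∈ U := by
    rw [hU]
    refine Submodule.subset_span ?_
    show s (v - u) = v - u
    rw [map_sub]
    have h2 : s v = s u - u + v := by
      rw [hu']
      abel
    rw [h2]
    abel
  have h2 := U.add_mem h1 hu
  rwa [sub_add_cancel] at h2

theorem card_fixed {k V : Type} [Field k] [IsAlgClosed k] [AddCommGroup V] [Module k V]
    [FiniteDimensional k V] (p e : ℕ) [Fact p.Prime] [CharP k p] (he : 0 < e) (s : V ≃+ V)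
    (hs : ∀ (c : k) (v : V), s (c • v) = c ^ (p ^ e) • s v) :
    Nat.card {v : V // s v = v} = (p ^ e) ^ Module.finrank k V := by
  classical
  have hp : p.Prime := Fact.out
  obtain ⟨Q, hQ⟩ : ∃ Q, Q = p ^ e := ⟨_, rfl⟩
  have hQ1 : 1 < Q := by
    rw [hQ]
    exact Nat.one_lt_pow he.ne' hp.one_lt
  rw [← hQ]
  rw [← hQ] at hs
  have hspan := span_fixed Q hQ1 s hs
  obtain ⟨ι, hι, b, hb⟩ : ∃ (ι : Type) (_ : Fintype ι) (b : Module.Basis ι k V),
      ∀ i, s (b i) = b i :=
    ⟨_, FiniteDimensional.fintypeBasisIndex (Module.Basis.ofSpan (top_le_iff.mpr hspan)),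
      Module.Basis.ofSpan (top_le_iff.mpr hspan), fun i => by
        have h1 : Module.Basis.ofSpan (top_le_iff.mpr hspan) i ∈ {v : V | s v = v} :=
          Module.Basis.ofSpan_subset (top_le_iff.mpr hspan) ⟨i, rfl⟩
        exact h1⟩
  have hcr : Nat.card {c : k // c ^ Q = c} = Q := by
    rw [hQ]
    exact card_roots p e he
  have hgoal : Q ^ Module.finrank k V = Nat.card (ι → {c : k // c ^ Q = c}) := by
    rw [Nat.card_fun, hcr, Module.finrank_eq_card_basis b, ← Nat.card_eq_fintype_card]
  rw [hgoal]
  have hsv : ∀ v : V, s v = ∑ i, (b.equivFun v i) ^ Q • b i := by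
    intro v
    conv_lhs => rw [← b.sum_equivFun v]
    rw [map_sum]
    exact Finset.sum_congr rfl fun i _ => by rw [hs, hb]
  have hiff : ∀ v : V, s v = v ↔ ∀ i, (b.equivFun v i) ^ Q = b.equivFun v i := by
    intro v
    constructor
    · intro h1 i
      have h2 := congrArg (fun w => b.equivFun w i) h1
      simp only [hsv v] at h2
      rw [b.equivFun_apply, Module.Basis.repr_sum_self] at h2
      exact h2
    · intro h1
      rw [hsv v]
      conv_rhs => rw [← b.sum_equivFun v]
      exact Finset.sum_congr rfl fun i _ => by rw [h1 i]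
  refine Nat.card_congr ?_
  refine (b.equivFun.toEquiv.subtypeEquiv (p := fun v => s v = v)
    (q := fun f => ∀ i, (f i) ^ Q = f i) hiff).trans ?_
  exact Equiv.subtypePiEquivPi (β := fun _ : ι => k) (p := fun _ c => c ^ Q = c)

end Pool.Agent.H71.AS
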