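import Pool.Agent.H71.AS.Quo

/-!
# [H71 AS RIE] Riemann's theorem for ideals

Proof.  `quot_finite`: choose `0 ≠ a ∈ J`; `R ⧸ J` is a quotient of `R ⧸ (a)`
(`Ideal.Quotient.factorₐ`, surjective), which is finite by `quo_finite`.
`riemann`: the map `le h D →ₗ[k] R ⧸ J` has kernel isomorphic to `Id k J ⊓ le h D`, so
`finrank (le h D) = finrank (range) + finrank (Id k J ⊓ le h D) ≤ ideg k J + finrank (..)`; use
`finrank_le_ge`.
`exists_small`: `D = ideg k J + gen dg` in `riemann`: `finrank (Id k J ⊓ le h D) ≥ 1`.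
`quot_surj`: take `a` from `exists_small`.  `dg a + 2 * gen dg ≤ ideg k J + 3 * gen dg ≤ D + 1`,
so `quo_surj` applies to `a`, and `Ideal.span {a} ≤ J`.
`riemann_eq`: the map `le h D → R ⧸ J` is onto by `quot_surj`, so
`finrank (le h D) = ideg k J + finrank (Id k J ⊓ le h D)`, and `finrank_le_eq` applies since
`2 * gen dg ≤ D + 1`.
-/

namespace Pool.Agent.H71.AS

open Pool.H93.OP

variable {k R : Type} [Field k] [CommRing R] [IsDomain R] [Algebra k R] {dg : R → ℕ}


private noncomputable def qm (h : OnePt k dg) (J : Ideal R) (D : ℕ) : le h D →ₗ[k] (R ⧸ J) :=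
  (Ideal.Quotient.mkₐ k J).toLinearMap ∘ₗ (le h D).subtype

private theorem qm_apply (h : OnePt k dg) (J : Ideal R) (D : ℕ) (x : le h D) :
    qm h J D x = Ideal.Quotient.mk J (x : R) := rfl

private theorem ker_map (h : OnePt k dg) (J : Ideal R) (D : ℕ) :
    Submodule.map (le h D).subtype (LinearMap.ker (qm h J D)) = Id k J ⊓ le h D := by
  ext a
  rw [Submodule.mem_map, Submodule.mem_inf, mem_Id]
  constructor
  · rintro ⟨x, hx, rfl⟩
    rw [LinearMap.mem_ker, qm_apply, Ideal.Quotient.eq_zero_iff_mem] at hx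
    exact ⟨hx, x.2⟩
  · rintro ⟨h1, h2⟩
    refine ⟨⟨a, h2⟩, ?_, rfl⟩
    rw [LinearMap.mem_ker, qm_apply, Ideal.Quotient.eq_zero_iff_mem]
    exact h1

private theorem rank_eq (h : OnePt k dg) (J : Ideal R) (D : ℕ) :
    Module.finrank k (LinearMap.range (qm h J D)) + Module.finrank k ↥(Id k J ⊓ le h D)
      = Module.finrank k (le h D) := by
  have := le_finite h D
  rw [← ker_map h J D, Submodule.finrank_map_subtype_eq]
  exact LinearMap.finrank_range_add_finrank_ker (qm h J D)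

theorem quot_finite (h : OnePt k dg) (J : Ideal R) (hJ : J ≠ ⊥) : Module.Finite k (R ⧸ J) := by
  obtain ⟨a, haJ, ha⟩ := (Submodule.ne_bot_iff J).mp hJ
  have := quo_finite h a ha
  have hle : Ideal.span {a} ≤ J := by
    rw [Ideal.span_le]
    intro x hx
    rw [Set.mem_singleton_iff] at hx
    rw [hx]
    exact haJ
  exact Module.Finite.of_surjective (Ideal.Quotient.factorₐ k hle).toLinearMap
    (Ideal.Quotient.factor_surjective hle)

theorem riemann (h : OnePt k dg) (J : Ideal R) (hJ : J ≠ ⊥) (D : ℕ) :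
    D + 1 ≤ Module.finrank k ↥(Id k J ⊓ le h D) + ideg k J + gen dg := by
  have := quot_finite h J hJ
  have h1 := rank_eq h J D
  have h2 : Module.finrank k (LinearMap.range (qm h J D)) ≤ ideg k J :=
    Submodule.finrank_le _
  have h3 := finrank_le_ge h D
  omega

theorem exists_small (h : OnePt k dg) (J : Ideal R) (hJ : J ≠ ⊥) :
    ∃ a ∈ J, a ≠ 0 ∧ dg a ≤ ideg k J + gen dg := by
  have h1 := riemann h J hJ (ideg k J + gen dg)
  have h2 : 0 < Module.finrank k ↥(Id k J ⊓ le h (ideg k J + gen dg)) := by omega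
  have : Nontrivial ↥(Id k J ⊓ le h (ideg k J + gen dg)) :=
    Module.nontrivial_of_finrank_pos h2
  obtain ⟨x, hx⟩ := exists_ne (0 : ↥(Id k J ⊓ le h (ideg k J + gen dg)))
  have hx2 := x.2
  rw [Submodule.mem_inf, mem_Id, mem_le] at hx2
  exact ⟨x.1, hx2.1, fun h0 => hx (Subtype.ext h0), hx2.2⟩

theorem quot_surj (h : OnePt k dg) (J : Ideal R) (hJ : J ≠ ⊥) {D : ℕ}
    (hD : ideg k J + 3 * gen dg ≤ D + 1) (r : R) : ∃ b ∈ le h D, r - b ∈ J := by
  obtain ⟨a, haJ, ha, had⟩ := exists_small h J hJ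
  obtain ⟨b, hb, hbr⟩ := quo_surj h a ha (D := D) (by omega) r
  refine ⟨b, hb, ?_⟩
  have hle : Ideal.span {a} ≤ J := by
    rw [Ideal.span_le]
    intro x hx
    rw [Set.mem_singleton_iff] at hx
    rw [hx]
    exact haJ
  exact hle hbr

theorem riemann_eq (h : OnePt k dg) (J : Ideal R) (hJ : J ≠ ⊥) {D : ℕ}
    (hD : ideg k J + 3 * gen dg ≤ D + 1) :
    Module.finrank k ↥(Id k J ⊓ le h D) + ideg k J + gen dg = D + 1 := by
  have := quot_finite h J hJ
  have h1 := rank_eq h J D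
  have hs : LinearMap.range (qm h J D) = ⊤ := by
    rw [LinearMap.range_eq_top]
    intro y
    obtain ⟨r, rfl⟩ := Ideal.Quotient.mk_surjective y
    obtain ⟨b, hb, hbr⟩ := quot_surj h J hJ hD r
    refine ⟨⟨b, hb⟩, ?_⟩
    rw [qm_apply]
    exact (Ideal.Quotient.eq.mpr hbr).symm
  rw [hs, finrank_top] at h1
  have h3 := finrank_le_eq h (D := D) (by omega)
  unfold ideg
  omega

end Pool.Agent.H71.AS
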