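import Pool.Agent.H71.AS.Lgb
import Pool.Agent.H71.AS.Rie

/-!
# [H71 AS LIN] Counting stable principal ideals in a stable ideal

Notation: `Q = p ^ e`, `V = Id k J ⊓ le h D`, a finite dimensional space (`le_finite`), stable under
`F.s` in both directions (`Inv F J`, `F.pres`), so `F.s` restricts to `s : V ≃+ V` with
`s (c v) = c^Q s v`.
`exists_fixed_mem`: for `D = ideg k J + gen dg` the space `V` is not zero (`exists_small`), so
`exists_fixed` (LGA) gives `0 ≠ a ∈ J` with `F.s a = a`.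
`exists_fixed_large`: `J = ⊤`, `D = gen dg + 1`: `finrank (le h D) ≥ 2` (`finrank_le_ge`), so there are
`Q^d ≥ Q^2` fixed vectors (`card_fixed`), but the fixed constants are the `c ∈ k` with `c^Q = c`, at
most `Q` of them (roots of `X^Q - X`); so there is a fixed vector which is no constant, and it has
positive degree (`exists_const`).
`lines`: let `A` be the set of the fixed vectors `≠ 0` in `V`; `#A = Q^d - 1`.  The map `a ↦ (a)` sends
`A` to the set `X` of the statement ((a) is stable: `F.s (r a) = F.s r * a`).  It is onto: if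
`(a) ∈ X`, `a ∈ V`, then `(F.s a) = (a)` (`Inv F (a)`), so `F.s a = u a` with a unit `u`, and
`dg u = 0` (`F.pres`), so `u = λ ∈ k`, `λ ≠ 0`.  Choose `μ ≠ 0` with `μ^(Q-1) = λ⁻¹`
(`IsAlgClosed.exists_pow_nat_eq`, `Q ≥ 2`); then `F.s (μ a) = μ^Q λ a = μ a` and `(μ a) = (a)`.
Fibres: for `a, b ∈ A`, `(a) = (b)` iff `b = c a` with `c ∈ k`, `c^Q = c`, `c ≠ 0` (as above,
`b = u a`, `dg u = 0`); so every fibre has `Q - 1` elements (the equation `c^(Q-1) = 1` has exactly
`Q - 1` solutions, `p ∤ Q - 1`).  Hence `Q^d - 1 = (Q - 1) * #X`.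
-/

namespace Pool.Agent.H71.AS

open Pool.H93.OP

variable {k R : Type} [Field k] [CommRing R] [IsDomain R] [Algebra k R] {dg : R → ℕ}


/-- the restriction of the Frobenius automorphism -/
private def resS (h : OnePt k dg) {Q : ℕ} (F : Fr k dg Q) (J : Ideal R) (hJ : Inv F J) (D : ℕ) :
    ↥(Id k J ⊓ le h D) ≃+ ↥(Id k J ⊓ le h D) where
  toFun v := ⟨F.s v, (hJ v).mpr v.2.1, by
    show dg (F.s v) ≤ D
    rw [F.pres]
    exact v.2.2⟩
  invFun v := ⟨F.s.symm v, by
      show F.s.symm v ∈ J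
      rw [← hJ, RingEquiv.apply_symm_apply]
      exact v.2.1, by
      show dg (F.s.symm v) ≤ D
      rw [← F.pres, RingEquiv.apply_symm_apply]
      exact v.2.2⟩
  left_inv v := Subtype.ext (F.s.symm_apply_apply v)
  right_inv v := Subtype.ext (F.s.apply_symm_apply v)
  map_add' v w := Subtype.ext (map_add F.s _ _)

private theorem resS_smul (h : OnePt k dg) {Q : ℕ} (F : Fr k dg Q) (J : Ideal R) (hJ : Inv F J)
    (D : ℕ) (c : k) (v : ↥(Id k J ⊓ le h D)) :
    resS h F J hJ D (c • v) = c ^ Q • resS h F J hJ D v := Subtype.ext (F.semi c v)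

private theorem res_fin (h : OnePt k dg) (J : Ideal R) (D : ℕ) :
    FiniteDimensional k ↥(Id k J ⊓ le h D) := by
  haveI : FiniteDimensional k (le h D) := le_finite h D
  exact Submodule.finiteDimensional_of_le (S₂ := le h D) inf_le_right

/-- the fixed constants -/
private theorem card_q {k : Type} [Field k] [IsAlgClosed k] (p e : ℕ) [Fact p.Prime]
    [CharP k p] (he : 0 < e) : Nat.card {c : k // c ^ (p ^ e) = c} = p ^ e := by
  haveI : ExpChar k p := ExpChar.prime Fact.out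
  have h1 := card_fixed (V := k) p e he (iterateFrobeniusEquiv k p e).toAddEquiv (by
    intro c v
    show iterateFrobenius k p e (c * v) = c ^ (p ^ e) * iterateFrobenius k p e v
    rw [iterateFrobenius_def, iterateFrobenius_def, mul_pow])
  rw [Module.finrank_self, pow_one] at h1
  refine (Nat.card_congr (Equiv.subtypeEquivRight fun c => ?_)).trans h1
  show c ^ (p ^ e) = c ↔ iterateFrobenius k p e c = c
  rw [iterateFrobenius_def]

theorem exists_fixed_mem [IsAlgClosed k] (h : OnePt k dg) (p e : ℕ) [Fact p.Prime] [CharP k p]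
    (he : 0 < e) (F : Fr k dg (p ^ e)) (J : Ideal R) (hJ : Inv F J) (hJ0 : J ≠ ⊥) :
    ∃ a ∈ J, a ≠ 0 ∧ F.s a = a := by
  have hp : p.Prime := Fact.out
  have hQ1 : 1 < p ^ e := Nat.one_lt_pow he.ne' hp.one_lt
  obtain ⟨a, haJ, ha0, had⟩ := exists_small h J hJ0
  haveI := res_fin h J (ideg k J + gen dg)
  haveI : Nontrivial ↥(Id k J ⊓ le h (ideg k J + gen dg)) :=
    ⟨⟨⟨a, haJ, had⟩, 0, fun h0 => ha0 (congrArg Subtype.val h0)⟩⟩
  obtain ⟨v, hv0, hv⟩ := exists_fixed (p ^ e) hQ1 (resS h F J hJ (ideg k J + gen dg))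
    (resS_smul h F J hJ _)
  exact ⟨v, v.2.1, fun h0 => hv0 (Subtype.ext h0), congrArg Subtype.val hv⟩

theorem exists_fixed_large [IsAlgClosed k] (h : OnePt k dg) (p e : ℕ) [Fact p.Prime]
    [CharP k p] (he : 0 < e) (F : Fr k dg (p ^ e)) : ∃ a : R, 0 < dg a ∧ F.s a = a := by
  classical
  have hp : p.Prime := Fact.out
  have hQ1 : 1 < p ^ e := Nat.one_lt_pow he.ne' hp.one_lt
  by_contra hcon
  have hJ : Inv F (⊤ : Ideal R) := fun a => ⟨fun _ => trivial, fun _ => trivial⟩
  obtain ⟨D, hD⟩ : ∃ D, D = gen dg + 1 := ⟨_, rfl⟩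
  haveI := res_fin h (⊤ : Ideal R) D
  have hfr : 2 ≤ Module.finrank k ↥(Id k (⊤ : Ideal R) ⊓ le h D) := by
    have h1 : Id k (⊤ : Ideal R) ⊓ le h D = le h D := by
      refine inf_eq_right.mpr fun a _ => ?_
      exact (mem_Id k ⊤ a).mpr trivial
    rw [h1]
    have h2 := finrank_le_ge h D
    omega
  have hcard := card_fixed p e he (resS h F ⊤ hJ D) (resS_smul h F ⊤ hJ D)
  have hroots := card_q (k := k) p e he
  haveI : Finite {c : k // c ^ (p ^ e) = c} :=
    Nat.finite_of_card_ne_zero (by rw [hroots]; omega)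
  have hconst : ∀ v : {v // resS h F ⊤ hJ D v = v}, ∃ c : k, (v.1 : R) = algebraMap k R c := by
    intro v
    refine exists_const h _ ?_
    by_contra h0
    exact hcon ⟨(v.1 : R), Nat.pos_of_ne_zero h0, congrArg Subtype.val v.2⟩
  choose g hg using hconst
  have hgq : ∀ v, (g v) ^ (p ^ e) = g v := by
    intro v
    have h1 : F.s (v.1 : R) = (v.1 : R) := congrArg Subtype.val v.2
    have h3 : F.s (algebraMap k R (g v)) = algebraMap k R ((g v) ^ (p ^ e)) := by
      rw [Algebra.algebraMap_eq_smul_one, F.semi, map_one, ← Algebra.algebraMap_eq_smul_one]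
    rw [hg v, h3] at h1
    exact (algebraMap k R).injective h1
  have hle := Nat.card_le_card_of_injective
    (fun v : {v // resS h F ⊤ hJ D v = v} =>
      (⟨g v, hgq v⟩ : {c : k // c ^ (p ^ e) = c})) (by
    intro v w hvw
    have h1 : g v = g w := congrArg Subtype.val hvw
    apply Subtype.ext
    apply Subtype.ext
    rw [hg v, hg w, h1])
  rw [hcard, hroots] at hle
  have h2 : (p ^ e) ^ 2 ≤ (p ^ e) ^ Module.finrank k ↥(Id k (⊤ : Ideal R) ⊓ le h D) :=
    Nat.pow_le_pow_right (by omega) hfr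
  have h3 : p ^ e * 1 < p ^ e * p ^ e := Nat.mul_lt_mul_of_pos_left hQ1 (by omega)
  rw [pow_two] at h2
  omega

private theorem lines_aux [IsAlgClosed k] (h : OnePt k dg) (Q : ℕ) (hQ1 : 1 < Q)
    (F : Fr k dg Q) (J : Ideal R) (hJ : Inv F J) (D : ℕ)
    (hcard : Nat.card {v // resS h F J hJ D v = v} =
      Q ^ Module.finrank k ↥(Id k J ⊓ le h D))
    (hroots : Nat.card {c : k // c ^ Q = c} = Q) :
    {I : Ideal R | Inv F I ∧ ∃ a, a ≠ 0 ∧ a ∈ J ∧ dg a ≤ D ∧ I = Ideal.span {a}}.Finite ∧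
    (Q - 1) *
      {I : Ideal R | Inv F I ∧ ∃ a, a ≠ 0 ∧ a ∈ J ∧ dg a ≤ D ∧ I = Ideal.span {a}}.ncard + 1 =
      Q ^ Module.finrank k ↥(Id k J ⊓ le h D) := by
  classical
  have hsemi : ∀ (c : k) (a : R), F.s (c • a) = c ^ Q • F.s a := F.semi
  obtain ⟨X, hX⟩ : ∃ X, X = {I : Ideal R | Inv F I ∧ ∃ a, a ≠ 0 ∧ a ∈ J ∧ dg a ≤ D ∧
    I = Ideal.span {a}} := ⟨_, rfl⟩
  rw [← hX]
  obtain ⟨d, hd⟩ : ∃ d, d = Module.finrank k ↥(Id k J ⊓ le h D) := ⟨_, rfl⟩
  rw [← hd] at hcard ⊢
  -- the fixed vectors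
  let A : Set R := {a | a ≠ 0 ∧ a ∈ J ∧ dg a ≤ D ∧ F.s a = a}
  have hB : Nat.card {a : R // a ∈ J ∧ dg a ≤ D ∧ F.s a = a} = Q ^ d := by
    rw [← hcard]
    refine Nat.card_congr ⟨fun v => ⟨⟨v.1, v.2.1, v.2.2.1⟩, Subtype.ext v.2.2.2⟩,
      fun v => ⟨v.1.1, v.1.2.1, v.1.2.2, congrArg Subtype.val v.2⟩, fun v => rfl, fun v => rfl⟩
  have hBfin : Finite {a : R // a ∈ J ∧ dg a ≤ D ∧ F.s a = a} :=
    Nat.finite_of_card_ne_zero (by rw [hB]; positivity)
  have hBset : {a : R | a ∈ J ∧ dg a ≤ D ∧ F.s a = a} = insert 0 A := by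
    ext a
    constructor
    · intro ha
      by_cases h0 : a = 0
      · exact Or.inl h0
      · exact Or.inr ⟨h0, ha⟩
    · rintro (rfl | ha)
      · exact ⟨J.zero_mem, by rw [h.zero]; exact Nat.zero_le _, map_zero _⟩
      · exact ha.2
  have hBf : {a : R | a ∈ J ∧ dg a ≤ D ∧ F.s a = a}.Finite := hBfin
  have hAf : A.Finite := hBf.subset (by rw [hBset]; exact Set.subset_insert _ _)
  have hAcard : A.ncard + 1 = Q ^ d := by
    rw [← hB]
    show _ = {a : R | a ∈ J ∧ dg a ≤ D ∧ F.s a = a}.ncard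
    rw [hBset, Set.ncard_insert_of_notMem (fun h0 => h0.1 rfl) hAf]
  -- the constants
  let G : Set k := {c | c ≠ 0 ∧ c ^ Q = c}
  have hGcard : G.ncard + 1 = Q := by
    rw [← hroots]
    have hf : Finite {c : k // c ^ Q = c} := Nat.finite_of_card_ne_zero (by rw [hroots]; omega)
    have hfs : {c : k | c ^ Q = c}.Finite := hf
    have h1 : {c : k | c ^ Q = c} = insert 0 G := by
      ext c
      constructor
      · intro hc
        by_cases h0 : c = 0
        · exact Or.inl h0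
        · exact Or.inr ⟨h0, hc⟩
      · rintro (rfl | hc)
        · exact zero_pow (by omega)
        · exact hc.2
    show _ = {c : k | c ^ Q = c}.ncard
    rw [h1, Set.ncard_insert_of_notMem (fun h0 => h0.1 rfl)
      (hfs.subset (by rw [h1]; exact Set.subset_insert _ _))]
  -- generators of stable ideals are fixed up to constants
  have hunit : ∀ t a : R, a ≠ 0 → t ≠ 0 → dg (t * a) = dg a → ∃ c : k, c ≠ 0 ∧
      t = algebraMap k R c := by
    intro t a ha ht hta
    rw [h.mul t a ht ha] at hta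
    obtain ⟨c, hc⟩ := exists_const h t (by omega)
    refine ⟨c, ?_, hc⟩
    rintro rfl
    rw [map_zero] at hc
    exact ht hc
  have hXA : ∀ I ∈ X, ∃ a ∈ A, I = Ideal.span {a} := by
    intro I hI
    rw [hX] at hI
    obtain ⟨hinv, a, ha0, haJ, haD, rfl⟩ := hI
    have h1 : F.s a ∈ Ideal.span {a} := (hinv a).mpr (Ideal.mem_span_singleton_self a)
    obtain ⟨t, ht⟩ := Ideal.mem_span_singleton'.mp h1
    have hsa : F.s a ≠ 0 := fun h0 => ha0 (by
      rwa [map_eq_zero_iff F.s F.s.injective] at h0)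
    have ht0 : t ≠ 0 := by
      rintro rfl
      rw [zero_mul] at ht
      exact hsa ht.symm
    obtain ⟨c, hc0, hc⟩ := hunit t a ha0 ht0 (by rw [ht, F.pres])
    obtain ⟨m, hm⟩ := IsAlgClosed.exists_pow_nat_eq c⁻¹ (by omega : 0 < Q - 1)
    have hm0 : m ≠ 0 := by
      rintro rfl
      rw [zero_pow (by omega)] at hm
      exact inv_ne_zero hc0 hm.symm
    refine ⟨m • a, ⟨smul_ne_zero hm0 ha0, ?_, ?_, ?_⟩, ?_⟩
    · rw [Algebra.smul_def]
      exact J.mul_mem_left _ haJ
    · rw [h.smul m a hm0]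
      exact haD
    · have h2 : m ^ Q = m * m ^ (Q - 1) := by
        rw [← pow_succ']
        congr 1
        omega
      rw [hsemi, ← ht, hc, ← Algebra.smul_def, smul_smul, h2, hm, mul_assoc,
        inv_mul_cancel₀ hc0, mul_one]
    · rw [Ideal.span_singleton_eq_span_singleton]
      refine ⟨Units.map (algebraMap k R).toMonoidHom (Units.mk0 m hm0), ?_⟩
      rw [Algebra.smul_def, mul_comm]
      rfl
  have hAX : ∀ a ∈ A, Ideal.span {a} ∈ X := by
    rintro a ⟨ha0, haJ, haD, hsa⟩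
    rw [hX]
    refine ⟨fun r => ?_, a, ha0, haJ, haD, rfl⟩
    rw [Ideal.mem_span_singleton', Ideal.mem_span_singleton']
    constructor
    · rintro ⟨t, ht⟩
      refine ⟨F.s.symm t, ?_⟩
      apply F.s.injective
      rw [map_mul, RingEquiv.apply_symm_apply, hsa, ht]
    · rintro ⟨t, ht⟩
      refine ⟨F.s t, ?_⟩
      rw [← ht, map_mul, hsa]
  have hXf : X.Finite := by
    refine (hAf.image (fun a => Ideal.span {a})).subset ?_
    intro I hI
    obtain ⟨a, ha, rfl⟩ := hXA I hI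
    exact ⟨a, ha, rfl⟩
  refine ⟨hXf, ?_⟩
  choose g hgA hgI using hXA
  have hmain : A.ncard = G.ncard * X.ncard := by
    rw [← Set.ncard_prod]
    symm
    refine Set.ncard_congr (fun (z : k × Ideal R) (hz : z ∈ G ×ˢ X) => z.1 • g z.2 hz.2) ?_ ?_ ?_
    · rintro ⟨c, I⟩ hz
      obtain ⟨⟨hc0, hcQ⟩, hI⟩ := hz
      obtain ⟨h1, h2, h3, h4⟩ := hgA I hI
      refine ⟨smul_ne_zero hc0 h1, ?_, ?_, ?_⟩
      · show c • g I hI ∈ J
        rw [Algebra.smul_def]
        exact J.mul_mem_left _ h2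
      · show dg (c • g I hI) ≤ D
        rw [h.smul c _ hc0]
        exact h3
      · show F.s (c • g I hI) = c • g I hI
        rw [hsemi, h4, hcQ]
    · rintro ⟨c, I⟩ ⟨c', I'⟩ hz hz' he
      have he' : c • g I hz.2 = c' • g I' hz'.2 := he
      have hII : I = I' := by
        have hs : ∀ (c : k) (I : Ideal R) (hI : I ∈ X), c ≠ 0 →
            Ideal.span {c • g I hI} = I := by
          intro c I hI hc0
          conv_rhs => rw [hgI I hI]
          rw [Ideal.span_singleton_eq_span_singleton]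
          refine Associated.symm ⟨Units.map (algebraMap k R).toMonoidHom (Units.mk0 c hc0), ?_⟩
          rw [Algebra.smul_def, mul_comm]
          rfl
        rw [← hs c I hz.2 hz.1.1, he', hs c' I' hz'.2 hz'.1.1]
      subst hII
      have h1 : c = c' := smul_left_injective k (hgA I hz.2).1 he'
      rw [h1]
    · intro a ha
      have hI := hAX a ha
      have h1 := hgI _ hI
      rw [Ideal.span_singleton_eq_span_singleton] at h1
      obtain ⟨u, hu⟩ := h1.symm
      obtain ⟨h5, h6, h7, h8⟩ := hgA _ hI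
      have hu0 : (u : R) ≠ 0 := u.ne_zero
      have hdu : dg (u : R) = 0 := by
        have h9 := h.mul (u : R) ((u⁻¹ : Rˣ) : R) hu0 (u⁻¹).ne_zero
        rw [Units.mul_inv, dg_one h] at h9
        omega
      obtain ⟨c, hc⟩ := exists_const h _ hdu
      have hc0 : c ≠ 0 := by
        rintro rfl
        rw [map_zero] at hc
        exact hu0 hc
      have hac : c • g _ hI = a := by
        rw [Algebra.smul_def, ← hc, mul_comm]
        exact hu
      have hcQ : c ^ Q = c := by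
        have h9 : F.s (c • g _ hI) = c • g _ hI := by
          rw [hac]
          exact ha.2.2.2
        rw [hsemi, h8] at h9
        exact smul_left_injective k h5 h9
      exact ⟨(c, Ideal.span {a}), ⟨⟨hc0, hcQ⟩, hI⟩, hac⟩
  rw [← hAcard, hmain]
  have h1 : Q - 1 = G.ncard := by omega
  rw [h1]

theorem lines [IsAlgClosed k] (h : OnePt k dg) (p e : ℕ) [Fact p.Prime] [CharP k p]
    (he : 0 < e) (F : Fr k dg (p ^ e)) (J : Ideal R) (hJ : Inv F J) (D : ℕ) :
    {I : Ideal R | Inv F I ∧ ∃ a, a ≠ 0 ∧ a ∈ J ∧ dg a ≤ D ∧ I = Ideal.span {a}}.Finite ∧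
    (p ^ e - 1) *
      {I : Ideal R | Inv F I ∧ ∃ a, a ≠ 0 ∧ a ∈ J ∧ dg a ≤ D ∧ I = Ideal.span {a}}.ncard + 1 =
      (p ^ e) ^ Module.finrank k ↥(Id k J ⊓ le h D) := by
  have hp : p.Prime := Fact.out
  haveI := res_fin h J D
  exact lines_aux h (p ^ e) (Nat.one_lt_pow he.ne' hp.one_lt) F J hJ D
    (card_fixed p e he (resS h F J hJ D) (resS_smul h F J hJ D)) (card_q (k := k) p e he)

end Pool.Agent.H71.AS
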