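import Pool.Agent.H71.AS.Rie

/-!
# [H71 AS MUL] Multiplicativity of the degree of ideals

Proof.  `ideg_mul`: `I * J ≤ J`, so
`finrank (R ⧸ I * J) = finrank (R ⧸ J) + finrank (J ⧸ I * J)` (all finite by `quot_finite`; the kernel
of the surjection `R ⧸ (I * J) → R ⧸ J` is the image of `J`).  By
`IsDedekindDomain.exists_sup_span_eq` there is `c` with `I * J ⊔ span {c} = J`.  The `k`-linear map
`R → R ⧸ (I * J)`, `r ↦ r * c`, has range = the image of `J` = the kernel above, and its kernel is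
`{r | r * c ∈ I * J}` which equals `I`: if `r c ∈ I J` then
`(r) J = (r) (I J ⊔ (c)) ≤ I J`, so `(r) ≤ I` (cancel `J ≠ ⊥` in a Dedekind domain:
`Ideal.mul_le_mul_right_iff`?, or `Ideal.dvd_iff_le` and `mul_dvd_mul_iff_right`).  So the kernel of
`R ⧸ (I J) → R ⧸ J` has dimension `finrank (R ⧸ I)`.
`ideg_prime`: `R ⧸ P` is a domain, finite dimensional over the algebraically closed field `k`
(integral), so `algebraMap k (R ⧸ P)` is bijective
(`IsAlgClosed.algebraMap_bijective_of_isIntegral`) and its dimension is one.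
`ideg_eq_zero`: `finrank = 0` iff `R ⧸ I` is trivial iff `I = ⊤`.
-/

namespace Pool.Agent.H71.AS

open Pool.H93.OP

variable {k R : Type} [Field k] [CommRing R] [IsDomain R] [Algebra k R] {dg : R → ℕ}


theorem ideg_mul [IsDedekindDomain R] (h : OnePt k dg) (I J : Ideal R) (hI : I ≠ ⊥)
    (hJ : J ≠ ⊥) : ideg k (I * J) = ideg k I + ideg k J := by
  have hIJ : I * J ≠ ⊥ := mul_ne_zero hI hJ
  have hfin : Module.Finite k (R ⧸ I * J) := quot_finite h _ hIJ
  have hfin' : Module.Finite k (R ⧸ I) := quot_finite h _ hI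
  obtain ⟨c, hc⟩ := IsDedekindDomain.exists_sup_span_eq (Ideal.mul_le_right : I * J ≤ J) hIJ
  have hcJ : c ∈ J := by
    rw [← hc]
    exact Ideal.mem_sup_right (Ideal.mem_span_singleton_self c)
  let f : (R ⧸ I * J) →ₗ[k] (R ⧸ J) :=
    (Ideal.Quotient.factorₐ k (Ideal.mul_le_right : I * J ≤ J)).toLinearMap
  have hfmk : ∀ r : R, f (Ideal.Quotient.mk (I * J) r) = Ideal.Quotient.mk J r := fun r => rfl
  have hfs : Function.Surjective f := by
    intro y
    obtain ⟨r, rfl⟩ := Ideal.Quotient.mk_surjective y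
    exact ⟨Ideal.Quotient.mk _ r, hfmk r⟩
  let g' : (R ⧸ I) →ₗ[R] (R ⧸ I * J) :=
    Submodule.liftQ I (LinearMap.toSpanSingleton R (R ⧸ I * J) (Ideal.Quotient.mk (I * J) c)) (by
      intro r hr
      rw [LinearMap.mem_ker, LinearMap.toSpanSingleton_apply]
      show Ideal.Quotient.mk (I * J) (r * c) = 0
      rw [Ideal.Quotient.eq_zero_iff_mem]
      exact Ideal.mul_mem_mul hr hcJ)
  let g : (R ⧸ I) →ₗ[k] (R ⧸ I * J) := g'.restrictScalars k
  have hgmk : ∀ r : R, g (Ideal.Quotient.mk I r) = Ideal.Quotient.mk (I * J) (r * c) :=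
    fun r => rfl
  have hgi : Function.Injective g := by
    rw [← LinearMap.ker_eq_bot, LinearMap.ker_eq_bot']
    intro y hy
    obtain ⟨r, rfl⟩ := Ideal.Quotient.mk_surjective y
    rw [hgmk, Ideal.Quotient.eq_zero_iff_mem] at hy
    rw [Ideal.Quotient.eq_zero_iff_mem]
    have h1 : Ideal.span {r} * J ≤ I * J := by
      rw [← hc, Ideal.mul_sup, hc]
      refine sup_le ?_ ?_
      · exact Ideal.mul_le_right
      · rw [Ideal.span_singleton_mul_span_singleton, Ideal.span_singleton_le_iff_mem]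
        exact hy
    have h2 : I * J ∣ Ideal.span {r} * J := Ideal.dvd_iff_le.mpr h1
    have h3 : I ∣ Ideal.span {r} := (mul_dvd_mul_iff_right hJ).mp h2
    exact (Ideal.span_singleton_le_iff_mem I).mp (Ideal.dvd_iff_le.mp h3)
  have hgr : LinearMap.range g = LinearMap.ker f := by
    ext y
    obtain ⟨r, rfl⟩ := Ideal.Quotient.mk_surjective y
    rw [LinearMap.mem_ker, hfmk, Ideal.Quotient.eq_zero_iff_mem]
    constructor
    · rintro ⟨z, hz⟩
      obtain ⟨t, rfl⟩ := Ideal.Quotient.mk_surjective z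
      rw [hgmk, Ideal.Quotient.eq] at hz
      have h1 : t * c - r ∈ J := Ideal.mul_le_right hz
      have h2 : t * c ∈ J := J.mul_mem_left t hcJ
      have h3 := J.sub_mem h2 h1
      rwa [sub_sub_cancel] at h3
    · intro hr
      rw [← hc] at hr
      obtain ⟨u, hu, w, hw, huw⟩ := Submodule.mem_sup.mp hr
      obtain ⟨t, ht⟩ := Ideal.mem_span_singleton'.mp hw
      refine ⟨Ideal.Quotient.mk I t, ?_⟩
      rw [hgmk, ht, Ideal.Quotient.eq, ← huw]
      have h1 : w - (u + w) = -u := by ring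
      rw [h1]
      exact (I * J).neg_mem hu
  have h1 := LinearMap.finrank_range_add_finrank_ker f
  rw [LinearMap.range_eq_top.mpr hfs, finrank_top, ← hgr, LinearMap.finrank_range_of_inj hgi] at h1
  show Module.finrank k (R ⧸ I * J) = Module.finrank k (R ⧸ I) + Module.finrank k (R ⧸ J)
  omega

theorem ideg_prime [IsAlgClosed k] (h : OnePt k dg) (P : Ideal R) (hp : P.IsPrime)
    (hP : P ≠ ⊥) : ideg k P = 1 := by
  have hfin : Module.Finite k (R ⧸ P) := quot_finite h P hP
  have hdom : IsDomain (R ⧸ P) := Ideal.Quotient.isDomain P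
  have h1 : Function.Bijective (algebraMap k (R ⧸ P)) :=
    IsAlgClosed.algebraMap_bijective_of_isIntegral
  have h2 := (LinearEquiv.ofBijective (Algebra.linearMap k (R ⧸ P)) h1).finrank_eq
  show Module.finrank k (R ⧸ P) = 1
  rw [← h2, Module.finrank_self]

theorem ideg_eq_zero (h : OnePt k dg) (I : Ideal R) (hI : I ≠ ⊥) : ideg k I = 0 ↔ I = ⊤ := by
  have hfin : Module.Finite k (R ⧸ I) := quot_finite h I hI
  show Module.finrank k (R ⧸ I) = 0 ↔ I = ⊤
  rw [Module.finrank_zero_iff, Ideal.Quotient.subsingleton_iff]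

end Pool.Agent.H71.AS
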