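import Mathlib

/-!
# [H71 AS PWA] The numerator of the zeta function is a polynomial

Mathlib only.  Proof.  Let `Z = ∑ E N X^N` in `ℤ⟦X⟧` and `W = (1 - X) (1 - Q X) Z`, with the
coefficients `W_0 = E 0 = 1`, `W_1 = E 1 - (1 + Q) E 0`,
`W_N = E N - (1 + Q) E (N-1) + Q E (N-2)` for `N ≥ 2`.  For `N ≥ N0 + 2`, multiplying by `Q - 1` and
using `hE` for `N, N-1, N-2` (over `ℤ`; `Q ^ (N+1-g) ≥ 1`):
`(Q-1) W_N = h ((Q^a - 1) - (1+Q) (Q^(a-1) - 1) + Q (Q^(a-2) - 1)) = 0` with `a = N + 1 - g ≥ 2`.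
So `W_N = 0` for `N ≥ N0 + 2`, and `L = ∑_(N < N0+2) W_N X^N` (`PowerSeries.trunc`).
Value at `1`: `∑_(N ≤ M) W_N = E M - Q E (M-1)` by telescoping (induction on `M ≥ 1`); for
`M = N0 + 2`: `(Q-1) (E M - Q E (M-1)) = h (Q^a - 1 - Q^a + Q) = (Q-1) h`.
-/

namespace Pool.Agent.H71.AS

open Polynomial

theorem pwa (Q : ℕ) (hQ : 1 < Q) (g h : ℕ) (E : ℕ → ℕ) (h0 : E 0 = 1) (N0 : ℕ) (hN0 : g ≤ N0)
    (hE : ∀ N, N0 ≤ N → (Q - 1) * E N = h * (Q ^ (N + 1 - g) - 1)) :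
    ∃ L : ℤ[X], L.coeff 0 = 1 ∧ L.eval 1 = (h : ℤ) ∧ (L : PowerSeries ℤ) =
      (1 - PowerSeries.X) * (1 - PowerSeries.C (Q : ℤ) * PowerSeries.X) *
        PowerSeries.mk (fun N => (E N : ℤ)) := by
  have hE' : ∀ N, N0 ≤ N → ((Q : ℤ) - 1) * (E N : ℤ) = h * ((Q : ℤ) ^ (N + 1 - g) - 1) := by
    intro N hN
    have h1 := hE N hN
    have h2 : 1 ≤ Q ^ (N + 1 - g) := Nat.one_le_pow _ _ (by omega)
    have h3 : ((Q - 1 : ℕ) : ℤ) = (Q : ℤ) - 1 := by
      rw [Nat.cast_sub (by omega), Nat.cast_one]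
    have h4 : ((Q ^ (N + 1 - g) - 1 : ℕ) : ℤ) = (Q : ℤ) ^ (N + 1 - g) - 1 := by
      rw [Nat.cast_sub h2, Nat.cast_pow, Nat.cast_one]
    rw [← h3, ← h4]
    exact_mod_cast h1
  have hQ0 : ((Q : ℤ) - 1) ≠ 0 := by
    have : (1 : ℤ) < Q := by exact_mod_cast hQ
    omega
  set W : PowerSeries ℤ := (1 - PowerSeries.X) * (1 - PowerSeries.C (Q : ℤ) * PowerSeries.X) *
        PowerSeries.mk (fun N => (E N : ℤ)) with hW
  have hW' : W = PowerSeries.mk (fun N => (E N : ℤ)) -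
      PowerSeries.X * (PowerSeries.C (1 + Q : ℤ) * PowerSeries.mk (fun N => (E N : ℤ))) +
      PowerSeries.X * (PowerSeries.X * (PowerSeries.C (Q : ℤ) *
        PowerSeries.mk (fun N => (E N : ℤ)))) := by
    rw [hW, map_add, map_one]
    ring
  have hc0 : PowerSeries.coeff 0 W = 1 := by
    rw [hW']
    simp [h0]
  have hc1 : PowerSeries.coeff 1 W = (E 1 : ℤ) - (1 + Q) * E 0 := by
    rw [hW', map_add, map_sub]
    rw [show (1 : ℕ) = 0 + 1 from rfl, PowerSeries.coeff_succ_X_mul, PowerSeries.coeff_succ_X_mul]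
    simp
  have hc2 : ∀ n, PowerSeries.coeff (n + 2) W = (E (n + 2) : ℤ) - (1 + Q) * E (n + 1) + Q * E n := by
    intro n
    rw [hW', map_add, map_sub]
    rw [show n + 2 = (n + 1) + 1 from rfl, PowerSeries.coeff_succ_X_mul,
      PowerSeries.coeff_succ_X_mul, PowerSeries.coeff_succ_X_mul, PowerSeries.coeff_C_mul,
      PowerSeries.coeff_C_mul, PowerSeries.coeff_mk, PowerSeries.coeff_mk, PowerSeries.coeff_mk]
  have hzero : ∀ n, N0 + 2 ≤ n → PowerSeries.coeff n W = 0 := by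
    intro n hn
    obtain ⟨m, rfl⟩ : ∃ m, n = m + 2 := ⟨n - 2, by omega⟩
    rw [hc2]
    have e0 := hE' m (by omega)
    have e1 := hE' (m + 1) (by omega)
    have e2 := hE' (m + 2) (by omega)
    obtain ⟨a, ha⟩ : ∃ a, m + 1 - g = a := ⟨_, rfl⟩
    rw [ha] at e0
    rw [show m + 1 + 1 - g = a + 1 by omega] at e1
    rw [show m + 2 + 1 - g = a + 2 by omega] at e2
    have : ((Q : ℤ) - 1) * ((E (m + 2) : ℤ) - (1 + Q) * E (m + 1) + Q * E m) = 0 := by
      linear_combination e2 - (1 + Q) * e1 + Q * e0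
    exact (mul_eq_zero.mp this).resolve_left hQ0
  have hsum : ∀ M, ∑ i ∈ Finset.range (M + 2), PowerSeries.coeff i W =
      (E (M + 1) : ℤ) - Q * E M := by
    intro M
    induction M with
    | zero =>
      rw [Finset.sum_range_succ, Finset.sum_range_one, hc0, hc1, h0]
      push_cast
      ring
    | succ k ih =>
      rw [Finset.sum_range_succ, ih, hc2]
      ring
  refine ⟨PowerSeries.trunc (N0 + 2) W, ?_, ?_, ?_⟩
  · rw [PowerSeries.coeff_trunc, if_pos (by omega), hc0]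
  · rw [eval_eq_sum_range' (n := N0 + 2) (PowerSeries.natDegree_trunc_lt W (N0 + 1))]
    have h1 : ∑ i ∈ Finset.range (N0 + 2), (PowerSeries.trunc (N0 + 2) W).coeff i * (1 : ℤ) ^ i =
        ∑ i ∈ Finset.range (N0 + 2), PowerSeries.coeff i W := by
      apply Finset.sum_congr rfl
      intro i hi
      rw [one_pow, mul_one, PowerSeries.coeff_trunc, if_pos (Finset.mem_range.mp hi)]
    rw [h1, hsum]
    have e0 := hE' N0 le_rfl
    have e1 := hE' (N0 + 1) (by omega)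
    obtain ⟨a, ha⟩ : ∃ a, N0 + 1 - g = a := ⟨_, rfl⟩
    rw [ha] at e0
    rw [show N0 + 1 + 1 - g = a + 1 by omega] at e1
    have : ((Q : ℤ) - 1) * (((E (N0 + 1) : ℤ) - Q * E N0) - h) = 0 := by
      linear_combination e1 - Q * e0
    have := (mul_eq_zero.mp this).resolve_left hQ0
    linarith
  · ext n
    rw [Polynomial.coeff_coe, PowerSeries.coeff_trunc]
    split_ifs with hn
    · rfl
    · rw [hzero n (by omega)]

end Pool.Agent.H71.AS
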