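import Pool.Agent.H71.AS.Bas

/-!
# [H71 AS QUO] The quotient by a principal ideal

Proof.  Let `a ≠ 0`, `m = dg a`.  For every `D` let `f_D : le h D →ₗ[k] R ⧸ (a)` be the quotient map
(`(Ideal.Quotient.mkₐ k _).toLinearMap ∘ₗ (le h D).subtype`).  Its kernel is isomorphic to
`le h (D - m)` for `m ≤ D` (multiplication by `a`: `a * b ∈ le h D ↔ dg b ≤ D - m` or `b = 0`).
Let `D + 1 ≥ m + 2 * gen dg`.  By `finrank_le_eq` (both for `D` and `D - m`; if `gen dg = 0` and
`D + 1 = m` then `D - m` has to be read as the zero space: treat `D < m` separately: the kernel is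
`0` and `finrank (le h D) = D + 1 = m`) the range of `f_D` has dimension `m`
(`LinearMap.finrank_range_add_finrank_ker`).  The ranges of `f_D`, `D + 1 ≥ m + 2 * gen dg`,
form an increasing chain of subspaces of the same finite dimension, so they are all equal
(`Submodule.eq_of_le_of_finrank_eq`), and every class is in one of them.  So `f_D` is onto for each
such `D`.  This gives the three statements.
-/

namespace Pool.Agent.H71.AS

open Pool.H93.OP

variable {k R : Type} [Field k] [CommRing R] [IsDomain R] [Algebra k R] {dg : R → ℕ}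


/-- the classes of the elements of degree at most `D` -/
private noncomputable def qW (h : OnePt k dg) (a : R) (D : ℕ) : Submodule k (R ⧸ Ideal.span {a}) :=
  (le h D).map (Ideal.Quotient.mkₐ k (Ideal.span {a})).toLinearMap

private theorem q_dg_mul_le (h : OnePt k dg) (a b : R) (ha : a ≠ 0) {D : ℕ} (hD : dg a ≤ D) :
    dg (a * b) ≤ D ↔ dg b ≤ D - dg a := by
  by_cases hb : b = 0
  · rw [hb, mul_zero, h.zero]
    simp
  · rw [h.mul a b ha hb]
    omega

private theorem q_rank (h : OnePt k dg) (a : R) (ha : a ≠ 0) {D : ℕ}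
    (hD : dg a + 2 * gen dg ≤ D + 1) : Module.finrank k (qW h a D) = dg a := by
  have hfin := le_finite h D
  let f : le h D →ₗ[k] (R ⧸ Ideal.span {a}) :=
    ((Ideal.Quotient.mkₐ k (Ideal.span {a})).toLinearMap).domRestrict (le h D)
  have hker : ∀ b : le h D, b ∈ LinearMap.ker f ↔ a ∣ (b : R) := by
    intro b
    rw [LinearMap.mem_ker]
    show Ideal.Quotient.mk (Ideal.span {a}) (b : R) = 0 ↔ _
    rw [Ideal.Quotient.eq_zero_iff_mem, Ideal.mem_span_singleton]
  have hrange : LinearMap.range f = qW h a D := LinearMap.range_domRestrict _ _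
  have hsum := LinearMap.finrank_range_add_finrank_ker f
  rw [hrange] at hsum
  rcases le_or_gt (dg a) D with hle | hlt
  · let g : le h (D - dg a) →ₗ[k] le h D :=
      LinearMap.codRestrict (le h D) ((LinearMap.mulLeft k a).domRestrict (le h (D - dg a)))
        (fun b => by
          show dg (a * (b : R)) ≤ D
          exact (q_dg_mul_le h a b ha hle).2 b.2)
    have hg : ∀ b : le h (D - dg a), ((g b : le h D) : R) = a * (b : R) := fun b => rfl
    have hginj : Function.Injective g := by
      intro b c hbc
      apply Subtype.ext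
      have h1 := congrArg (fun x : le h D => (x : R)) hbc
      simp only [hg] at h1
      exact mul_left_cancel₀ ha h1
    have hgr : LinearMap.range g = LinearMap.ker f := by
      ext b
      rw [hker, LinearMap.mem_range]
      constructor
      · rintro ⟨c, rfl⟩
        exact ⟨c, hg c⟩
      · rintro ⟨c, hc⟩
        have hbD : dg (b : R) ≤ D := b.2
        rw [hc] at hbD
        exact ⟨⟨c, (q_dg_mul_le h a c ha hle).1 hbD⟩, Subtype.ext hc.symm⟩
    have h1 := LinearMap.finrank_range_of_inj hginj
    rw [hgr] at h1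
    have h2 := finrank_le_eq h (D := D) (by omega)
    have h3 := finrank_le_eq h (D := D - dg a) (by omega)
    omega
  · have hk : LinearMap.ker f = ⊥ := by
      rw [eq_bot_iff]
      intro b hb
      rw [hker] at hb
      obtain ⟨c, hc⟩ := hb
      have hbD : dg (b : R) ≤ D := b.2
      rw [Submodule.mem_bot]
      apply Subtype.ext
      by_contra hne
      have hc0 : c ≠ 0 := by
        rintro rfl
        apply hne
        rw [hc, mul_zero]
        rfl
      rw [hc, h.mul a c ha hc0] at hbD
      omega
    rw [hk, finrank_bot] at hsum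
    have h2 := finrank_le_eq h (D := D) (by omega)
    omega

theorem quo_surj (h : OnePt k dg) (a : R) (ha : a ≠ 0) {D : ℕ}
    (hD : dg a + 2 * gen dg ≤ D + 1) (r : R) : ∃ b ∈ le h D, r - b ∈ Ideal.span {a} := by
  have hfin := le_finite h (max D (dg r))
  have hWfin : Module.Finite k (qW h a (max D (dg r))) := by
    unfold qW
    infer_instance
  have hle : qW h a D ≤ qW h a (max D (dg r)) := by
    apply Submodule.map_mono
    intro b hb
    exact le_trans ((mem_le h D b).1 hb) (le_max_left _ _)
  have heq : qW h a D = qW h a (max D (dg r)) := by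
    apply Submodule.eq_of_le_of_finrank_eq hle
    rw [q_rank h a ha hD, q_rank h a ha (by
      have := le_max_left D (dg r)
      omega)]
  have hr : Ideal.Quotient.mk (Ideal.span {a}) r ∈ qW h a (max D (dg r)) :=
    ⟨r, le_max_right D (dg r), rfl⟩
  rw [← heq] at hr
  obtain ⟨b, hb, hbr⟩ := hr
  refine ⟨b, hb, ?_⟩
  rw [← Ideal.Quotient.eq]
  exact hbr.symm

private theorem q_top (h : OnePt k dg) (a : R) (ha : a ≠ 0) {D : ℕ}
    (hD : dg a + 2 * gen dg ≤ D + 1) : qW h a D = ⊤ := by
  rw [eq_top_iff]
  intro x _
  obtain ⟨r, rfl⟩ := Ideal.Quotient.mk_surjective x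
  obtain ⟨b, hb, hbr⟩ := quo_surj h a ha hD r
  exact ⟨b, hb, ((Ideal.Quotient.eq).2 hbr).symm⟩

theorem quo_finite (h : OnePt k dg) (a : R) (ha : a ≠ 0) :
    Module.Finite k (R ⧸ Ideal.span {a}) := by
  have hfin := le_finite h (dg a + 2 * gen dg)
  have hWfin : Module.Finite k (qW h a (dg a + 2 * gen dg)) := by
    unfold qW
    infer_instance
  rw [q_top h a ha (Nat.le_succ _)] at hWfin
  exact Module.finite_def.2 ((Module.Finite.iff_fg).1 hWfin)

theorem ideg_span (h : OnePt k dg) (a : R) (ha : a ≠ 0) : ideg k (Ideal.span {a}) = dg a := by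
  unfold ideg
  have h1 := q_rank h a ha (D := dg a + 2 * gen dg) (Nat.le_succ _)
  rw [q_top h a ha (Nat.le_succ _), finrank_top] at h1
  exact h1

end Pool.Agent.H71.AS
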